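import Pool.Agent.Helper96.GJ.Base

/-! The classical Littlewood-Offord inequality for integer coefficients. -/

set_option autoImplicit false

namespace Pool.Agent.GaussJones

open Finset

theorem centralBinom_sq (m : ℕ) : m.centralBinom ^ 2 * (2 * m + 1) ≤ 16 ^ m := by
  induction m with
  | zero => simp
  | succ m ih =>
    have h1 := Nat.succ_mul_centralBinom_succ m
    have h2 : (m + 1) ^ 2 * ((m + 1).centralBinom ^ 2 * (2 * (m + 1) + 1)) ≤
        (m + 1) ^ 2 * 16 ^ (m + 1) := by
      calc (m + 1) ^ 2 * ((m + 1).centralBinom ^ 2 * (2 * (m + 1) + 1))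
          = ((m + 1) * (m + 1).centralBinom) ^ 2 * (2 * (m + 1) + 1) := by ring
        _ = (m.centralBinom ^ 2 * (2 * m + 1)) * (4 * ((2 * m + 1) * (2 * m + 3))) := by
            rw [h1]; ring
        _ ≤ 16 ^ m * (16 * (m + 1) ^ 2) := Nat.mul_le_mul ih (by nlinarith)
        _ = (m + 1) ^ 2 * 16 ^ (m + 1) := by ring
    exact Nat.le_of_mul_le_mul_left h2 (by positivity)

theorem choose_half_sq (n : ℕ) : n.choose (n / 2) ^ 2 * (n + 1) ≤ 4 ^ n := by
  rcases Nat.even_or_odd' n with ⟨m, rfl | rfl⟩
  · have h1 := centralBinom_sq m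
    rw [Nat.centralBinom] at h1
    rw [Nat.mul_div_cancel_left _ (by norm_num), pow_mul]
    exact h1
  · have h1 := centralBinom_sq (m + 1)
    have h2 : (m + 1).centralBinom = 2 * (2 * m + 1).choose m := by
      rw [Nat.centralBinom]
      have h3 : 2 * (m + 1) = (2 * m + 1) + 1 := by ring
      rw [h3, Nat.choose_succ_succ, ← Nat.choose_symm_of_eq_add (show 2 * m + 1 = m + (m + 1) by ring)]
      ring
    have h4 : (2 * m + 1) / 2 = m := by omega
    rw [h4]
    rw [h2] at h1
    have h5 : 4 * ((2 * m + 1).choose m ^ 2 * (2 * (m + 1) + 1)) ≤ 4 * 4 ^ (2 * m + 1) := by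
      calc 4 * ((2 * m + 1).choose m ^ 2 * (2 * (m + 1) + 1))
          = (2 * (2 * m + 1).choose m) ^ 2 * (2 * (m + 1) + 1) := by ring
        _ ≤ 16 ^ (m + 1) := h1
        _ = 4 * 4 ^ (2 * m + 1) := by
            rw [show (16 : ℕ) = 4 ^ 2 by norm_num, ← pow_mul, ← pow_succ']
            congr 1
    have h6 : (2 * m + 1).choose m ^ 2 * (2 * m + 1 + 1) ≤
        (2 * m + 1).choose m ^ 2 * (2 * (m + 1) + 1) := Nat.mul_le_mul_left _ (by omega)
    omega

/-- The number of solutions when all coefficients are nonzero. -/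
theorem card_le_choose {ι : Type} [Fintype ι] [DecidableEq ι] (a : ι → ℤ) (ha : ∀ i, a i ≠ 0)
    (c : ℤ) : (univ.filter fun x : ι → Bool => (∑ i, a i * sg (x i)) = c).card ≤
      (Fintype.card ι).choose (Fintype.card ι / 2) := by
  let f : (ι → Bool) → Finset ι := fun x => univ.filter fun i => x i = decide (0 < a i)
  have hf : Function.Injective f := by
    intro x y h
    funext i
    have h1 : i ∈ f x ↔ i ∈ f y := by rw [h]
    simp only [f, mem_filter, mem_univ, true_and] at h1
    generalize decide (0 < a i) = b at h1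
    revert h1
    cases x i <;> cases y i <;> cases b <;> simp
  rw [← card_image_of_injective _ hf]
  apply IsAntichain.sperner
  intro A hA B hB hAB hle
  rw [coe_image, Set.mem_image] at hA hB
  obtain ⟨x, hx, rfl⟩ := hA
  obtain ⟨y, hy, rfl⟩ := hB
  rw [coe_filter, Set.mem_ofPred_eq] at hx hy
  have hterm : ∀ i, a i * sg (x i) ≤ a i * sg (y i) := by
    intro i
    have h1 : i ∈ f x → i ∈ f y := fun h => hle h
    simp only [f, mem_filter, mem_univ, true_and] at h1
    have h2 := ha i
    by_cases h3 : 0 < a i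
    · simp only [h3, decide_true] at h1
      unfold sg
      cases hx' : x i <;> cases hy' : y i <;> simp_all <;> omega
    · simp only [h3, decide_false] at h1
      unfold sg
      cases hx' : x i <;> cases hy' : y i <;> simp_all
  apply hAB
  have hsum : ∑ i, (a i * sg (y i) - a i * sg (x i)) = 0 := by
    rw [sum_sub_distrib, hx.2, hy.2, sub_self]
  rw [sum_eq_zero_iff_of_nonneg (fun i _ => sub_nonneg.2 (hterm i))] at hsum
  congr 1
  funext i
  have h1 := hsum i (mem_univ i)
  have h2 := ha i
  have h3 : a i * (sg (y i) - sg (x i)) = 0 := by rw [mul_sub]; exact h1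
  have h4 := (mul_eq_zero.1 h3).resolve_left h2
  revert h4
  unfold sg
  cases x i <;> cases y i <;> simp

/-- **Littlewood-Offord inequality** (Erdos). -/
theorem linear_LO : ∃ C : ℝ, 0 ≤ C ∧ ∀ (ι : Type) [Fintype ι] [DecidableEq ι] (a : ι → ℤ)
    (c : ℤ) (N : ℕ), 0 < N → N ≤ (univ.filter fun i => a i ≠ 0).card →
    ((univ.filter fun x : ι → Bool => (∑ i, a i * sg (x i)) = c).card : ℝ) ≤
      C / Real.sqrt N * 2 ^ Fintype.card ι := by
  refine ⟨1, zero_le_one, ?_⟩
  intro ι _ _ a c N hN hNS
  let p : ι → Prop := fun i => a i ≠ 0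
  set s := Fintype.card {i // p i} with hs
  have hsN : N ≤ s := by
    rw [hs, Fintype.card_subtype]
    exact hNS
  -- fibres
  let E := Equiv.piEquivPiSubtypeProd p (fun _ => Bool)
  have h1 : (univ.filter fun x : ι → Bool => (∑ i, a i * sg (x i)) = c).card ≤
      s.choose (s / 2) * 2 ^ Fintype.card {i // ¬ p i} := by
    have h2 : (univ.filter fun x : ι → Bool => (∑ i, a i * sg (x i)) = c).card ≤
        s.choose (s / 2) * (univ : Finset ({i // ¬ p i} → Bool)).card := by
      apply card_le_mul_card_image_of_maps_to (f := fun x => (E x).2) (fun _ _ => mem_univ _)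
      intro y _
      refine le_trans ?_ (card_le_choose (fun i : {i // p i} => a i) (fun i => i.2) c)
      apply card_le_card_of_injOn (fun x => (E x).1)
      · intro x hx
        rw [mem_coe, mem_filter, mem_filter] at hx
        rw [mem_coe, mem_filter]
        refine ⟨mem_univ _, ?_⟩
        rw [← hx.1.2, ← Fintype.sum_subtype_add_sum_subtype p (fun i => a i * sg (x i))]
        have h3 : ∑ i : {i // ¬ p i}, a i * sg (x i) = 0 := by
          apply sum_eq_zero
          intro i _
          have : a i = 0 := not_not.1 i.2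
          rw [this, zero_mul]
        rw [h3, add_zero]
        rfl
      · intro x hx x' hx' h
        rw [mem_coe, mem_filter] at hx hx'
        apply E.injective
        exact Prod.ext h (hx.2.trans hx'.2.symm)
    rwa [card_univ, Fintype.card_fun, Fintype.card_bool] at h2
  have h2 : s + Fintype.card {i // ¬ p i} = Fintype.card ι := by
    rw [hs, ← Fintype.card_sum]
    exact Fintype.card_congr (Equiv.sumCompl p)
  have h3 : ((s.choose (s / 2) : ℕ) : ℝ) ≤ 2 ^ s / Real.sqrt N := by
    have h4 := choose_half_sq s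
    have hN' : (0 : ℝ) < N := by exact_mod_cast hN
    rw [le_div_iff₀ (Real.sqrt_pos.2 hN')]
    apply le_of_sq_le_sq _ (by positivity)
    rw [mul_pow, Real.sq_sqrt hN'.le, ← pow_mul, mul_comm s 2, pow_mul]
    have h5 : s.choose (s / 2) ^ 2 * N ≤ 4 ^ s :=
      (Nat.mul_le_mul_left _ (by omega)).trans h4
    have h6 : (((s.choose (s / 2) ^ 2 * N : ℕ)) : ℝ) ≤ ((4 ^ s : ℕ) : ℝ) := by exact_mod_cast h5
    push_cast at h6
    norm_num
    exact h6
  calc ((univ.filter fun x : ι → Bool => (∑ i, a i * sg (x i)) = c).card : ℝ)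
      ≤ ((s.choose (s / 2) * 2 ^ Fintype.card {i // ¬ p i} : ℕ) : ℝ) := by exact_mod_cast h1
    _ = ((s.choose (s / 2) : ℕ) : ℝ) * 2 ^ Fintype.card {i // ¬ p i} := by push_cast; ring
    _ ≤ 2 ^ s / Real.sqrt N * 2 ^ Fintype.card {i // ¬ p i} := by gcongr
    _ = 1 / Real.sqrt N * 2 ^ Fintype.card ι := by
      rw [← h2, pow_add]
      ring

end Pool.Agent.GaussJones
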