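import Pool.Agent.Helper96.GJ.Quad
import Pool.Agent.Helper96.GJ.LinearLO

/-! The quadratic Littlewood-Offord inequality for graphs with a matching. -/

namespace Pool.Agent.GaussJones

open Finset

/-- the variables as: remaining ones, first ends, second ends of the matching -/
theorem exists_split {n m : ℕ} (u w : Fin m → Fin n) (hinj : Function.Injective (Sum.elim u w)) :
    ∃ ε : ({i : Fin n // i ∉ Set.range (Sum.elim u w)} ⊕ Fin m) ⊕ Fin m ≃ Fin n,
      (∀ k, ε (Sum.inl (Sum.inr k)) = u k) ∧ (∀ k, ε (Sum.inr k) = w k) := by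
  classical
  set ρ := {i : Fin n // i ∉ Set.range (Sum.elim u w)} with hρ
  set φ : (ρ ⊕ Fin m) ⊕ Fin m → Fin n := Sum.elim (Sum.elim Subtype.val u) w with hφ
  have hu : Function.Injective u := fun a b h => by
    have : Sum.elim u w (Sum.inl a) = Sum.elim u w (Sum.inl b) := h
    exact Sum.inl_injective (hinj this)
  have hw : Function.Injective w := fun a b h => by
    have : Sum.elim u w (Sum.inr a) = Sum.elim u w (Sum.inr b) := h
    exact Sum.inr_injective (hinj this)
  have huw : ∀ a b, u a ≠ w b := fun a b h => by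
    have : Sum.elim u w (Sum.inl a) = Sum.elim u w (Sum.inr b) := h
    exact absurd (hinj this) (by simp)
  have hφb : Function.Bijective φ := by
    constructor
    · rintro ((x | x) | x) ((y | y) | y) h
      · simp only [hφ, Sum.elim_inl] at h
        rw [Subtype.ext h]
      · simp only [hφ, Sum.elim_inl, Sum.elim_inr] at h
        exact absurd ⟨Sum.inl y, h.symm⟩ x.2
      · simp only [hφ, Sum.elim_inl, Sum.elim_inr] at h
        exact absurd ⟨Sum.inr y, h.symm⟩ x.2
      · simp only [hφ, Sum.elim_inl, Sum.elim_inr] at h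
        exact absurd ⟨Sum.inl x, h⟩ y.2
      · simp only [hφ, Sum.elim_inl, Sum.elim_inr] at h
        rw [hu h]
      · simp only [hφ, Sum.elim_inl, Sum.elim_inr] at h
        exact absurd h (huw _ _)
      · simp only [hφ, Sum.elim_inl, Sum.elim_inr] at h
        exact absurd ⟨Sum.inr x, h⟩ y.2
      · simp only [hφ, Sum.elim_inl, Sum.elim_inr] at h
        exact absurd h.symm (huw _ _)
      · simp only [hφ, Sum.elim_inr] at h
        rw [hw h]
    · intro i
      by_cases h : i ∈ Set.range (Sum.elim u w)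
      · obtain ⟨x | x, hx⟩ := h
        · exact ⟨Sum.inl (Sum.inr x), hx⟩
        · exact ⟨Sum.inr x, hx⟩
      · exact ⟨Sum.inl (Sum.inl ⟨i, h⟩), rfl⟩
  exact ⟨Equiv.ofBijective φ hφb, fun k => rfl, fun k => rfl⟩

theorem card_transfer {n m : ℕ} {ρ : Type} [Fintype ρ] [DecidableEq ρ]
    (u w : Fin m → Fin n) (ε : (ρ ⊕ Fin m) ⊕ Fin m ≃ Fin n)
    (hu : ∀ k, ε (Sum.inl (Sum.inr k)) = u k) (hw : ∀ k, ε (Sum.inr k) = w k)
    (A : Fin n → Fin n → Prop) [DecidableRel A] (e₀ : Fin n → Bool) (c : ℤ) :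
    (univ.filter fun e : Fin n → Bool => (∀ i, (∀ k, u k ≠ i) → (∀ k, w k ≠ i) → e i = e₀ i) ∧
      (∑ i, ∑ j, if A i j then sg (e i) * sg (e j) else 0) = c).card ≤
      (univ.filter fun xy : (Fin m → Bool) × (Fin m → Bool) =>
      (∑ i, ∑ j, (if A (ε i) (ε j) then (1:ℤ) else 0) *
        (sg (Sum.elim (Sum.elim (fun r => e₀ (ε (Sum.inl (Sum.inl r)))) xy.1) xy.2 i) *
        sg (Sum.elim (Sum.elim (fun r => e₀ (ε (Sum.inl (Sum.inl r)))) xy.1) xy.2 j))) = c).card := by
  have key : ∀ e : Fin n → Bool, (∀ i, (∀ k, u k ≠ i) → (∀ k, w k ≠ i) → e i = e₀ i) →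
      ∀ i, Sum.elim (Sum.elim (fun r => e₀ (ε (Sum.inl (Sum.inl r)))) (fun k => e (u k)))
        (fun k => e (w k)) i = e (ε i) := by
    intro e he i
    rcases i with (r | k) | k
    · simp only [Sum.elim_inl]
      refine (he _ (fun k hk => ?_) (fun k hk => ?_)).symm
      · rw [← hu k] at hk
        have := ε.injective hk
        simp at this
      · rw [← hw k] at hk
        have := ε.injective hk
        simp at this
    · simp only [Sum.elim_inl, Sum.elim_inr]; rw [hu]
    · simp only [Sum.elim_inr]; rw [hw]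
  refine Finset.card_le_card_of_injOn (fun e => (fun k => e (u k), fun k => e (w k))) ?_ ?_
  · intro e he
    simp only [Finset.coe_filter, Finset.mem_univ, true_and, Set.mem_ofPred_eq] at he ⊢
    rw [← he.2]
    have h := key e he.1
    have h2 : (∑ i, ∑ j, if A i j then sg (e i) * sg (e j) else 0) =
        ∑ i, ∑ j, (if A (ε i) (ε j) then (1:ℤ) else 0) * (sg (e (ε i)) * sg (e (ε j))) := by
      rw [← ε.sum_comp]
      apply Finset.sum_congr rfl
      intro i _
      rw [← ε.sum_comp]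
      apply Finset.sum_congr rfl
      intro j _
      split_ifs <;> simp
    rw [h2]
    apply Finset.sum_congr rfl
    intro i _
    apply Finset.sum_congr rfl
    intro j _
    rw [h i, h j]
  · intro e he e' he' hee
    simp only [Finset.coe_filter, Finset.mem_univ, true_and, Set.mem_ofPred_eq] at he he'
    have h1 := key e he.1
    have h2 := key e' he'.1
    simp only [Prod.mk.injEq] at hee
    rw [hee.1, hee.2] at h1
    funext i
    obtain ⟨j, rfl⟩ := ε.surjective i
    rw [← h1 j, ← h2 j]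

/-- Quadratic Littlewood-Offord inequality for the edge sum of a graph with a matching: the
variables outside the matching are fixed arbitrarily. -/
theorem quadratic_LO : ∃ C : ℝ, 0 ≤ C ∧ ∀ (n m : ℕ) (A : Fin n → Fin n → Prop) [DecidableRel A]
    (u w : Fin m → Fin n), (∀ i j, A i j → A j i) →
    Function.Injective (Sum.elim u w) → (∀ k, A (u k) (w k)) → 0 < m →
    ∀ (e₀ : Fin n → Bool) (c : ℤ),
    ((univ.filter fun e : Fin n → Bool =>
      (∀ i, (∀ k, u k ≠ i) → (∀ k, w k ≠ i) → e i = e₀ i) ∧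
      (∑ i, ∑ j, if A i j then sg (e i) * sg (e j) else 0) = c).card : ℝ) ≤
      C * ((1 + Real.log m) / m) ^ (1 / 4 : ℝ) * 4 ^ m := by
  classical
  obtain ⟨C, hC0, hC⟩ := linear_LO
  have hLO : LinearLO C := by
    intro ι _ _ a c N hN hNa
    exact hC ι a c N hN hNa
  obtain ⟨D, hD0, hD⟩ := sum_phi hC0 hLO
  refine ⟨Real.sqrt D, Real.sqrt_nonneg _, ?_⟩
  intro n m A _ u w hsymm hinj hadj hm e₀ c
  obtain ⟨ρ, _, _, ε, hεu, hεw⟩ : ∃ (ρ : Type) (_ : Fintype ρ) (_ : DecidableEq ρ)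
      (ε : (ρ ⊕ Fin m) ⊕ Fin m ≃ Fin n),
      (∀ k, ε (Sum.inl (Sum.inr k)) = u k) ∧ (∀ k, ε (Sum.inr k) = w k) := by
    obtain ⟨ε, h1, h2⟩ := exists_split u w hinj
    exact ⟨_, inferInstance, inferInstance, ε, h1, h2⟩
  set B : (ρ ⊕ Fin m) ⊕ Fin m → (ρ ⊕ Fin m) ⊕ Fin m → ℤ := fun i j =>
    if A (ε i) (ε j) then 1 else 0 with hB
  have hBs : ∀ i j, B i j = B j i := by
    intro i j
    simp only [hB]
    by_cases h : A (ε i) (ε j)
    · rw [if_pos h, if_pos (hsymm _ _ h)]
    · rw [if_neg h, if_neg (fun h' => h (hsymm _ _ h'))]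
  have hBd : ∀ k, (fun k l => B (Sum.inl (Sum.inr k)) (Sum.inr l)) k k ≠ 0 := by
    intro k
    have : A (ε (Sum.inl (Sum.inr k))) (ε (Sum.inr k)) := by
      rw [hεu, hεw]; exact hadj k
    simp only [hB, if_pos this]
    norm_num
  have h1 := quad_core hLO B hBs (fun r => e₀ (ε (Sum.inl (Sum.inl r)))) c
  have h2 := hD m (fun k l => B (Sum.inl (Sum.inr k)) (Sum.inr l)) hm hBd
  have hcard := card_transfer u w ε hεu hεw A e₀ c
  have hcard' : ((univ.filter fun e : Fin n → Bool =>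
      (∀ i, (∀ k, u k ≠ i) → (∀ k, w k ≠ i) → e i = e₀ i) ∧
      (∑ i, ∑ j, if A i j then sg (e i) * sg (e j) else 0) = c).card : ℝ) ≤
      ((univ.filter fun xy : (Fin m → Bool) × (Fin m → Bool) =>
      (∑ i, ∑ j, B i j *
        (sg (Sum.elim (Sum.elim (fun r => e₀ (ε (Sum.inl (Sum.inl r)))) xy.1) xy.2 i) *
        sg (Sum.elim (Sum.elim (fun r => e₀ (ε (Sum.inl (Sum.inl r)))) xy.1) xy.2 j))) = c).card :
        ℝ) := Nat.cast_le.mpr hcard
  refine hcard'.trans ?_
  set S : ℝ := ((univ.filter fun xy : (Fin m → Bool) × (Fin m → Bool) =>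
      (∑ i, ∑ j, B i j *
        (sg (Sum.elim (Sum.elim (fun r => e₀ (ε (Sum.inl (Sum.inl r)))) xy.1) xy.2 i) *
        sg (Sum.elim (Sum.elim (fun r => e₀ (ε (Sum.inl (Sum.inl r)))) xy.1) xy.2 j))) = c).card :
        ℝ) with hS
  have hS0 : 0 ≤ S := by positivity
  set R : ℝ := (1 + Real.log m) / m with hR
  have hm1 : (1:ℝ) ≤ m := by exact_mod_cast hm
  have hR0 : 0 ≤ R := by
    have := Real.log_nonneg hm1
    positivity
  have h4m : (4:ℝ) ^ m = 2 ^ m * 2 ^ m := by
    rw [← mul_pow]; norm_num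
  have h3 : S ^ 2 ≤ (4 ^ m) ^ 2 * (D * Real.sqrt R) := by
    calc S ^ 2 ≤ _ := h1
      _ ≤ (2 ^ m) ^ 2 * (4 ^ m * (D * Real.sqrt R)) :=
          mul_le_mul_of_nonneg_left h2 (by positivity)
      _ = (4 ^ m) ^ 2 * (D * Real.sqrt R) := by
          rw [h4m]
          ring
  have h4 : (Real.sqrt D * R ^ (1 / 4 : ℝ) * 4 ^ m) ^ 2 = (4 ^ m) ^ 2 * (D * Real.sqrt R) := by
    rw [mul_pow, mul_pow, Real.sq_sqrt hD0]
    have : (R ^ (1 / 4 : ℝ)) ^ 2 = Real.sqrt R := by
      rw [← Real.rpow_natCast, ← Real.rpow_mul hR0, Real.sqrt_eq_rpow]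
      norm_num
    rw [this]
    ring
  rw [← h4] at h3
  exact le_of_sq_le_sq h3 (by positivity)

end Pool.Agent.GaussJones
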