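import Pool.Agent.Helper96.GJ.Base

/-! Module B: a reduced chord diagram with `t` bigon classes has at least `t / 10` disjoint
interlaced pairs. -/

namespace Pool.Agent.GaussJones

open Finset

variable {n : ℕ}

theorem exists_side (g : Code n) (i : Fin n) : ∃ a : Bool, g (i, a) = lo g i ∧ g (i, !a) = hi g i := by
  unfold lo hi
  rcases le_total (g (i, false)) (g (i, true)) with h | h
  · exact ⟨false, by simp [min_eq_left h], by simp [max_eq_right h]⟩
  · exact ⟨true, by simp [min_eq_right h], by simp [max_eq_left h]⟩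

theorem lo_lt_hi (g : Code n) (i : Fin n) : lo g i < hi g i := by
  have hne : g (i, false) ≠ g (i, true) := by
    intro h
    have := g.injective h
    simp at this
  unfold lo hi
  exact min_lt_max.2 hne

theorem place_eq (g : Code n) (p : Fin (2 * n)) :
    p = lo g (g.symm p).1 ∨ p = hi g (g.symm p).1 := by
  obtain ⟨a, h1, h2⟩ := exists_side g (g.symm p).1
  have hp : g ((g.symm p).1, (g.symm p).2) = p := by simp
  by_cases hb : (g.symm p).2 = a
  · left; rw [← h1, ← hb, hp]
  · right
    have : (g.symm p).2 = !a := Bool.eq_not.2 hb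
    rw [← h2, ← this, hp]

theorem symm_lo (g : Code n) (i : Fin n) : (g.symm (lo g i)).1 = i := by
  obtain ⟨a, h1, _⟩ := exists_side g i
  rw [← h1]; simp

theorem symm_hi (g : Code n) (i : Fin n) : (g.symm (hi g i)).1 = i := by
  obtain ⟨a, _, h2⟩ := exists_side g i
  rw [← h2]; simp

theorem lo_inj (g : Code n) {i j : Fin n} (h : lo g i = lo g j) : i = j := by
  rw [← symm_lo g i, h, symm_lo]

theorem hi_inj (g : Code n) {i j : Fin n} (h : hi g i = hi g j) : i = j := by
  rw [← symm_hi g i, h, symm_hi]

theorem lo_ne_hi (g : Code n) (i j : Fin n) : lo g i ≠ hi g j := by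
  intro h
  have : i = j := by rw [← symm_lo g i, h, symm_hi]
  subst this
  exact absurd h (lo_lt_hi g i).ne

/-- number of passages through crossings of `C` before the place `p` -/
noncomputable def cnt (g : Code n) (C : Finset (Fin n)) (p : Fin (2 * n)) : ℕ :=
  (univ.filter fun q : Fin (2 * n) => q < p ∧ (g.symm q).1 ∈ C).card

theorem cnt_mono (g : Code n) (C : Finset (Fin n)) {p q : Fin (2 * n)} (h : p ≤ q) :
    cnt g C p ≤ cnt g C q := by
  unfold cnt
  apply card_le_card
  intro x hx
  simp only [mem_filter, mem_univ, true_and] at hx ⊢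
  exact ⟨lt_of_lt_of_le hx.1 h, hx.2⟩

theorem cnt_lt (g : Code n) (C : Finset (Fin n)) {p q c : Fin (2 * n)} (h1 : p ≤ c) (h2 : c < q)
    (hc : (g.symm c).1 ∈ C) : cnt g C p < cnt g C q := by
  unfold cnt
  apply card_lt_card
  rw [ssubset_iff_of_subset]
  · refine ⟨c, ?_, ?_⟩
    · simp only [mem_filter, mem_univ, true_and]; exact ⟨h2, hc⟩
    · simp only [mem_filter, mem_univ, true_and, not_and]
      intro h; exact absurd h (not_lt.2 h1)
  · intro x hx
    simp only [mem_filter, mem_univ, true_and] at hx ⊢
    exact ⟨lt_of_lt_of_le hx.1 (h1.trans h2.le), hx.2⟩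

theorem cnt_le (g : Code n) (C : Finset (Fin n)) (p : Fin (2 * n)) :
    cnt g C p ≤ 2 * C.card := by
  unfold cnt
  calc (univ.filter fun q : Fin (2 * n) => q < p ∧ (g.symm q).1 ∈ C).card
      ≤ ((C ×ˢ (univ : Finset Bool)).map g.toEmbedding).card := by
        apply card_le_card
        intro x hx
        simp only [mem_filter, mem_univ, true_and] at hx
        simp only [mem_map, mem_product, mem_univ, and_true, Equiv.coe_toEmbedding]
        exact ⟨g.symm x, hx.2, by simp⟩
    _ = 2 * C.card := by
        rw [card_map, card_product]; simp [mul_comm]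

/-- a family of pairs `x < y ≤ N` without crossings has at most `2 * N` members -/
theorem noncrossing_card (N : ℕ) (S : Finset (ℕ × ℕ)) (h1 : ∀ t ∈ S, t.1 < t.2 ∧ t.2 ≤ N)
    (h2 : ∀ s ∈ S, ∀ t ∈ S, ¬ (s.1 < t.1 ∧ t.1 < s.2 ∧ s.2 < t.2)) : S.card ≤ 2 * N := by
  classical
  set A := S.filter fun t => ∀ s ∈ S, s.1 = t.1 → s.2 ≤ t.2 with hA
  set B := S.filter fun t => ¬ ∀ s ∈ S, s.1 = t.1 → s.2 ≤ t.2 with hB
  have hAB : A.card + B.card = S.card := card_filter_add_card_filter_not _
  have hAc : A.card ≤ N := by
    have : A.card ≤ (range N).card := by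
      apply card_le_card_of_injOn Prod.fst
      · intro t ht
        have ht' := (mem_filter.1 ht).1
        have := h1 t ht'
        simp only [coe_range, Set.mem_Iio]; omega
      · intro s hs t ht hst
        have hs' := mem_filter.1 hs
        have ht' := mem_filter.1 ht
        have e1 := hs'.2 t ht'.1 hst.symm
        have e2 := ht'.2 s hs'.1 hst
        exact Prod.ext hst (le_antisymm e2 e1)
    simpa using this
  have hBc : B.card ≤ N := by
    have : B.card ≤ (Ioc 0 N).card := by
      apply card_le_card_of_injOn Prod.snd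
      · intro t ht
        have ht' := (mem_filter.1 ht).1
        have := h1 t ht'
        simp only [coe_Ioc, Set.mem_Ioc]; omega
      · have key : ∀ s ∈ B, ∀ t ∈ B, s.2 = t.2 → ¬ s.1 < t.1 := by
          intro s hs t ht hst hlt
          have hs' := mem_filter.1 hs
          have ht' := mem_filter.1 ht
          obtain ⟨r, hr, hr1, hr2⟩ : ∃ r ∈ S, r.1 = t.1 ∧ t.2 < r.2 := by
            by_contra hcon
            apply ht'.2
            intro r hr hrt
            by_contra hlt'
            exact hcon ⟨r, hr, hrt, not_le.1 hlt'⟩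
          apply h2 s hs'.1 r hr
          have := h1 t ht'.1
          refine ⟨by omega, by omega, by omega⟩
        intro s hs t ht hst
        have k1 := key s hs t ht hst
        have k2 := key t ht s hs hst.symm
        exact Prod.ext (by omega) hst
    simpa using this
  omega

theorem hi_lt_of_not_interlaced (g : Code n) {i j : Fin n} (h : ¬ Interlaced g i j)
    (hl : lo g i < lo g j) (hm : lo g j < hi g i) : hi g j < hi g i := by
  have hne : i ≠ j := by rintro rfl; exact absurd hl (lt_irrefl _)
  rcases lt_trichotomy (hi g j) (hi g i) with h1 | h1 | h1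
  · exact h1
  · exact absurd (hi_inj g h1).symm hne
  · exact absurd (Or.inl ⟨hl, hm, h1⟩) h

theorem rotate_eq : ∀ (N : ℕ) (p q : Fin N), p.val + 1 = q.val → finRotate N p = q := by
  intro N
  cases N with
  | zero => intro p; exact p.elim0
  | succ N =>
    intro p q h
    have hq := q.isLt
    have hne : p ≠ Fin.last N := by
      intro hp; rw [hp] at h; simp only [Fin.val_last] at h; omega
    apply Fin.ext
    rw [coe_finRotate_of_ne_last hne, h]

theorem bigon_of_adjacent (g : Code n) {i j : Fin n} (h1 : (lo g i).val + 1 = (lo g j).val)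
    (h2 : (hi g j).val + 1 = (hi g i).val) : Bigon g i j := by
  obtain ⟨a, ha1, ha2⟩ := exists_side g i
  obtain ⟨b, hb1, hb2⟩ := exists_side g j
  refine ⟨a, b, ?_, ?_⟩
  · rw [ha1, hb1]
    exact Or.inl (rotate_eq _ _ _ h1)
  · rw [ha2, hb2]
    exact Or.inr (rotate_eq _ _ _ h2)

/-- two nested crossings outside `C` of the same type are in the same class -/
theorem same_class_aux (g : Code n) (C : Finset (Fin n))
    (hC : ∀ i, i ∉ C → ∀ j, j ∉ C → ¬ Interlaced g i j)
    (hlt : ∀ i, i ∉ C → cnt g C (lo g i) < cnt g C (hi g i)) :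
    ∀ (d : ℕ) (i j : Fin n), i ∉ C → j ∉ C → lo g i < lo g j →
      cnt g C (lo g i) = cnt g C (lo g j) → cnt g C (hi g i) = cnt g C (hi g j) →
      (lo g j).val - (lo g i).val ≤ d → Quot.mk (Bigon g) i = Quot.mk (Bigon g) j := by
  intro d
  induction d with
  | zero =>
    intro i j _ _ hl _ _ hd
    have : (lo g i).val < (lo g j).val := hl
    omega
  | succ d ih =>
    intro i j hi' hj' hl hx hy hd
    have hl' : (lo g i).val < (lo g j).val := hl
    -- nested
    have hm : lo g j < hi g i := by
      by_contra hcon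
      have := cnt_mono g C (not_lt.1 hcon)
      have := hlt i hi'
      omega
    have hn : hi g j < hi g i := hi_lt_of_not_interlaced g (hC i hi' j hj') hl hm
    have hij := lo_lt_hi g i
    have hjj := lo_lt_hi g j
    by_cases hadj : (lo g i).val + 1 = (lo g j).val ∧ (hi g j).val + 1 = (hi g i).val
    · exact Quot.sound (bigon_of_adjacent g hadj.1 hadj.2)
    -- a place strictly between
    obtain ⟨p, hp⟩ : ∃ p : Fin (2 * n), (lo g i < p ∧ p < lo g j) ∨ (hi g j < p ∧ p < hi g i) := by
      by_cases h1 : (lo g i).val + 1 = (lo g j).val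
      · have h2 : (hi g j).val + 1 ≠ (hi g i).val := fun h => hadj ⟨h1, h⟩
        have hn' : (hi g j).val < (hi g i).val := hn
        have := (hi g i).isLt
        refine ⟨⟨(hi g j).val + 1, by omega⟩, Or.inr ⟨?_, ?_⟩⟩
        · rw [Fin.lt_def]; simp
        · rw [Fin.lt_def]; simp only; omega
      · have := (lo g j).isLt
        refine ⟨⟨(lo g i).val + 1, by omega⟩, Or.inl ⟨?_, ?_⟩⟩
        · rw [Fin.lt_def]; simp
        · rw [Fin.lt_def]; simp only; omega
    set r := (g.symm p).1 with hr
    have hrC : r ∉ C := by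
      intro hrC
      rcases hp with ⟨hp1, hp2⟩ | ⟨hp1, hp2⟩
      · have := cnt_lt g C hp1.le hp2 hrC; omega
      · have := cnt_lt g C hp1.le hp2 hrC; omega
    have hri := hC r hrC i hi'
    have hrj := hC r hrC j hj'
    have hir := hC i hi' r hrC
    have hjr := hC j hj' r hrC
    have hrr := lo_lt_hi g r
    have hrlt := hlt r hrC
    have hpr := place_eq g p
    rw [← hr] at hpr
    -- r is between i and j
    have key : lo g i < lo g r ∧ lo g r < lo g j ∧ hi g j < hi g r ∧ hi g r < hi g i := by
      have hnri : lo g r ≠ lo g i := by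
        intro h
        have := lo_inj g h
        rw [this] at hpr
        rcases hp with ⟨hp1, hp2⟩ | ⟨hp1, hp2⟩ <;> rcases hpr with h' | h' <;> rw [h'] at hp1 hp2
        · exact absurd hp1 (lt_irrefl _)
        · exact absurd (hp2.trans hm) (lt_irrefl _)
        · exact absurd (hp1.trans (hl.trans hjj)) (lt_irrefl _)
        · exact absurd hp2 (lt_irrefl _)
      have hnrj : lo g r ≠ lo g j := by
        intro h
        have := lo_inj g h
        rw [this] at hpr
        rcases hp with ⟨hp1, hp2⟩ | ⟨hp1, hp2⟩ <;> rcases hpr with h' | h' <;> rw [h'] at hp1 hp2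
        · exact absurd hp2 (lt_irrefl _)
        · exact absurd (hp2.trans hjj) (lt_irrefl _)
        · exact absurd (hp1.trans hjj) (lt_irrefl _)
        · exact absurd hp1 (lt_irrefl _)
      have hhri : hi g r ≠ hi g i := fun h => hnri (by rw [hi_inj g h])
      have hhrj : hi g r ≠ hi g j := fun h => hnrj (by rw [hi_inj g h])
      have c1 := lo_ne_hi g r i
      have c2 := lo_ne_hi g r j
      have c3 := lo_ne_hi g i r
      have c4 := lo_ne_hi g j r
      unfold Interlaced at hri hrj
      have m1 : ∀ a b : Fin (2 * n), cnt g C a < cnt g C b → a < b := by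
        intro a b hab
        by_contra hcon
        have := cnt_mono g C (not_lt.1 hcon)
        omega
      rcases hp with ⟨hp1, hp2⟩ | ⟨hp1, hp2⟩ <;> rcases hpr with h' | h' <;> rw [h'] at hp1 hp2
      · -- lo r between lo i and lo j
        refine ⟨hp1, hp2, ?_, ?_⟩
        · -- hi r > hi j
          have e1 : cnt g C (lo g r) = cnt g C (lo g j) :=
            le_antisymm (cnt_mono g C hp2.le) (hx ▸ cnt_mono g C hp1.le)
          have e2 : lo g j < hi g r := m1 _ _ (by omega)
          rcases lt_or_gt_of_ne hhrj with h | h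
          · exact absurd (Or.inl ⟨hp2, e2, h⟩) hrj
          · exact h
        · rcases lt_or_gt_of_ne hhri with h | h
          · exact h
          · exact absurd (Or.inr ⟨hp1, hp2.trans hm, h⟩) hri
      · -- hi r between lo i and lo j : impossible
        exfalso
        have e1 : cnt g C (hi g r) = cnt g C (lo g i) :=
          le_antisymm (hx ▸ cnt_mono g C hp2.le) (cnt_mono g C hp1.le)
        have e2 : lo g r < lo g i := m1 _ _ (by omega)
        exact hri (Or.inl ⟨e2, hp1, hp2.trans hm⟩)
      · -- lo r between hi j and hi i : impossible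
        exfalso
        have e1 : cnt g C (lo g r) = cnt g C (hi g i) :=
          le_antisymm (cnt_mono g C hp2.le) (hy ▸ cnt_mono g C hp1.le)
        have e2 : hi g i < hi g r := m1 _ _ (by omega)
        exact hri (Or.inr ⟨(hl.trans hjj).trans hp1, hp2, e2⟩)
      · -- hi r between hi j and hi i
        have e1 : cnt g C (hi g r) = cnt g C (hi g j) :=
          le_antisymm (hy ▸ cnt_mono g C hp2.le) (cnt_mono g C hp1.le)
        refine ⟨?_, ?_, hp1, hp2⟩
        · rcases lt_or_gt_of_ne hnri with h | h
          · exact absurd (Or.inl ⟨h, (hl.trans hjj).trans hp1, hp2⟩) hri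
          · exact h
        · have e2 : lo g r < hi g j := m1 _ _ (by omega)
          rcases lt_or_gt_of_ne hnrj with h | h
          · exact h
          · exact absurd (Or.inr ⟨h, e2, hp1⟩) hrj
    obtain ⟨k1, k2, k3, k4⟩ := key
    have k1' : (lo g i).val < (lo g r).val := k1
    have k2' : (lo g r).val < (lo g j).val := k2
    have x1 : cnt g C (lo g i) = cnt g C (lo g r) :=
      le_antisymm (cnt_mono g C k1.le) (hx ▸ cnt_mono g C k2.le)
    have y1 : cnt g C (hi g i) = cnt g C (hi g r) :=
      le_antisymm (hy ▸ cnt_mono g C k3.le) (cnt_mono g C k4.le)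
    rw [ih i r hi' hrC k1 x1 y1 (by omega)]
    exact ih r j hrC hj' k2 (x1 ▸ hx) (y1 ▸ hy) (by omega)

theorem same_class (g : Code n) (C : Finset (Fin n))
    (hC : ∀ i, i ∉ C → ∀ j, j ∉ C → ¬ Interlaced g i j)
    (hlt : ∀ i, i ∉ C → cnt g C (lo g i) < cnt g C (hi g i)) (i j : Fin n) (hi' : i ∉ C)
    (hj' : j ∉ C) (hx : cnt g C (lo g i) = cnt g C (lo g j))
    (hy : cnt g C (hi g i) = cnt g C (hi g j)) : Quot.mk (Bigon g) i = Quot.mk (Bigon g) j := by
  rcases lt_trichotomy (lo g i) (lo g j) with h | h | h
  · exact same_class_aux g C hC hlt _ i j hi' hj' h hx hy le_rfl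
  · rw [lo_inj g h]
  · exact (same_class_aux g C hC hlt _ j i hj' hi' h hx.symm hy.symm le_rfl).symm

/-- the bound for the number of twist regions by a vertex cover -/
theorem twistRegions_le (g : Code n) (hg : Reduced g) (C : Finset (Fin n))
    (hC : ∀ i, i ∉ C → ∀ j, j ∉ C → ¬ Interlaced g i j) :
    twistRegions g ≤ C.card + 2 * (2 * C.card) := by
  classical
  have hlt : ∀ i, i ∉ C → cnt g C (lo g i) < cnt g C (hi g i) := by
    intro i hi'
    obtain ⟨j, hj⟩ := hg i
    have hjC : j ∈ C := by
      by_contra hjC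
      exact hC i hi' j hjC hj
    rcases hj with ⟨h1, h2, h3⟩ | ⟨h1, h2, h3⟩
    · exact cnt_lt g C h1.le h2 (by rw [symm_lo]; exact hjC)
    · exact cnt_lt g C h2.le h3 (by rw [symm_hi]; exact hjC)
  let ty : Fin n → ℕ × ℕ := fun i => (cnt g C (lo g i), cnt g C (hi g i))
  let F : Fin n → Fin n ⊕ (ℕ × ℕ) := fun i => if i ∈ C then Sum.inl i else Sum.inr (ty i)
  let S : Finset (Fin n ⊕ (ℕ × ℕ)) := univ.image F
  let T : Finset (ℕ × ℕ) := (univ.filter fun i => i ∉ C).image ty
  have hT : T.card ≤ 2 * (2 * C.card) := by
    apply noncrossing_card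
    · intro t ht
      obtain ⟨i, hi', rfl⟩ := mem_image.1 ht
      have hi'' := (mem_filter.1 hi').2
      exact ⟨hlt i hi'', cnt_le g C _⟩
    · intro s hs t ht
      obtain ⟨i, hi', rfl⟩ := mem_image.1 hs
      obtain ⟨j, hj', rfl⟩ := mem_image.1 ht
      have hi'' := (mem_filter.1 hi').2
      have hj'' := (mem_filter.1 hj').2
      rintro ⟨h1, h2, h3⟩
      have m1 : ∀ a b : Fin (2 * n), cnt g C a < cnt g C b → a < b := by
        intro a b hab
        by_contra hcon
        have := cnt_mono g C (not_lt.1 hcon)
        omega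
      exact hC i hi'' j hj'' (Or.inl ⟨m1 _ _ h1, m1 _ _ h2, m1 _ _ h3⟩)
  have hS : S.card ≤ C.card + T.card := by
    have hsub : S ⊆ C.image Sum.inl ∪ T.image Sum.inr := by
      intro x hx
      obtain ⟨i, _, rfl⟩ := mem_image.1 hx
      by_cases hi' : i ∈ C
      · simp only [F, hi', if_true, mem_union, mem_image]
        exact Or.inl ⟨i, hi', rfl⟩
      · simp only [F, hi', if_false, mem_union, mem_image]
        refine Or.inr ⟨ty i, ?_, rfl⟩
        exact mem_image.2 ⟨i, mem_filter.2 ⟨mem_univ _, hi'⟩, rfl⟩
    calc S.card ≤ (C.image Sum.inl ∪ T.image Sum.inr : Finset (Fin n ⊕ (ℕ × ℕ))).card :=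
          card_le_card hsub
      _ ≤ (C.image Sum.inl : Finset (Fin n ⊕ (ℕ × ℕ))).card +
          (T.image Sum.inr : Finset (Fin n ⊕ (ℕ × ℕ))).card := card_union_le _ _
      _ ≤ C.card + T.card := add_le_add card_image_le card_image_le
  have hF : ∀ i j, F i = F j → Quot.mk (Bigon g) i = Quot.mk (Bigon g) j := by
    intro i j hij
    by_cases hi' : i ∈ C <;> by_cases hj' : j ∈ C
    · simp only [F, hi', hj', if_true, Sum.inl.injEq] at hij
      rw [hij]
    · simp [F, hi', hj'] at hij
    · simp [F, hi', hj'] at hij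
    · simp only [F, hi', hj', if_false, Sum.inr.injEq, ty, Prod.mk.injEq] at hij
      exact same_class g C hC hlt i j hi' hj' hij.1 hij.2
  have hcard : twistRegions g ≤ S.card := by
    unfold twistRegions
    have hsurj : Function.Surjective (fun s : S =>
        Quot.mk (Bigon g) (Classical.choose (mem_image.1 s.2))) := by
      intro q
      obtain ⟨i, rfl⟩ := Quot.exists_rep q
      refine ⟨⟨F i, mem_image.2 ⟨i, mem_univ _, rfl⟩⟩, ?_⟩
      exact hF _ _ (Classical.choose_spec (mem_image.1
        (mem_image.2 ⟨i, mem_univ _, rfl⟩ : F i ∈ univ.image F))).2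
    have h := Nat.card_le_card_of_surjective _ hsurj
    simpa using h
  omega

/-- a maximal matching: the other crossings are pairwise not interlaced -/
theorem exists_maximal (g : Code n) :
    ∃ (m : ℕ) (u w : Fin m → Fin n), Matching g u w ∧
      (univ.image (Sum.elim u w)).card ≤ 2 * m ∧
      ∀ i, i ∉ univ.image (Sum.elim u w) → ∀ j, j ∉ univ.image (Sum.elim u w) →
        ¬ Interlaced g i j := by
  classical
  let P : ℕ → Prop := fun m => ∃ u w : Fin m → Fin n, Matching g u w
  have hP0 : P 0 := ⟨Fin.elim0, Fin.elim0, by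
    intro a; rcases a with a | a <;> exact a.elim0, fun k => k.elim0⟩
  have hPn : ∀ m, P m → m ≤ n := by
    rintro m ⟨u, w, hinj, _⟩
    have := Fintype.card_le_of_injective _ hinj
    simp only [Fintype.card_sum, Fintype.card_fin] at this
    omega
  set m := Nat.findGreatest P n with hm
  have hPm : P m := Nat.findGreatest_spec (Nat.zero_le n) hP0
  obtain ⟨u, w, hinj, hint⟩ := hPm
  let C : Finset (Fin n) := univ.image (Sum.elim u w)
  have hCc : C.card ≤ 2 * m := by
    calc C.card ≤ (univ : Finset (Fin m ⊕ Fin m)).card := card_image_le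
      _ = 2 * m := by simp [two_mul]
  have hC : ∀ i, i ∉ C → ∀ j, j ∉ C → ¬ Interlaced g i j := by
    intro i hi' j hj' hij
    have hne : i ≠ j := by
      rintro rfl
      unfold Interlaced at hij; simp at hij
    have hP1 : P (m + 1) := by
      refine ⟨Fin.cons i u, Fin.cons j w, ?_, ?_⟩
      · have hiu : ∀ k, u k ≠ i := fun k h => hi' (mem_image.2 ⟨Sum.inl k, mem_univ _, h⟩)
        have hiw : ∀ k, w k ≠ i := fun k h => hi' (mem_image.2 ⟨Sum.inr k, mem_univ _, h⟩)
        have hju : ∀ k, u k ≠ j := fun k h => hj' (mem_image.2 ⟨Sum.inl k, mem_univ _, h⟩)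
        have hjw : ∀ k, w k ≠ j := fun k h => hj' (mem_image.2 ⟨Sum.inr k, mem_univ _, h⟩)
        have huu : ∀ k l, u k = u l → k = l := fun k l h => Sum.inl.inj (hinj h)
        have hww : ∀ k l, w k = w l → k = l := fun k l h => Sum.inr.inj (hinj h)
        have huw : ∀ k l, u k ≠ w l := fun k l h => by
          have := @hinj (Sum.inl k) (Sum.inr l) h
          simp at this
        intro a b hab
        rcases a with a | a <;> rcases b with b | b <;>
          simp only [Sum.elim_inl, Sum.elim_inr] at hab
        · refine congrArg Sum.inl ?_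
          revert hab
          refine Fin.cases ?_ (fun a => ?_) a <;> refine Fin.cases ?_ (fun b => ?_) b
          · intro _; rfl
          · intro h; simp only [Fin.cons_zero, Fin.cons_succ] at h; exact absurd h.symm (hiu b)
          · intro h; simp only [Fin.cons_zero, Fin.cons_succ] at h; exact absurd h (hiu a)
          · intro h; simp only [Fin.cons_succ] at h; rw [huu a b h]
        · exfalso
          revert hab
          refine Fin.cases ?_ (fun a => ?_) a <;> refine Fin.cases ?_ (fun b => ?_) b
          · intro h; exact hne h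
          · intro h; simp only [Fin.cons_zero, Fin.cons_succ] at h; exact hiw b h.symm
          · intro h; simp only [Fin.cons_zero, Fin.cons_succ] at h; exact hju a h
          · intro h; simp only [Fin.cons_succ] at h; exact huw a b h
        · exfalso
          revert hab
          refine Fin.cases ?_ (fun a => ?_) a <;> refine Fin.cases ?_ (fun b => ?_) b
          · intro h; exact hne h.symm
          · intro h; simp only [Fin.cons_zero, Fin.cons_succ] at h; exact hju b h.symm
          · intro h; simp only [Fin.cons_zero, Fin.cons_succ] at h; exact hiw a h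
          · intro h; simp only [Fin.cons_succ] at h; exact huw b a h.symm
        · refine congrArg Sum.inr ?_
          revert hab
          refine Fin.cases ?_ (fun a => ?_) a <;> refine Fin.cases ?_ (fun b => ?_) b
          · intro _; rfl
          · intro h; simp only [Fin.cons_zero, Fin.cons_succ] at h; exact absurd h.symm (hjw b)
          · intro h; simp only [Fin.cons_zero, Fin.cons_succ] at h; exact absurd h (hjw a)
          · intro h; simp only [Fin.cons_succ] at h; rw [hww a b h]
      · intro k
        refine Fin.cases ?_ (fun k => ?_) k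
        · simpa using hij
        · simpa using hint k
    have := Nat.le_findGreatest (hPn _ hP1) hP1
    omega
  exact ⟨m, u, w, ⟨hinj, hint⟩, hCc, hC⟩

/-- MODULE B -/
theorem exists_matching (g : Code n) (hg : Reduced g) :
    ∃ (m : ℕ) (u w : Fin m → Fin n), Matching g u w ∧ twistRegions g ≤ 10 * m := by
  obtain ⟨m, u, w, hM, hCc, hC⟩ := exists_maximal g
  refine ⟨m, u, w, hM, ?_⟩
  have := twistRegions_le g hg _ hC
  omega

end Pool.Agent.GaussJones
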