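import Pool.Agent.Helper96.GJ.Twist

/-! Module A2: the number of closed curves when at most two crossings are smoothed and all others
are transparent. -/

namespace Pool.Agent.GaussJones

open Finset

variable {n : ℕ}

/-- the place `m` modulo `2 * n` -/
def plc (hn : 0 < n) (m : ℕ) : Fin (2 * n) := ⟨m % (2 * n), Nat.mod_lt _ (by omega)⟩

theorem plc_val (hn : 0 < n) (p : Fin (2 * n)) : plc hn p.val = p :=
  Fin.ext (Nat.mod_eq_of_lt p.isLt)

theorem plc_add (hn : 0 < n) (m : ℕ) : plc hn (m + 2 * n) = plc hn m := by
  apply Fin.ext; simp [plc]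

theorem rotate_plc (hn : 0 < n) (m : ℕ) : finRotate (2 * n) (plc hn m) = plc hn (m + 1) := by
  obtain ⟨N, hN⟩ : ∃ N, 2 * n = N + 1 := ⟨2 * n - 1, by omega⟩
  have key : ∀ (M : ℕ) (h1 : m % M < M) (h2 : (m + 1) % M < M), M = N + 1 →
      finRotate M ⟨m % M, h1⟩ = ⟨(m + 1) % M, h2⟩ := by
    rintro M h1 h2 rfl
    by_cases hlast : m % (N + 1) = N
    · have e1 : (⟨m % (N + 1), h1⟩ : Fin (N + 1)) = Fin.last N := Fin.ext hlast
      rw [e1, finRotate_last]
      apply Fin.ext
      simp only [Fin.val_zero]
      rw [Nat.add_mod, hlast]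
      by_cases hN0 : N = 0
      · subst hN0; simp
      · rw [Nat.mod_eq_of_lt (by omega : 1 < N + 1)]; simp
    · apply Fin.ext
      rw [coe_finRotate_of_ne_last]
      · simp only
        rw [Nat.add_mod]
        by_cases hN0 : N = 0
        · subst hN0; simp at hlast; omega
        · rw [Nat.mod_eq_of_lt (by omega : 1 < N + 1), Nat.mod_eq_of_lt (a := m % (N + 1) + 1)]
          omega
      · intro h
        apply hlast
        have := congrArg Fin.val h
        simpa using this
  exact key _ _ _ hN

theorem inEdge_eq (hn : 0 < n) (g : Code n) (x : Fin n × Bool) :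
    inEdge g x = plc hn ((g x).val + 2 * n - 1) := by
  unfold inEdge
  rw [Equiv.symm_apply_eq, rotate_plc]
  have : (g x).val + 2 * n - 1 + 1 = (g x).val + 2 * n := by omega
  rw [this, plc_add, plc_val]

theorem inEdge_val (g : Code n) (x : Fin n × Bool) :
    ((g x).val = 0 ∧ (inEdge g x).val = 2 * n - 1) ∨
      (0 < (g x).val ∧ (inEdge g x).val = (g x).val - 1) := by
  have hn : 0 < n := by have := x.1.isLt; omega
  rw [inEdge_eq hn]
  simp only [plc]
  have := (g x).isLt
  rcases Nat.eq_zero_or_pos (g x).val with h | h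
  · left
    refine ⟨h, ?_⟩
    rw [h, Nat.mod_eq_of_lt] <;> omega
  · right
    refine ⟨h, ?_⟩
    have e : (g x).val + 2 * n - 1 = ((g x).val - 1) + 2 * n := by omega
    rw [e, Nat.add_mod_right, Nat.mod_eq_of_lt]
    omega

/-- the class of edge `m` modulo `2 * n` -/
def cl (hn : 0 < n) (g : Code n) (σ : Fin n → Sm) (m : ℕ) : Quot (Joined3 g σ) :=
  Quot.mk _ (plc hn m)

theorem cl_add (hn : 0 < n) (g : Code n) (σ : Fin n → Sm) (m : ℕ) :
    cl hn g σ (m + 2 * n) = cl hn g σ m := by
  unfold cl; rw [plc_add]

theorem cl_val (hn : 0 < n) (g : Code n) (σ : Fin n → Sm) (p : Fin (2 * n)) :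
    cl hn g σ p.val = Quot.mk _ p := by
  unfold cl; rw [plc_val]

theorem cl_step (hn : 0 < n) (g : Code n) (σ : Fin n → Sm) (m : ℕ)
    (h : σ (g.symm (plc hn (m + 1))).1 = Sm.tra) : cl hn g σ m = cl hn g σ (m + 1) := by
  apply Quot.sound
  refine ⟨(g.symm (plc hn (m + 1))).1, Or.inr (Or.inr ⟨h, ?_⟩)⟩
  have e1 : outEdge g (g.symm (plc hn (m + 1))) = plc hn (m + 1) := by simp [outEdge]
  have e2 : inEdge g (g.symm (plc hn (m + 1))) = plc hn m := by
    unfold inEdge
    rw [Equiv.symm_apply_eq, rotate_plc]; simp
  have e3 : g.symm (plc hn (m + 1)) =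
      ((g.symm (plc hn (m + 1))).1, (g.symm (plc hn (m + 1))).2) := rfl
  cases hb : (g.symm (plc hn (m + 1))).2
  · left; rw [← hb, ← e3]; exact ⟨e2.symm, e1.symm⟩
  · right; rw [← hb, ← e3]; exact ⟨e2.symm, e1.symm⟩

theorem cl_seg (hn : 0 < n) (g : Code n) (σ : Fin n → Sm) (u : ℕ) : ∀ (v : ℕ), u ≤ v →
    (∀ w, u < w → w ≤ v → σ (g.symm (plc hn w)).1 = Sm.tra) → cl hn g σ u = cl hn g σ v := by
  intro v huv
  induction v, huv using Nat.le_induction with
  | base => intro _; rfl
  | succ v huv ih =>
    intro h
    rw [ih (fun w h1 h2 => h w h1 (by omega))]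
    exact cl_step hn g σ v (h (v + 1) (by omega) le_rfl)

theorem cl_ori (hn : 0 < n) (g : Code n) (σ : Fin n → Sm) (i : Fin n) (h : σ i = Sm.ori) :
    cl hn g σ ((lo g i).val + 2 * n - 1) = cl hn g σ (hi g i).val ∧
    cl hn g σ ((hi g i).val - 1) = cl hn g σ (lo g i).val := by
  obtain ⟨a, h1, h2⟩ := exists_side g i
  have hlh : (lo g i).val < (hi g i).val := lo_lt_hi g i
  have e3 : cl hn g σ ((hi g i).val - 1) = cl hn g σ ((hi g i).val + 2 * n - 1) := by
    have : (hi g i).val + 2 * n - 1 = ((hi g i).val - 1) + 2 * n := by omega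
    rw [this, cl_add]
  rw [e3]
  have f1 : cl hn g σ ((lo g i).val + 2 * n - 1) = Quot.mk _ (inEdge g (i, a)) := by
    rw [inEdge_eq hn, h1]; rfl
  have f2 : cl hn g σ ((hi g i).val + 2 * n - 1) = Quot.mk _ (inEdge g (i, !a)) := by
    rw [inEdge_eq hn, h2]; rfl
  have f3 : cl hn g σ (hi g i).val = Quot.mk _ (outEdge g (i, !a)) := by
    rw [cl_val, ← h2]; rfl
  have f4 : cl hn g σ (lo g i).val = Quot.mk _ (outEdge g (i, a)) := by
    rw [cl_val, ← h1]; rfl
  rw [f1, f2, f3, f4]
  constructor
  · apply Quot.sound
    refine ⟨i, Or.inl ⟨h, ?_⟩⟩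
    cases a
    · left; exact ⟨rfl, rfl⟩
    · right; exact ⟨rfl, rfl⟩
  · apply Quot.sound
    refine ⟨i, Or.inl ⟨h, ?_⟩⟩
    cases a
    · right; exact ⟨rfl, rfl⟩
    · left; exact ⟨rfl, rfl⟩

theorem card_quot_of {α : Type} {r : α → α → Prop} {k : ℕ} (F : α → Fin k) (G : Fin k → Quot r)
    (h1 : ∀ p q, r p q → F p = F q) (h2 : ∀ c, ∃ p, F p = c)
    (h3 : ∀ p, Quot.mk r p = G (F p)) : Nat.card (Quot r) = k := by
  have hb : Function.Bijective (Quot.lift F h1) := by
    constructor
    · intro x y
      obtain ⟨p, rfl⟩ := Quot.exists_rep x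
      obtain ⟨q, rfl⟩ := Quot.exists_rep y
      intro h
      have h' : F p = F q := h
      rw [h3 p, h3 q, h']
    · intro c
      obtain ⟨p, hp⟩ := h2 c
      exact ⟨Quot.mk r p, hp⟩
  rw [Nat.card_congr (Equiv.ofBijective _ hb), Nat.card_eq_fintype_card, Fintype.card_fin]

/-- MODULE A2 (values with at most two smoothed crossings) -/
theorem loops3_tra (g : Code n) (hn : 0 < n) : loops3 g (fun _ => Sm.tra) = 1 := by
  unfold loops3
  refine card_quot_of (fun _ => (0 : Fin 1)) (fun _ => cl hn g _ 0) ?_ ?_ ?_
  · intro _ _ _; rfl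
  · intro c; exact ⟨plc hn 0, by omega⟩
  · intro p
    rw [← cl_val hn]
    exact (cl_seg hn g _ 0 p.val (Nat.zero_le _) (fun _ _ _ => rfl)).symm

/-- the place of `w` determines the crossing -/
theorem plc_crossing (hn : 0 < n) (g : Code n) (w : ℕ) (i : Fin n)
    (h : (g.symm (plc hn w)).1 = i) : w % (2 * n) = (lo g i).val ∨ w % (2 * n) = (hi g i).val := by
  have := place_eq g (plc hn w)
  rw [h] at this
  rcases this with h' | h'
  · left; exact congrArg Fin.val h'
  · right; exact congrArg Fin.val h'

theorem mod_cases (_ : 0 < n) (w : ℕ) (h : w < 4 * n) :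
    (w < 2 * n ∧ w % (2 * n) = w) ∨ (2 * n ≤ w ∧ w % (2 * n) = w - 2 * n) := by
  rcases Nat.lt_or_ge w (2 * n) with h' | h'
  · left; exact ⟨h', Nat.mod_eq_of_lt h'⟩
  · right
    refine ⟨h', ?_⟩
    rw [Nat.mod_eq_sub_mod h', Nat.mod_eq_of_lt (by omega)]

theorem ne_lo_hi (g : Code n) (x : Fin n × Bool) (i : Fin n) (h : x.1 ≠ i) :
    (g x).val ≠ (lo g i).val ∧ (g x).val ≠ (hi g i).val := by
  constructor
  · intro h'
    apply h
    have h'' : g x = lo g i := Fin.ext h'
    rw [← symm_lo g i, ← h'']; simp
  · intro h'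
    apply h
    have h'' : g x = hi g i := Fin.ext h'
    rw [← symm_hi g i, ← h'']; simp

/-- the two joins at an oriented crossing, as natural numbers -/
theorem ori_vals (g : Code n) (i : Fin n) (p q : Fin (2 * n))
    (h : (p = inEdge g (i, false) ∧ q = outEdge g (i, true)) ∨
      (p = inEdge g (i, true) ∧ q = outEdge g (i, false))) :
    (q.val = (hi g i).val ∧ (((lo g i).val = 0 ∧ p.val = 2 * n - 1) ∨
      (0 < (lo g i).val ∧ p.val = (lo g i).val - 1))) ∨
    (q.val = (lo g i).val ∧ p.val = (hi g i).val - 1) := by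
  have hlh : (lo g i).val < (hi g i).val := lo_lt_hi g i
  obtain ⟨a, ha1, ha2⟩ := exists_side g i
  rcases h with ⟨rfl, rfl⟩ | ⟨rfl, rfl⟩
  · have v := inEdge_val g (i, false)
    cases a
    · simp only [Bool.not_false] at ha2
      rw [ha1] at v
      left
      refine ⟨?_, v⟩
      unfold outEdge; rw [ha2]
    · simp only [Bool.not_true] at ha2
      rw [ha2] at v
      right
      refine ⟨?_, by omega⟩
      unfold outEdge; rw [ha1]
  · have v := inEdge_val g (i, true)
    cases a
    · simp only [Bool.not_false] at ha2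
      rw [ha2] at v
      right
      refine ⟨?_, by omega⟩
      unfold outEdge; rw [ha1]
    · simp only [Bool.not_true] at ha2
      rw [ha1] at v
      left
      refine ⟨?_, v⟩
      unfold outEdge; rw [ha2]

/-- the joins at a transparent crossing, as natural numbers -/
theorem tra_vals (g : Code n) (i : Fin n) (p q : Fin (2 * n))
    (h : (p = inEdge g (i, false) ∧ q = outEdge g (i, false)) ∨
      (p = inEdge g (i, true) ∧ q = outEdge g (i, true))) :
    (∃ b, q = g (i, b)) ∧ ((q.val = 0 ∧ p.val = 2 * n - 1) ∨ (0 < q.val ∧ p.val = q.val - 1)) := by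
  rcases h with ⟨rfl, rfl⟩ | ⟨rfl, rfl⟩
  · exact ⟨⟨false, rfl⟩, inEdge_val g (i, false)⟩
  · exact ⟨⟨true, rfl⟩, inEdge_val g (i, true)⟩

theorem loops3_ori (g : Code n) (i : Fin n) :
    loops3 g (Function.update (fun _ => Sm.tra) i Sm.ori) = 2 := by
  have hn : 0 < n := by have := i.isLt; omega
  set σ := Function.update (fun _ => Sm.tra) i Sm.ori with hσ
  have hσi : σ i = Sm.ori := by simp [hσ]
  have hσj : ∀ j, j ≠ i → σ j = Sm.tra := by intro j hj; simp [hσ, hj]
  have hlh : (lo g i).val < (hi g i).val := lo_lt_hi g i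
  have hhi := (hi g i).isLt
  have htra : ∀ w, w < 4 * n → (w < 2 * n → w ≠ (lo g i).val ∧ w ≠ (hi g i).val) →
      (2 * n ≤ w → w - 2 * n ≠ (lo g i).val ∧ w - 2 * n ≠ (hi g i).val) →
      σ (g.symm (plc hn w)).1 = Sm.tra := by
    intro w hw h1 h2
    apply hσj
    intro h
    have := plc_crossing hn g w i h
    have := mod_cases hn w hw
    omega
  obtain ⟨o1, o2⟩ := cl_ori hn g σ i hσi
  unfold loops3
  refine card_quot_of
    (fun p => if (lo g i).val ≤ p.val ∧ p.val < (hi g i).val then (1 : Fin 2) else 0)
    (fun c => if c = 1 then cl hn g σ (lo g i).val else cl hn g σ (hi g i).val) ?_ ?_ ?_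
  · rintro p q ⟨j, h | h | h⟩
    · obtain ⟨hj, h⟩ := h
      have hji : j = i := by
        by_contra hne
        rw [hσj j hne] at hj
        exact absurd hj (by decide)
      subst hji
      have v := ori_vals g j p q h
      have hq := q.isLt
      split_ifs <;> first | rfl | omega
    · exfalso
      obtain ⟨hj, _⟩ := h
      by_cases hji : j = i
      · rw [hji, hσi] at hj; exact absurd hj (by decide)
      · rw [hσj j hji] at hj; exact absurd hj (by decide)
    · obtain ⟨hj, h⟩ := h
      have hji : j ≠ i := by
        rintro rfl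
        rw [hσi] at hj
        exact absurd hj (by decide)
      obtain ⟨⟨b, hb⟩, v⟩ := tra_vals g j p q h
      have hne := ne_lo_hi g (j, b) i hji
      rw [← hb] at hne
      have hq := q.isLt
      split_ifs <;> first | rfl | omega
  · intro c
    fin_cases c
    · exact ⟨hi g i, by simp⟩
    · exact ⟨lo g i, by simp [lo_lt_hi]⟩
  · intro p
    have hp := p.isLt
    rw [← cl_val hn]
    by_cases h1 : (lo g i).val ≤ p.val ∧ p.val < (hi g i).val
    · simp only [h1, and_self, if_true]
      exact (cl_seg hn g σ _ _ h1.1 (fun w hw1 hw2 => htra w (by omega) (by omega) (by omega))).symm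
    · simp only [h1, if_false]
      by_cases h2 : (hi g i).val ≤ p.val
      · exact (cl_seg hn g σ _ _ h2 (fun w hw1 hw2 => htra w (by omega) (by omega) (by omega))).symm
      · have e := cl_seg hn g σ (hi g i).val (p.val + 2 * n) (by omega)
          (fun w hw1 hw2 => htra w (by omega) (by omega) (by omega))
        rw [cl_add] at e
        exact e.symm

theorem loops3_ori_ori_aux (g : Code n) (i j : Fin n) (hij : i ≠ j) (hlo : lo g i < lo g j) :
    (Interlaced g i j →
      loops3 g (Function.update (Function.update (fun _ => Sm.tra) i Sm.ori) j Sm.ori) = 1) ∧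
    (¬ Interlaced g i j →
      loops3 g (Function.update (Function.update (fun _ => Sm.tra) i Sm.ori) j Sm.ori) = 3) := by
  have hn : 0 < n := by have := i.isLt; omega
  set σ := Function.update (Function.update (fun _ => Sm.tra) i Sm.ori) j Sm.ori with hσ
  have hσi : σ i = Sm.ori := by simp [hσ, hij]
  have hσj : σ j = Sm.ori := by simp [hσ]
  have hσk : ∀ k, k ≠ i → k ≠ j → σ k = Sm.tra := by
    intro k hi' hj'; simp [hσ, hi', hj']
  have hlo' : (lo g i).val < (lo g j).val := hlo
  have hi1 : (lo g i).val < (hi g i).val := lo_lt_hi g i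
  have hj1 : (lo g j).val < (hi g j).val := lo_lt_hi g j
  have hhi := (hi g i).isLt
  have hhj := (hi g j).isLt
  have hne1 : (lo g j).val ≠ (hi g i).val := fun h => lo_ne_hi g j i (Fin.ext h)
  have hne2 : (hi g j).val ≠ (hi g i).val := fun h => hij (hi_inj g (Fin.ext h)).symm
  have hint : Interlaced g i j ↔ ((lo g j).val < (hi g i).val ∧ (hi g i).val < (hi g j).val) := by
    unfold Interlaced
    simp only [Fin.lt_def]
    omega
  have htra : ∀ w, w < 4 * n → (w < 2 * n → w ≠ (lo g i).val ∧ w ≠ (hi g i).val ∧
      w ≠ (lo g j).val ∧ w ≠ (hi g j).val) →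
      (2 * n ≤ w → w - 2 * n ≠ (lo g i).val ∧ w - 2 * n ≠ (hi g i).val ∧
      w - 2 * n ≠ (lo g j).val ∧ w - 2 * n ≠ (hi g j).val) →
      σ (g.symm (plc hn w)).1 = Sm.tra := by
    intro w hw h1 h2
    have hm := mod_cases hn w hw
    apply hσk
    · intro h
      have := plc_crossing hn g w i h
      omega
    · intro h
      have := plc_crossing hn g w j h
      omega
  obtain ⟨o1, o2⟩ := cl_ori hn g σ i hσi
  obtain ⟨o3, o4⟩ := cl_ori hn g σ j hσj
  -- invariance of a function of the place
  have hinv : ∀ (k : ℕ) (F : ℕ → Fin k),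
      (∀ w, w < 2 * n → w ≠ (lo g i).val → w ≠ (hi g i).val → w ≠ (lo g j).val →
        w ≠ (hi g j).val → 0 < w → F (w - 1) = F w) →
      (0 < (lo g i).val → F (2 * n - 1) = F 0) →
      F (if (lo g i).val = 0 then 2 * n - 1 else (lo g i).val - 1) = F (hi g i).val →
      F ((hi g i).val - 1) = F (lo g i).val →
      F ((lo g j).val - 1) = F (hi g j).val →
      F ((hi g j).val - 1) = F (lo g j).val →
      ∀ p q : Fin (2 * n), Joined3 g σ p q → F p.val = F q.val := by
    intro k F f1 f2 f3 f4 f5 f6
    rintro p q ⟨l, h | h | h⟩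
    · obtain ⟨hl, h⟩ := h
      have v := ori_vals g l p q h
      by_cases hli : l = i
      · rw [hli] at v
        rcases v with ⟨v1, v2⟩ | ⟨v1, v2⟩
        · rw [v1, ← f3]
          congr 1
          split_ifs <;> omega
        · rw [v1, v2, f4]
      · by_cases hlj : l = j
        · rw [hlj] at v
          rcases v with ⟨v1, v2⟩ | ⟨v1, v2⟩
          · rw [v1, ← f5]
            congr 1
            omega
          · rw [v1, v2, f6]
        · rw [hσk l hli hlj] at hl
          exact absurd hl (by decide)
    · exfalso
      obtain ⟨hl, _⟩ := h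
      by_cases hli : l = i
      · rw [hli, hσi] at hl; exact absurd hl (by decide)
      · by_cases hlj : l = j
        · rw [hlj, hσj] at hl; exact absurd hl (by decide)
        · rw [hσk l hli hlj] at hl; exact absurd hl (by decide)
    · obtain ⟨hl, h⟩ := h
      have hli : l ≠ i := by
        rintro rfl
        rw [hσi] at hl
        exact absurd hl (by decide)
      have hlj : l ≠ j := by
        rintro rfl
        rw [hσj] at hl
        exact absurd hl (by decide)
      obtain ⟨⟨b, hb⟩, v⟩ := tra_vals g l p q h
      have hnei := ne_lo_hi g (l, b) i hli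
      have hnej := ne_lo_hi g (l, b) j hlj
      rw [← hb] at hnei hnej
      have hq := q.isLt
      rcases v with ⟨v1, v2⟩ | ⟨v1, v2⟩
      · rw [v1, v2]; exact f2 (by omega)
      · rw [v2]; exact f1 _ hq hnei.1 hnei.2 hnej.1 hnej.2 v1
  -- classes of the arcs
  have seg : ∀ u v, u ≤ v → v < 4 * n → (∀ w, u < w → w ≤ v →
      (w ≠ (lo g i).val ∧ w ≠ (hi g i).val ∧ w ≠ (lo g j).val ∧ w ≠ (hi g j).val) ∧
      (w ≠ (lo g i).val + 2 * n ∧ w ≠ (hi g i).val + 2 * n ∧ w ≠ (lo g j).val + 2 * n ∧
        w ≠ (hi g j).val + 2 * n)) → cl hn g σ u = cl hn g σ v := by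
    intro u v huv hv h
    apply cl_seg hn g σ u v huv
    intro w hw1 hw2
    have := h w hw1 hw2
    exact htra w (by omega) (by omega) (by omega)
  constructor
  · intro h
    rw [hint] at h
    -- a = lo i < b = lo j < c = hi i < d = hi j
    have s1 := seg (lo g i).val ((lo g j).val - 1) (by omega) (by omega) (by intro w _ _; omega)
    have s2 := seg (lo g j).val ((hi g i).val - 1) (by omega) (by omega) (by intro w _ _; omega)
    have s3 := seg (hi g i).val ((hi g j).val - 1) (by omega) (by omega) (by intro w _ _; omega)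
    have s4 := seg (hi g j).val ((lo g i).val + 2 * n - 1) (by omega) (by omega)
      (by intro w _ _; omega)
    have e3 : cl hn g σ ((lo g j).val - 1) = cl hn g σ ((lo g j).val + 2 * n - 1) := by
      have : (lo g j).val + 2 * n - 1 = ((lo g j).val - 1) + 2 * n := by omega
      rw [this, cl_add]
    have t1 : cl hn g σ (lo g i).val = cl hn g σ (hi g j).val := by rw [s1, e3, o3]
    have t2 : cl hn g σ (lo g j).val = cl hn g σ (hi g j).val := by rw [s2, o2, t1]
    have t3 : cl hn g σ (hi g i).val = cl hn g σ (hi g j).val := by rw [s3, o4, t2]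
    unfold loops3
    refine card_quot_of (fun _ => (0 : Fin 1)) (fun _ => cl hn g σ (hi g j).val) ?_ ?_ ?_
    · intro _ _ _; rfl
    · intro c; exact ⟨plc hn 0, by omega⟩
    · intro p
      have hp := p.isLt
      rw [← cl_val hn]
      rcases lt_or_ge p.val (lo g i).val with h1 | h1
      · have e := seg (hi g j).val (p.val + 2 * n) (by omega) (by omega) (by intro w _ _; omega)
        rw [e, cl_add]
      rcases lt_or_ge p.val (lo g j).val with h2 | h2
      · rw [← t1]
        exact (seg _ _ h1 (by omega) (by intro w _ _; omega)).symm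
      rcases lt_or_ge p.val (hi g i).val with h3 | h3
      · rw [← t2]
        exact (seg _ _ h2 (by omega) (by intro w _ _; omega)).symm
      rcases lt_or_ge p.val (hi g j).val with h4 | h4
      · rw [← t3]
        exact (seg _ _ h3 (by omega) (by intro w _ _; omega)).symm
      · exact (seg _ _ h4 (by omega) (by intro w _ _; omega)).symm
  · intro h
    rw [hint] at h
    rcases lt_or_ge (lo g j).val (hi g i).val with hnest | hdisj
    · -- nested: lo i < lo j < hi j < hi i
      have hh : (hi g j).val < (hi g i).val := by omega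
      unfold loops3
      refine card_quot_of
        (fun p => (fun m : ℕ => if m < (lo g i).val ∨ (hi g i).val ≤ m then (0 : Fin 3) else
          if (lo g j).val ≤ m ∧ m < (hi g j).val then 2 else 1) p.val)
        (fun c => if c = 0 then cl hn g σ (hi g i).val else if c = 2 then cl hn g σ (lo g j).val
          else cl hn g σ (lo g i).val) ?_ ?_ ?_
      · refine hinv 3 (fun m : ℕ => if m < (lo g i).val ∨ (hi g i).val ≤ m then (0 : Fin 3) else
          if (lo g j).val ≤ m ∧ m < (hi g j).val then 2 else 1) ?_ ?_ ?_ ?_ ?_ ?_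
        all_goals (intros; split_ifs <;> first | rfl | omega)
      · intro c
        fin_cases c
        · exact ⟨hi g i, by simp⟩
        · refine ⟨lo g i, ?_⟩
          have h1 : ¬ ((lo g i).val < (lo g i).val ∨ (hi g i).val ≤ (lo g i).val) := by omega
          have h2 : ¬ ((lo g j).val ≤ (lo g i).val ∧ (lo g i).val < (hi g j).val) := by omega
          simp only [h1, h2, if_false]
          rfl
        · refine ⟨lo g j, ?_⟩
          have h1 : ¬ ((lo g j).val < (lo g i).val ∨ (hi g i).val ≤ (lo g j).val) := by omega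
          have h2 : ((lo g j).val ≤ (lo g j).val ∧ (lo g j).val < (hi g j).val) := by omega
          simp only [h1, h2, if_false]
          simp
      · intro p
        have hp := p.isLt
        rw [← cl_val hn]
        by_cases h1 : p.val < (lo g i).val ∨ (hi g i).val ≤ p.val
        · simp only [h1, if_true]
          rcases h1 with h1 | h1
          · have e := seg (hi g i).val (p.val + 2 * n) (by omega) (by omega)
              (by intro w _ _; omega)
            rw [e, cl_add]
          · exact (seg _ _ h1 (by omega) (by intro w _ _; omega)).symm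
        · by_cases h2 : (lo g j).val ≤ p.val ∧ p.val < (hi g j).val
          · simp only [h1, h2, and_self, if_true, if_false]
            rw [if_neg (by decide)]
            exact (seg _ _ h2.1 (by omega) (by intro w _ _; omega)).symm
          · simp only [h1, h2, if_false]
            rw [if_neg (by decide), if_neg (by decide)]
            rcases lt_or_ge p.val (lo g j).val with h3 | h3
            · exact (seg _ _ (by omega) (by omega) (by intro w _ _; omega)).symm
            · have e1 := seg (hi g j).val p.val (by omega) (by omega) (by intro w _ _; omega)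
              have e2 := seg (lo g i).val ((lo g j).val - 1) (by omega) (by omega)
                (by intro w _ _; omega)
              have e3 : cl hn g σ ((lo g j).val - 1) = cl hn g σ ((lo g j).val + 2 * n - 1) := by
                have : (lo g j).val + 2 * n - 1 = ((lo g j).val - 1) + 2 * n := by omega
                rw [this, cl_add]
              rw [← e1, e2, e3, o3]
    · -- disjoint: lo i < hi i < lo j < hi j
      unfold loops3
      refine card_quot_of
        (fun p => (fun m : ℕ => if (lo g i).val ≤ m ∧ m < (hi g i).val then (1 : Fin 3) else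
          if (lo g j).val ≤ m ∧ m < (hi g j).val then 2 else 0) p.val)
        (fun c => if c = 1 then cl hn g σ (lo g i).val else if c = 2 then cl hn g σ (lo g j).val
          else cl hn g σ (hi g i).val) ?_ ?_ ?_
      · refine hinv 3 (fun m : ℕ => if (lo g i).val ≤ m ∧ m < (hi g i).val then (1 : Fin 3) else
          if (lo g j).val ≤ m ∧ m < (hi g j).val then 2 else 0) ?_ ?_ ?_ ?_ ?_ ?_
        all_goals (intros; split_ifs <;> first | rfl | omega)
      · intro c
        fin_cases c
        · refine ⟨hi g i, ?_⟩
          have h1 : ¬ ((lo g i).val ≤ (hi g i).val ∧ (hi g i).val < (hi g i).val) := by omega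
          have h2 : ¬ ((lo g j).val ≤ (hi g i).val ∧ (hi g i).val < (hi g j).val) := by omega
          simp only [h1, h2, if_false]
          rfl
        · refine ⟨lo g i, ?_⟩
          have h1 : ((lo g i).val ≤ (lo g i).val ∧ (lo g i).val < (hi g i).val) := by omega
          simp only [h1, if_true]
          simp
        · refine ⟨lo g j, ?_⟩
          have h1 : ¬ ((lo g i).val ≤ (lo g j).val ∧ (lo g j).val < (hi g i).val) := by omega
          have h2 : ((lo g j).val ≤ (lo g j).val ∧ (lo g j).val < (hi g j).val) := by omega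
          simp only [h1, h2, if_false]
          simp
      · intro p
        have hp := p.isLt
        rw [← cl_val hn]
        by_cases h1 : (lo g i).val ≤ p.val ∧ p.val < (hi g i).val
        · simp only [h1, and_self, if_true]
          exact (seg _ _ h1.1 (by omega) (by intro w _ _; omega)).symm
        · by_cases h2 : (lo g j).val ≤ p.val ∧ p.val < (hi g j).val
          · simp only [h1, h2, and_self, if_true, if_false]
            rw [if_neg (by decide)]
            exact (seg _ _ h2.1 (by omega) (by intro w _ _; omega)).symm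
          · simp only [h1, h2, if_false]
            rw [if_neg (by decide), if_neg (by decide)]
            -- the class of the outer arcs
            have e1 := seg (hi g i).val ((lo g j).val - 1) (by omega) (by omega)
              (by intro w _ _; omega)
            have e3 : cl hn g σ ((lo g j).val - 1) = cl hn g σ ((lo g j).val + 2 * n - 1) := by
              have : (lo g j).val + 2 * n - 1 = ((lo g j).val - 1) + 2 * n := by omega
              rw [this, cl_add]
            have e4 : cl hn g σ (hi g i).val = cl hn g σ (hi g j).val := by rw [e1, e3, o3]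
            rcases lt_or_ge p.val (lo g i).val with h3 | h3
            · have e := seg (hi g j).val (p.val + 2 * n) (by omega) (by omega)
                (by intro w _ _; omega)
              rw [e4, e, cl_add]
            rcases lt_or_ge p.val (lo g j).val with h4 | h4
            · exact (seg _ _ (by omega) (by omega) (by intro w _ _; omega)).symm
            · rw [e4]
              exact (seg _ _ (by omega) (by omega) (by intro w _ _; omega)).symm

theorem loops3_ori_ori (g : Code n) (i j : Fin n) (hij : i ≠ j) :
    (Interlaced g i j →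
      loops3 g (Function.update (Function.update (fun _ => Sm.tra) i Sm.ori) j Sm.ori) = 1) ∧
    (¬ Interlaced g i j →
      loops3 g (Function.update (Function.update (fun _ => Sm.tra) i Sm.ori) j Sm.ori) = 3) := by
  rcases lt_trichotomy (lo g i) (lo g j) with h | h | h
  · exact loops3_ori_ori_aux g i j hij h
  · exact absurd (lo_inj g h) hij
  · have hs : Interlaced g i j ↔ Interlaced g j i := by unfold Interlaced; tauto
    rw [hs, Function.update_comm hij]
    exact loops3_ori_ori_aux g j i hij.symm h

end Pool.Agent.GaussJones
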