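import Pool.Agent.Helper96.GJ.Second
import Pool.Agent.Helper96.GJ.Values
import Pool.Agent.Helper96.GJ.Twist
import Pool.Agent.Helper96.GJ.QuadLO

/-! Assembly. -/

namespace Pool.Agent.GaussJones

open Finset LaurentPolynomial

variable {n : ℕ}

theorem loops3_pos (g : Code n) (hn : 0 < n) (σ : Fin n → Sm) : 1 ≤ loops3 g σ := by
  unfold loops3
  have : Nonempty (Quot (Joined3 g σ)) := ⟨Quot.mk _ ⟨0, by omega⟩⟩
  exact Nat.card_pos

theorem update_tra (i : Fin n) :
    Function.update (fun _ : Fin n => Sm.tra) i Sm.tra = fun _ => Sm.tra :=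
  Function.update_eq_self i _

theorem update_comm' {i j : Fin n} (hij : i ≠ j) (a b : Sm) :
    Function.update (Function.update (fun _ : Fin n => Sm.tra) i a) j b =
      Function.update (Function.update (fun _ : Fin n => Sm.tra) j b) i a :=
  Function.update_comm hij _ _ _

theorem V_eq (g : Code n) (i j : Fin n) (hij : i ≠ j) :
    (Interlaced g i j → V g i j = 6) ∧ (¬ Interlaced g i j → V g i j = 0) := by
  have hn : 0 < n := lt_of_le_of_lt (Nat.zero_le _) i.2
  set t : Fin n → Sm := fun _ => Sm.tra with ht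
  have h0 : loops3 g t = 1 := loops3_tra g hn
  have hoi : loops3 g (Function.update t i Sm.ori) = 2 := loops3_ori g i
  have hoj : loops3 g (Function.update t j Sm.ori) = 2 := loops3_ori g j
  -- one crossing
  have d1 : ∀ k : Fin n, (-2 : ℤ) ^ loops3 g (Function.update t k Sm.dis) = -2 := by
    intro k
    have h := three_term g t k
    rw [update_tra k, h0, loops3_ori g k] at h
    linarith
  -- i oriented, j varies
  have e1 := three_term g (Function.update t i Sm.ori) j
  have e1' : Function.update (Function.update t i Sm.ori) j Sm.tra =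
      Function.update t i Sm.ori := by
    rw [update_comm' hij, update_tra]
  rw [e1', hoi] at e1
  -- i disoriented, j varies
  have e2 := three_term g (Function.update t i Sm.dis) j
  have e2' : Function.update (Function.update t i Sm.dis) j Sm.tra =
      Function.update t i Sm.dis := by
    rw [update_comm' hij, update_tra]
  rw [e2', d1 i] at e2
  -- j oriented, i varies
  have e3 := three_term g (Function.update t j Sm.ori) i
  have e3' : Function.update (Function.update t j Sm.ori) i Sm.tra =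
      Function.update t j Sm.ori := by
    rw [update_comm' hij.symm, update_tra]
  rw [e3', hoj, update_comm' hij.symm, update_comm' hij.symm] at e3
  have hV : V g i j = (-2) ^ loops3 g (Function.update (Function.update t i Sm.ori) j Sm.ori) +
      2 * (-2) ^ loops3 g (Function.update (Function.update t i Sm.ori) j Sm.dis) +
      2 * (-2) ^ loops3 g (Function.update (Function.update t i Sm.dis) j Sm.ori) +
      4 * (-2) ^ loops3 g (Function.update (Function.update t i Sm.dis) j Sm.dis) := by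
    simp only [V, Fintype.sum_bool, toSm, cc, if_true, Bool.false_eq_true, if_false]
    ring
  rw [hV]
  constructor
  · intro hI
    rw [(loops3_ori_ori g i j hij).1 hI] at e1 e3 ⊢
    linarith
  · intro hI
    rw [(loops3_ori_ori g i j hij).2 hI] at e1 e3 ⊢
    linarith

theorem exists_const (g : Code n) (P : ℤ[T;T⁻¹]) :
    ∃ c : ℤ, ∀ e : Fin n → Bool, fPoly g e = P → Qf g e = c := by
  rcases Nat.eq_zero_or_pos n with hn | hn
  · subst hn
    exact ⟨0, fun e _ => by simp [Qf]⟩
  · obtain ⟨K, hK⟩ := M2_eq g hn (V_eq g)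
    refine ⟨(K - 2 * M2 P) / 24, fun e he => ?_⟩
    have h := hK e
    rw [he] at h
    have : K - 2 * M2 P = 24 * Qf g e := by linarith
    rw [this]
    exact (Int.mul_ediv_cancel_left _ (by norm_num)).symm

theorem interlaced_symm (g : Code n) {i j : Fin n} (h : Interlaced g i j) : Interlaced g j i := by
  unfold Interlaced at *; tauto

theorem bound_anti {a b : ℕ} (ha : 0 < a) (hab : a ≤ b) :
    (1 + Real.log b) / b ≤ (1 + Real.log a) / a := by
  have ha' : (0:ℝ) < a := by exact_mod_cast ha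
  have hab' : (a:ℝ) ≤ b := by exact_mod_cast hab
  have hb' : (0:ℝ) < b := by linarith
  rw [div_le_div_iff₀ hb' ha']
  have h1 : Real.log b - Real.log a ≤ b / a - 1 := by
    rw [← Real.log_div hb'.ne' ha'.ne']
    exact Real.log_le_sub_one_of_pos (by positivity)
  have h2 : 0 ≤ Real.log a := Real.log_nonneg (by exact_mod_cast ha)
  have h3 : ((b:ℝ) / a - 1) * a = b - a := by field_simp
  nlinarith

theorem card_agree (S : Finset (Fin n)) (e : Fin n → Bool) :
    (univ.filter fun e₁ : Fin n → Bool => ∀ i ∉ S, e₁ i = e i).card = 2 ^ S.card := by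
  classical
  have h : (univ.filter fun e₁ : Fin n → Bool => ∀ i ∉ S, e₁ i = e i) =
      Fintype.piFinset (fun i => if i ∈ S then (univ : Finset Bool) else {e i}) := by
    ext e₁
    simp only [Finset.mem_filter, Finset.mem_univ, true_and, Fintype.mem_piFinset]
    constructor
    · intro h i
      by_cases hi : i ∈ S
      · simp [hi]
      · simp [hi, h i hi]
    · intro h i hi
      have := h i
      simpa [hi] using this
  rw [h, Fintype.card_piFinset]
  have h2 : ∀ i, (if i ∈ S then (univ : Finset Bool) else {e i}).card =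
      if i ∈ S then 2 else 1 := by
    intro i
    by_cases hi : i ∈ S <;> simp [hi]
  simp only [h2, Finset.prod_ite_mem, Finset.univ_inter, Finset.prod_const]

/-- averaging: from the changes in `S` to the changes in a larger set `S'` -/
theorem average (F : (Fin n → Bool) → Prop) (S S' : Finset (Fin n)) (hS : S ⊆ S') (B : ℝ)
    (hB : ∀ e₀ : Fin n → Bool, (Nat.card {e : Fin n → Bool // (∀ i ∉ S, e i = e₀ i) ∧ F e} : ℝ) ≤
      B * 2 ^ S.card) (e₀ : Fin n → Bool) :
    (Nat.card {e : Fin n → Bool // (∀ i ∉ S', e i = e₀ i) ∧ F e} : ℝ) ≤ B * 2 ^ S'.card := by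
  classical
  have h1 : ∑ e₁ ∈ univ.filter (fun e₁ : Fin n → Bool => ∀ i ∉ S', e₁ i = e₀ i),
      ((univ.filter fun e : Fin n → Bool => (∀ i ∉ S, e i = e₁ i) ∧ F e).card : ℝ) ≤
      2 ^ S'.card * (B * 2 ^ S.card) := by
    calc _ ≤ ∑ _e₁ ∈ univ.filter (fun e₁ : Fin n → Bool => ∀ i ∉ S', e₁ i = e₀ i),
          B * 2 ^ S.card := by
          apply Finset.sum_le_sum
          intro e₁ _
          refine le_trans (le_of_eq ?_) (hB e₁)
          rw [Nat.card_eq_fintype_card, Fintype.card_subtype]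
      _ = _ := by
          rw [Finset.sum_const, card_agree, nsmul_eq_mul]
          push_cast
          ring
  set R := univ.filter (fun e : Fin n → Bool => (∀ i ∉ S', e i = e₀ i) ∧ F e) with hR
  have h2 : ∑ e ∈ R, ((univ.filter fun e₁ : Fin n → Bool => ∀ i ∉ S, e₁ i = e i).card : ℝ) ≤
      ∑ e₁ ∈ univ.filter (fun e₁ : Fin n → Bool => ∀ i ∉ S', e₁ i = e₀ i),
      ((univ.filter fun e : Fin n → Bool => (∀ i ∉ S, e i = e₁ i) ∧ F e).card : ℝ) := by
    simp only [Finset.card_filter]
    push_cast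
    rw [hR, Finset.sum_filter, Finset.sum_filter]
    have e1 : ∀ e : Fin n → Bool, (if (∀ i ∉ S', e i = e₀ i) ∧ F e then
        ∑ e₁ : Fin n → Bool, (if ∀ i ∉ S, e₁ i = e i then (1:ℝ) else 0) else 0) =
        ∑ e₁ : Fin n → Bool, (if ((∀ i ∉ S', e i = e₀ i) ∧ F e) ∧ (∀ i ∉ S, e₁ i = e i)
          then (1:ℝ) else 0) := by
      intro e
      by_cases h : (∀ i ∉ S', e i = e₀ i) ∧ F e
      · rw [if_pos h]
        apply Finset.sum_congr rfl
        intro e₁ _
        by_cases h' : ∀ i ∉ S, e₁ i = e i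
        · rw [if_pos h', if_pos ⟨h, h'⟩]
        · rw [if_neg h', if_neg (fun h'' => h' h''.2)]
      · rw [if_neg h]
        symm
        apply Finset.sum_eq_zero
        intro e₁ _
        rw [if_neg (fun h'' => h h''.1)]
    rw [Finset.sum_congr rfl (fun e _ => e1 e), Finset.sum_comm]
    apply Finset.sum_le_sum
    intro e₁ _
    by_cases h : ∀ i ∉ S', e₁ i = e₀ i
    · rw [if_pos h]
      apply Finset.sum_le_sum
      intro e _
      by_cases h' : ((∀ i ∉ S', e i = e₀ i) ∧ F e) ∧ (∀ i ∉ S, e₁ i = e i)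
      · rw [if_pos h', if_pos ⟨fun i hi => (h'.2 i hi).symm, h'.1.2⟩]
      · rw [if_neg h']
        split_ifs <;> norm_num
    · rw [if_neg h]
      apply le_of_eq
      apply Finset.sum_eq_zero
      intro e _
      rw [if_neg]
      rintro ⟨⟨h3, _⟩, h4⟩
      apply h
      intro i hi
      rw [h4 i (fun hiS => hi (hS hiS)), h3 i hi]
  have h3 : ∑ e ∈ R, ((univ.filter fun e₁ : Fin n → Bool => ∀ i ∉ S, e₁ i = e i).card : ℝ) =
      R.card * 2 ^ S.card := by
    rw [Finset.sum_congr rfl (fun e _ => by rw [card_agree]), Finset.sum_const, nsmul_eq_mul]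
    push_cast
    rfl
  rw [h3] at h2
  have h4 : (R.card : ℝ) * 2 ^ S.card ≤ (B * 2 ^ S'.card) * 2 ^ S.card := by
    refine (h2.trans h1).trans (le_of_eq ?_)
    ring
  rw [Nat.card_eq_fintype_card, Fintype.card_subtype]
  exact le_of_mul_le_mul_right h4 (by positivity)

/-- The local form: changes at the crossings of a matching. -/
theorem main1 : ∃ C : ℝ, 0 ≤ C ∧ ∀ (n : ℕ) (g : Code n) (P : ℤ[T;T⁻¹]) (m : ℕ)
    (u w : Fin m → Fin n) (e₀ : Fin n → Bool), 0 < m → Matching g u w →
      (Nat.card {e : Fin n → Bool //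
        (∀ i, (∀ k, u k ≠ i) → (∀ k, w k ≠ i) → e i = e₀ i) ∧ fPoly g e = P} : ℝ) ≤
        C * ((1 + Real.log m) / m) ^ (1 / 4 : ℝ) * 4 ^ m := by
  classical
  obtain ⟨C, hC0, hC⟩ := quadratic_LO
  refine ⟨C, hC0, ?_⟩
  intro n g P m u w e₀ hm hM
  obtain ⟨c, hc⟩ := exists_const g P
  refine le_trans ?_ (hC n m (fun i j => Interlaced g i j) u w
    (fun i j h => interlaced_symm g h) hM.1 hM.2 hm e₀ c)
  rw [Nat.card_eq_fintype_card, Fintype.card_subtype]
  norm_cast
  apply Finset.card_le_card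
  intro e he
  simp only [Finset.mem_filter, Finset.mem_univ, true_and] at he ⊢
  refine ⟨he.1, ?_⟩
  rw [← hc e he.2]
  unfold Qf
  refine Finset.sum_congr rfl (fun i _ => Finset.sum_congr rfl (fun j _ => ?_))
  by_cases hI : Interlaced g i j
  · simp only [if_pos hI]
  · simp only [if_neg hI]

theorem main : ∃ C : ℝ, ∀ (n : ℕ) (g : Code n), 0 < n → Reduced g →
    ∃ S : Finset (Fin n), twistRegions g ≤ 5 * S.card ∧
      ∀ (S' : Finset (Fin n)) (e₀ : Fin n → Bool) (P : ℤ[T;T⁻¹]), S ⊆ S' →
        (Nat.card {e : Fin n → Bool // (∀ i ∉ S', e i = e₀ i) ∧ fPoly g e = P} : ℝ) ≤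
          C * ((1 + Real.log (twistRegions g)) / twistRegions g) ^ (1 / 4 : ℝ) *
            2 ^ S'.card := by
  classical
  obtain ⟨C, hC0, hC⟩ := main1
  refine ⟨2 * C, fun n g hn hred => ?_⟩
  obtain ⟨m, u, w, hM, ht⟩ := exists_matching g hred
  set t := twistRegions g with htdef
  have ht0 : 0 < t := by
    have hne : Nonempty (Quot (Bigon g)) := ⟨Quot.mk _ ⟨0, hn⟩⟩
    rw [htdef]
    unfold twistRegions
    exact Nat.card_pos
  have hm : 0 < m := by omega
  have ht1 : (1:ℝ) ≤ t := by exact_mod_cast ht0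
  have hm1 : (1:ℝ) ≤ m := by exact_mod_cast hm
  have hlt : 0 ≤ Real.log t := Real.log_nonneg ht1
  have hlm : 0 ≤ Real.log m := Real.log_nonneg hm1
  have h10 : (1 + Real.log m) / m ≤ 16 * ((1 + Real.log t) / t) := by
    by_cases hmt : m ≤ t
    · have htm : (t:ℝ) ≤ 10 * m := by exact_mod_cast ht
      have h1 : Real.log m ≤ Real.log t := Real.log_le_log (by linarith) (by exact_mod_cast hmt)
      rw [div_le_iff₀ (by linarith)]
      have h2 : 16 * ((1 + Real.log t) / t) * m = (1 + Real.log t) * (16 * m / t) := by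
        field_simp
      rw [h2]
      have h3 : (1:ℝ) ≤ 16 * m / t := by
        rw [le_div_iff₀ (by linarith)]; linarith
      nlinarith
    · push Not at hmt
      have h1 := bound_anti ht0 hmt.le
      have h2 : 0 ≤ (1 + Real.log t) / t := by positivity
      linarith
  have h16 : ((1 + Real.log m) / m) ^ (1 / 4 : ℝ) ≤ 2 * ((1 + Real.log t) / t) ^ (1 / 4 : ℝ) := by
    calc ((1 + Real.log m) / m) ^ (1 / 4 : ℝ) ≤ (16 * ((1 + Real.log t) / t)) ^ (1 / 4 : ℝ) :=
          Real.rpow_le_rpow (by positivity) h10 (by norm_num)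
      _ = 16 ^ (1 / 4 : ℝ) * ((1 + Real.log t) / t) ^ (1 / 4 : ℝ) :=
          Real.mul_rpow (by norm_num) (by positivity)
      _ = 2 * ((1 + Real.log t) / t) ^ (1 / 4 : ℝ) := by
          congr 1
          rw [show (16:ℝ) = 2 ^ (4:ℝ) by norm_num, ← Real.rpow_mul (by norm_num)]
          norm_num
  set S : Finset (Fin n) := univ.image (Sum.elim u w) with hS
  have hScard : S.card = 2 * m := by
    rw [hS, Finset.card_image_of_injective _ hM.1, Finset.card_univ, Fintype.card_sum,
      Fintype.card_fin]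
    ring
  have hmem : ∀ i, i ∉ S ↔ (∀ k, u k ≠ i) ∧ (∀ k, w k ≠ i) := by
    intro i
    simp only [hS, Finset.mem_image, Finset.mem_univ, true_and, Sum.exists, Sum.elim_inl,
      Sum.elim_inr, not_or, not_exists, ne_eq]
  refine ⟨S, by omega, ?_⟩
  intro S' e₀ P hSS'
  refine average (fun e => fPoly g e = P) S S' hSS' _ (fun e₁ => ?_) e₀
  have h := hC n g P m u w e₁ hm hM
  have h4 : (4:ℝ) ^ m = 2 ^ S.card := by
    rw [hScard, pow_mul]; norm_num
  have hcongr : Nat.card {e : Fin n → Bool // (∀ i ∉ S, e i = e₁ i) ∧ fPoly g e = P} =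
      Nat.card {e : Fin n → Bool //
        (∀ i, (∀ k, u k ≠ i) → (∀ k, w k ≠ i) → e i = e₁ i) ∧ fPoly g e = P} := by
    apply Nat.card_congr
    apply Equiv.subtypeEquivRight
    intro e
    constructor
    · rintro ⟨h1, h2⟩
      exact ⟨fun i h3 h4 => h1 i ((hmem i).mpr ⟨h3, h4⟩), h2⟩
    · rintro ⟨h1, h2⟩
      exact ⟨fun i hi => h1 i ((hmem i).mp hi).1 ((hmem i).mp hi).2, h2⟩
  rw [hcongr]
  refine h.trans ?_
  rw [h4]
  calc C * ((1 + Real.log m) / m) ^ (1 / 4 : ℝ) * 2 ^ S.card
      ≤ C * (2 * ((1 + Real.log t) / t) ^ (1 / 4 : ℝ)) * 2 ^ S.card := by gcongr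
    _ = _ := by ring

end Pool.Agent.GaussJones
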