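import Mathlib

/-! Gauss codes of knot shadows, the Kauffman bracket state sum and the normalised polynomial `f`,
interlacement of crossings and twist regions. -/

namespace Pool.Agent.GaussJones

open LaurentPolynomial

/-- Gauss code of the shadow (projection) of a knot with `n` crossings. The knot passes `2 * n`
times through a crossing; `g (i, k)` is the place of the `k`-th passage through crossing `i` in the
cyclic order `0, 1, ..., 2 * n - 1` in which the knot makes its passages. -/
abbrev Code (n : ℕ) := Fin n × Bool ≃ Fin (2 * n)

variable {n : ℕ}

/-- Edge number `p` of the shadow runs from the passage at place `p` to the next passage.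
This is the edge which leaves the passage `x`. -/
def outEdge (g : Code n) (x : Fin n × Bool) : Fin (2 * n) := g x

/-- The edge which arrives at the passage `x`. -/
def inEdge (g : Code n) (x : Fin n × Bool) : Fin (2 * n) := (finRotate (2 * n)).symm (g x)

/-- The edges which the state `s` joins. At a crossing `i` with `s i = true` the smoothing
respects the orientation: each edge arriving at one of the two passages is joined with the edge
leaving the other one. At a crossing with `s i = false` it does not: the two arriving edges are
joined, and the two leaving edges are joined. -/
def Joined (g : Code n) (s : Fin n → Bool) (p q : Fin (2 * n)) : Prop :=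
  ∃ i : Fin n,
    (s i = true ∧ ((p = inEdge g (i, false) ∧ q = outEdge g (i, true)) ∨
      (p = inEdge g (i, true) ∧ q = outEdge g (i, false)))) ∨
    (s i = false ∧ ((p = inEdge g (i, false) ∧ q = inEdge g (i, true)) ∨
      (p = outEdge g (i, false) ∧ q = outEdge g (i, true))))

/-- The number of closed curves of the state `s`: the number of classes of edges for the
equivalence relation which `Joined` generates. -/
noncomputable def loops (g : Code n) (s : Fin n → Bool) : ℕ := Nat.card (Quot (Joined g s))

/-- The Kauffman bracket of the diagram with shadow `g` and crossing signs `e` (`e i = true`: the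
crossing `i` is positive). At a positive crossing the smoothing of type `A` is the one which
respects the orientation, at a negative crossing it is the other one. -/
noncomputable def bracket (g : Code n) (e : Fin n → Bool) : ℤ[T;T⁻¹] :=
  ∑ s : Fin n → Bool, (∏ i, if s i = e i then T 1 else T (-1)) *
    (-(T 2 + T (-2))) ^ (loops g s - 1)

/-- The polynomial `f = (-A^-3)^w * bracket`, `w` the sum of the signs of the crossings. -/
noncomputable def fPoly (g : Code n) (e : Fin n → Bool) : ℤ[T;T⁻¹] :=
  (∏ i, if e i = true then -T (-3) else -T 3) * bracket g e

/-- First and second passage through crossing `i`. -/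
def lo (g : Code n) (i : Fin n) : Fin (2 * n) := min (g (i, false)) (g (i, true))

/-- Second passage through crossing `i`. -/
def hi (g : Code n) (i : Fin n) : Fin (2 * n) := max (g (i, false)) (g (i, true))

/-- The passages through `i` and through `j` alternate along the knot. -/
def Interlaced (g : Code n) (i j : Fin n) : Prop :=
  (lo g i < lo g j ∧ lo g j < hi g i ∧ hi g i < hi g j) ∨
    (lo g j < lo g i ∧ lo g i < hi g j ∧ hi g j < hi g i)

/-- `g` has no nugatory crossing: every crossing is interlaced with another one. -/
def Reduced (g : Code n) : Prop := ∀ i, ∃ j, Interlaced g i j

/-- The places `p` and `q` are consecutive along the knot. -/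
def Consecutive (p q : Fin (2 * n)) : Prop :=
  finRotate (2 * n) p = q ∨ finRotate (2 * n) q = p

/-- The crossings `i` and `j` are the corners of a bigon: each passage through `i` is consecutive
to one of the two passages through `j`. -/
def Bigon (g : Code n) (i j : Fin n) : Prop :=
  ∃ a b : Bool, Consecutive (g (i, a)) (g (j, b)) ∧ Consecutive (g (i, !a)) (g (j, !b))

/-- The number of twist regions: classes of crossings for the equivalence relation which bigons
generate. -/
noncomputable def twistRegions (g : Code n) : ℕ := Nat.card (Quot (Bigon g))

/-- `u 0, w 0, u 1, w 1, ...` are `2 * m` different crossings, `u k` interlaced with `w k`. -/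
def Matching (g : Code n) {m : ℕ} (u w : Fin m → Fin n) : Prop :=
  Function.Injective (Sum.elim u w) ∧ ∀ k, Interlaced g (u k) (w k)

end Pool.Agent.GaussJones
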