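import Pool.Agent.Helper96.GJ.Index

/-! Signed numbers of crossings between two arcs of a planar shadow. -/

set_option autoImplicit false

namespace Pool.Agent.GaussJones.Grp

variable {n : ℕ}

/-- the previous place -/
def prv (r : Fin (2 * n)) : Fin (2 * n) := (finRotate (2 * n)).symm r

theorem prv_val (r : Fin (2 * n)) :
    (prv r : ℕ) = if (r : ℕ) = 0 then 2 * n - 1 else (r : ℕ) - 1 := by
  have key : ∀ (N : ℕ) (r : Fin N), (((finRotate N).symm r : Fin N) : ℕ) =
      if (r : ℕ) = 0 then N - 1 else (r : ℕ) - 1 := by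
    intro N r
    cases N with
    | zero => exact r.elim0
    | succ N =>
      have h1 : ∀ q : Fin (N + 1), finRotate (N + 1) q = r →
          (q : ℕ) = if (r : ℕ) = 0 then N + 1 - 1 else (r : ℕ) - 1 := by
        intro q hq
        rw [← hq]
        by_cases hqN : q = Fin.last N
        · rw [hqN, finRotate_last]
          simp
        · rw [coe_finRotate_of_ne_last hqN]
          simp
      exact h1 _ (Equiv.apply_symm_apply _ _)
  exact key _ r

/-- the other place of the same crossing -/
def mate (g : Code n) (r : Fin (2 * n)) : Fin (2 * n) := g ((g.symm r).1, !(g.symm r).2)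

theorem mate_apply (g : Code n) (i : Fin n) (k : Bool) : mate g (g (i, k)) = g (i, !k) := by
  simp [mate]

theorem mate_mate (g : Code n) (r : Fin (2 * n)) : mate g (mate g r) = r := by
  obtain ⟨⟨i, k⟩, rfl⟩ := g.surjective r
  rw [mate_apply, mate_apply, Bool.not_not]

theorem cr_mate (g : Code n) (r : Fin (2 * n)) : cr g (mate g r) = cr g r := by
  obtain ⟨⟨i, k⟩, rfl⟩ := g.surjective r
  rw [mate_apply, cr_apply, cr_apply]

/-- the sign of the crossing at the place `r` if `r` is the under-passage -/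
def sg (g : Code n) (s : Fin n → Bool) (r : Fin (2 * n)) : ℤ :=
  if s (g.symm r).1 = (g.symm r).2 then 1 else -1

theorem sg_apply (g : Code n) (s : Fin n → Bool) (i : Fin n) (k : Bool) :
    sg g s (g (i, k)) = if s i = k then 1 else -1 := by
  simp [sg]

theorem sg_mate (g : Code n) (s : Fin n → Bool) (r : Fin (2 * n)) :
    sg g s (mate g r) = -sg g s r := by
  obtain ⟨⟨i, k⟩, rfl⟩ := g.surjective r
  rw [mate_apply, sg_apply, sg_apply]
  cases k <;> cases s i <;> simp

theorem lo_lt_hi (g : Code n) (i : Fin n) : lo g i < hi g i := by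
  rw [lo, hi]
  apply min_lt_max.2
  intro h
  have := g.injective h
  simp at this

theorem lo_or (g : Code n) (i : Fin n) (k : Bool) :
    (g (i, k) = lo g i ∧ g (i, !k) = hi g i) ∨ (g (i, k) = hi g i ∧ g (i, !k) = lo g i) := by
  rw [lo, hi]
  cases k
  · rcases le_total (g (i, false)) (g (i, true)) with h | h
    · left
      simp [h]
    · right
      simp [h]
  · rcases le_total (g (i, false)) (g (i, true)) with h | h
    · right
      simp [h]
    · left
      simp [h]

theorem cr_lo (g : Code n) (i : Fin n) : cr g (lo g i) = i := by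
  rcases lo_or g i true with h | h
  · rw [← h.1, cr_apply]
  · rw [← h.2, cr_apply]

theorem cr_hi (g : Code n) (i : Fin n) : cr g (hi g i) = i := by
  rcases lo_or g i true with h | h
  · rw [← h.2, cr_apply]
  · rw [← h.1, cr_apply]

theorem mate_lo (g : Code n) (i : Fin n) : mate g (lo g i) = hi g i := by
  rcases lo_or g i true with h | h
  · rw [← h.1, mate_apply, h.2]
  · rw [← h.2, mate_apply, Bool.not_not, h.1]

theorem mate_hi (g : Code n) (i : Fin n) : mate g (hi g i) = lo g i := by
  rw [← mate_lo, mate_mate]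

theorem eq_lo_or_hi (g : Code n) (r : Fin (2 * n)) : r = lo g (cr g r) ∨ r = hi g (cr g r) := by
  obtain ⟨⟨i, k⟩, rfl⟩ := g.surjective r
  rw [cr_apply]
  rcases lo_or g i k with h | h
  · exact Or.inl h.1
  · exact Or.inr h.1

/-- the open arcs which the places of the crossing `c` cut off -/
def arc (g : Code n) (c : Fin n) (k : Bool) : Finset (Fin (2 * n)) :=
  Finset.univ.filter fun r => if k then lo g c < r ∧ r < hi g c else r < lo g c ∨ hi g c < r

/-- the closed arcs -/
def carc (g : Code n) (c : Fin n) (k : Bool) : Finset (Fin (2 * n)) :=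
  Finset.univ.filter fun r => if k then lo g c ≤ r ∧ r ≤ hi g c else r ≤ lo g c ∨ hi g c ≤ r

theorem mem_arc_true {g : Code n} {c : Fin n} {r : Fin (2 * n)} :
    r ∈ arc g c true ↔ lo g c < r ∧ r < hi g c := by simp [arc]

theorem mem_arc_false {g : Code n} {c : Fin n} {r : Fin (2 * n)} :
    r ∈ arc g c false ↔ r < lo g c ∨ hi g c < r := by simp [arc]

theorem mem_carc_true {g : Code n} {c : Fin n} {r : Fin (2 * n)} :
    r ∈ carc g c true ↔ lo g c ≤ r ∧ r ≤ hi g c := by simp [carc]

theorem mem_carc_false {g : Code n} {c : Fin n} {r : Fin (2 * n)} :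
    r ∈ carc g c false ↔ r ≤ lo g c ∨ hi g c ≤ r := by simp [carc]

/-- the signed number of crossings in `X` from `U` to `V` -/
def Nn (g : Code n) (s : Fin n → Bool) (X : Finset (Fin n)) (U V : Finset (Fin (2 * n))) : ℤ :=
  ∑ r, if r ∈ U ∧ mate g r ∈ V ∧ cr g r ∈ X then sg g s r else 0

theorem Nn_swap (g : Code n) (s : Fin n → Bool) (X : Finset (Fin n))
    (U V : Finset (Fin (2 * n))) : Nn g s X U V = -Nn g s X V U := by
  rw [Nn, Nn, ← Finset.sum_neg_distrib]
  refine Finset.sum_nbij' (mate g) (mate g) (fun _ _ => Finset.mem_univ _)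
    (fun _ _ => Finset.mem_univ _) (fun r _ => mate_mate g r) (fun r _ => mate_mate g r) ?_
  intro r _
  rw [mate_mate, cr_mate, sg_mate]
  by_cases h : r ∈ U ∧ mate g r ∈ V ∧ cr g r ∈ X
  · rw [if_pos h, if_pos ⟨h.2.1, h.1, h.2.2⟩, neg_neg]
  · rw [if_neg h, if_neg fun h' => h ⟨h'.2.1, h'.1, h'.2.2⟩, neg_zero]

/-- all signed numbers of crossings in `X` between disjoint arcs cut off by crossings of `X`
vanish -/
def NCond (g : Code n) (s : Fin n → Bool) (X : Finset (Fin n)) : Prop :=
  ∀ c ∈ X, ∀ c' ∈ X, ∀ k : Bool, Disjoint (arc g c k) (carc g c' true) →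
    Disjoint (carc g c k) (arc g c' true) → Nn g s X (arc g c k) (arc g c' true) = 0

/-- the cycle of the arc `k` of the crossing `c` -/
def cyc (g : Code n) (c : Fin n) (k : Bool) (p : Fin (2 * n)) : ℤ :=
  if (decide (lo g c ≤ p ∧ p < hi g c) = k) then 1 else 0

theorem cyc_out {g : Code n} {c : Fin n} {k : Bool} {r : Fin (2 * n)} (hr : cr g r ≠ c) :
    cyc g c k r = if r ∈ arc g c k then 1 else 0 := by
  have h1 : r ≠ lo g c := fun h => hr (by rw [h, cr_lo])
  have h2 : r ≠ hi g c := fun h => hr (by rw [h, cr_hi])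
  rw [cyc]
  refine if_congr ?_ rfl rfl
  cases k
  · rw [mem_arc_false, decide_eq_false_iff_not]
    constructor
    · intro h
      rw [not_and_or, not_le, not_lt] at h
      exact h.imp id fun h => lt_of_le_of_ne h h2.symm
    · rintro (h | h) ⟨h3, h4⟩
      · exact absurd h3 (not_le.2 h)
      · exact absurd h4 (not_lt.2 h.le)
  · rw [mem_arc_true, decide_eq_true_iff]
    exact ⟨fun h => ⟨lt_of_le_of_ne h.1 h1.symm, h.2⟩, fun h => ⟨h.1.le, h.2⟩⟩

theorem cyc_in {g : Code n} {c : Fin n} {k : Bool} {r : Fin (2 * n)} (hr : cr g r ≠ c) :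
    cyc g c k (prv r) = cyc g c k r := by
  have h1 : (r : ℕ) ≠ lo g c := fun h => hr (by rw [Fin.ext h, cr_lo])
  have h2 : (r : ℕ) ≠ hi g c := fun h => hr (by rw [Fin.ext h, cr_hi])
  have h3 := prv_val r
  have h4 := (hi g c).2
  have h5 := lo_lt_hi g c
  rw [Fin.lt_def] at h5
  rw [cyc, cyc]
  have : (lo g c ≤ prv r ∧ prv r < hi g c) ↔ (lo g c ≤ r ∧ r < hi g c) := by
    simp only [Fin.le_def, Fin.lt_def]
    split_ifs at h3 with h0
    · omega
    · omega
  simp only [this]

theorem cyc_sum (g : Code n) (c : Fin n) (k : Bool) (i : Fin n) :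
    cyc g c k (inEdge g (i, false)) + cyc g c k (inEdge g (i, true)) =
      cyc g c k (outEdge g (i, false)) + cyc g c k (outEdge g (i, true)) := by
  by_cases hi' : i = c
  · subst hi'
    have key : cyc g i k (prv (lo g i)) + cyc g i k (prv (hi g i)) =
        cyc g i k (lo g i) + cyc g i k (hi g i) := by
      have h1 := prv_val (lo g i)
      have h2 := prv_val (hi g i)
      have h4 := (hi g i).2
      have h5 := lo_lt_hi g i
      rw [Fin.lt_def] at h5
      have e1 : ¬ (lo g i ≤ prv (lo g i) ∧ prv (lo g i) < hi g i) := by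
        simp only [Fin.le_def, Fin.lt_def]
        split_ifs at h1 with h0 <;> omega
      have e2 : lo g i ≤ prv (hi g i) ∧ prv (hi g i) < hi g i := by
        simp only [Fin.le_def, Fin.lt_def]
        split_ifs at h2 with h0 <;> omega
      have e3 : lo g i ≤ lo g i ∧ lo g i < hi g i := ⟨le_rfl, lo_lt_hi g i⟩
      have e4 : ¬ (lo g i ≤ hi g i ∧ hi g i < hi g i) := fun h => lt_irrefl _ h.2
      simp only [cyc, e1, e2, e3, e4, decide_false]
      cases k <;> simp
    simp only [inEdge, outEdge]
    rcases lo_or g i false with h | h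
    · rw [h.1, show g (i, true) = hi g i from h.2]
      exact key
    · rw [h.1, show g (i, true) = lo g i from h.2]
      rw [add_comm, add_comm (cyc g i k (hi g i))]
      exact key
  · have h1 := cyc_in (g := g) (c := c) (k := k) (r := g (i, false)) (by rw [cr_apply]; exact hi')
    have h2 := cyc_in (g := g) (c := c) (k := k) (r := g (i, true)) (by rw [cr_apply]; exact hi')
    simp only [inEdge, outEdge]
    rw [prv] at h1 h2
    rw [h1, h2]

end Pool.Agent.GaussJones.Grp
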