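import Pool.Agent.Helper96.GJ.Base

/-! Averaging over one coordinate and an exponential moment bound. -/

namespace Pool.Agent.GaussJones

open Finset

variable {m : ℕ}

/-- difference of the two signs of a pair -/
def df (b : Bool × Bool) : ℤ := sg b.1 - sg b.2

/-- linear form with coefficients `a k` at the pair vector `v` -/
def Lf (a : Fin m → Fin m → ℤ) (k : Fin m) (v : Fin m → Bool × Bool) : ℤ := ∑ l, a k l * df (v l)

theorem sum_update_eq {α : Type*} [Fintype α] [DecidableEq α] (f : (α → Bool × Bool) → ℝ) (k : α) :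
    ∑ v, ∑ b, f (Function.update v k b) = 4 * ∑ v, f v := by
  classical
  set T : Bool × Bool → (α → Bool × Bool) → (α → Bool × Bool) := fun c v =>
    Function.update v k (xor (v k).1 c.1, xor (v k).2 c.2) with hT
  have hinv : ∀ c v, T c (T c v) = v := by
    intro c v
    simp only [hT]
    funext i
    by_cases hi : i = k
    · subst hi; simp
    · simp [Function.update_of_ne hi]
  have h1 : ∀ c, ∑ v, f (T c v) = ∑ v, f v := by
    intro c
    exact Fintype.sum_equiv ⟨T c, T c, hinv c, hinv c⟩ _ _ (fun v => rfl)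
  have h2 : ∀ v, ∑ b, f (Function.update v k b) = ∑ c, f (T c v) := by
    intro v
    simp only [hT]
    have : ∀ w : Bool × Bool, ∑ c : Bool × Bool, f (Function.update v k (xor w.1 c.1, xor w.2 c.2)) =
        ∑ b, f (Function.update v k b) := by
      rintro ⟨w1, w2⟩
      simp only [Fintype.sum_prod_type, Fintype.sum_bool]
      cases w1 <;> cases w2 <;> simp <;> ring
    exact (this (v k)).symm
  calc ∑ v, ∑ b, f (Function.update v k b) = ∑ v, ∑ c, f (T c v) := by
        exact Finset.sum_congr rfl (fun v _ => h2 v)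
    _ = ∑ c : Bool × Bool, ∑ v, f (T c v) := Finset.sum_comm
    _ = ∑ _c : Bool × Bool, ∑ v, f v := Finset.sum_congr rfl (fun c _ => h1 c)
    _ = 4 * ∑ v, f v := by simp

/-- at most two of the four pairs have a prescribed difference -/
theorem df_count (a r : ℤ) (ha : a ≠ 0) (θ : ℝ) (_hθ0 : 0 ≤ θ) (hθ1 : θ ≤ 1) :
    ∑ b : Bool × Bool, (if a * df b + r = 0 then (1:ℝ) else θ) ≤ 2 + 2 * θ := by
  simp only [Fintype.sum_prod_type, Fintype.sum_bool, df, sg]
  norm_num
  by_cases hr : r = 0
  · subst hr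
    have h1 : ¬ (a * 2 = 0) := by simpa using ha
    have h2 : ¬ (-(a * 2) = 0) := by simpa using ha
    simp [ha]
    linarith
  · by_cases h1 : a * 2 + r = 0
    · have h2 : ¬ (-(a * 2) + r = 0) := by
        intro h
        apply ha; omega
      simp [h1, h2, hr]
      linarith
    · by_cases h2 : -(a * 2) + r = 0
      · simp [h1, h2, hr]; linarith
      · simp [h1, h2, hr]; linarith

theorem exp_moment (a : Fin m → Fin m → ℤ) (ha : ∀ k, a k k ≠ 0) (θ : ℝ) (hθ0 : 0 ≤ θ)
    (hθ1 : θ ≤ 1) (K : Finset (Fin m)) (hK : ∀ k ∈ K, ∀ l ∈ K, k ≠ l → a k l = 0) :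
    ∑ v, ∏ k ∈ K, (if Lf a k v = 0 then (1:ℝ) else θ) ≤ 4 ^ m * ((1 + θ) / 2) ^ K.card := by
  classical
  induction K using Finset.induction_on with
  | empty => simp [Fintype.card_prod]
  | insert k K hk ih =>
    have hK' : ∀ i ∈ K, ∀ l ∈ K, i ≠ l → a i l = 0 := fun i hi l hl h =>
      hK i (Finset.mem_insert_of_mem hi) l (Finset.mem_insert_of_mem hl) h
    have ih' := ih hK'
    have key : ∀ v : Fin m → Bool × Bool,
        ∑ b, ∏ i ∈ insert k K, (if Lf a i (Function.update v k b) = 0 then (1:ℝ) else θ) ≤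
          (2 + 2 * θ) * ∏ i ∈ K, (if Lf a i v = 0 then (1:ℝ) else θ) := by
      intro v
      have h1 : ∀ b, ∀ i ∈ K, Lf a i (Function.update v k b) = Lf a i v := by
        intro b i hi
        unfold Lf
        apply Finset.sum_congr rfl
        intro l _
        by_cases hl : l = k
        · subst hl
          have : a i l = 0 := hK i (Finset.mem_insert_of_mem hi) l (Finset.mem_insert_self _ _)
            (fun h => hk (h ▸ hi))
          simp [this]
        · rw [Function.update_of_ne hl]
      have h2 : ∀ b, Lf a k (Function.update v k b) =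
          a k k * df b + ∑ l ∈ univ.erase k, a k l * df (v l) := by
        intro b
        unfold Lf
        rw [← Finset.add_sum_erase univ _ (Finset.mem_univ k)]
        simp only [Function.update_self]
        congr 1
        apply Finset.sum_congr rfl
        intro l hl
        rw [Function.update_of_ne (Finset.ne_of_mem_erase hl)]
      have h3 : ∀ b, ∏ i ∈ insert k K, (if Lf a i (Function.update v k b) = 0 then (1:ℝ) else θ) =
          (if a k k * df b + ∑ l ∈ univ.erase k, a k l * df (v l) = 0 then (1:ℝ) else θ) *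
            ∏ i ∈ K, (if Lf a i v = 0 then (1:ℝ) else θ) := by
        intro b
        rw [Finset.prod_insert hk, h2]
        congr 1
        apply Finset.prod_congr rfl
        intro i hi
        rw [h1 b i hi]
      simp_rw [h3]
      rw [← Finset.sum_mul]
      apply mul_le_mul_of_nonneg_right (df_count _ _ (ha k) θ hθ0 hθ1)
      apply Finset.prod_nonneg
      intro i _
      split_ifs <;> linarith
    have h4 := sum_update_eq (fun v => ∏ i ∈ insert k K, (if Lf a i v = 0 then (1:ℝ) else θ)) k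
    have h5 : 4 * ∑ v, ∏ i ∈ insert k K, (if Lf a i v = 0 then (1:ℝ) else θ) ≤
        (2 + 2 * θ) * ∑ v, ∏ i ∈ K, (if Lf a i v = 0 then (1:ℝ) else θ) := by
      rw [← h4, Finset.mul_sum]
      exact Finset.sum_le_sum (fun v _ => key v)
    rw [Finset.card_insert_of_notMem hk, pow_succ]
    have h6 : (2 + 2 * θ) * ∑ v, ∏ i ∈ K, (if Lf a i v = 0 then (1:ℝ) else θ) ≤
        (2 + 2 * θ) * (4 ^ m * ((1 + θ) / 2) ^ K.card) :=
      mul_le_mul_of_nonneg_left ih' (by linarith)
    nlinarith [h5, h6]

/-- few non-vanishing forms in an independent set of `16 s` indices: probability at most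
`200 ^ (-s)` -/
theorem few_bound (a : Fin m → Fin m → ℤ) (ha : ∀ k, a k k ≠ 0) (s : ℕ) (K : Finset (Fin m))
    (hK : ∀ k ∈ K, ∀ l ∈ K, k ≠ l → a k l = 0) (hc : K.card = 16 * s) :
    ((univ.filter fun v : Fin m → Bool × Bool =>
      (K.filter fun k => Lf a k v ≠ 0).card ≤ s).card : ℝ) ≤ 4 ^ m * (1 / 200) ^ s := by
  classical
  have h := exp_moment a ha (1 / 256) (by norm_num) (by norm_num) K hK
  rw [hc] at h
  set S := univ.filter fun v : Fin m → Bool × Bool => (K.filter fun k => Lf a k v ≠ 0).card ≤ s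
    with hS
  have h1 : ∀ v ∈ S, (1 / 256 : ℝ) ^ s ≤ ∏ k ∈ K, (if Lf a k v = 0 then (1:ℝ) else 1 / 256) := by
    intro v hv
    have hv' : (K.filter fun k => Lf a k v ≠ 0).card ≤ s := (Finset.mem_filter.mp hv).2
    rw [Finset.prod_ite]
    simp only [Finset.prod_const_one, one_mul, Finset.prod_const]
    exact pow_le_pow_of_le_one (by norm_num) (by norm_num) hv'
  have h2 : (S.card : ℝ) * (1 / 256) ^ s ≤ 4 ^ m * ((1 + 1 / 256) / 2) ^ (16 * s) := by
    calc (S.card : ℝ) * (1 / 256) ^ s = ∑ _v ∈ S, (1 / 256 : ℝ) ^ s := by simp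
      _ ≤ ∑ v ∈ S, ∏ k ∈ K, (if Lf a k v = 0 then (1:ℝ) else 1 / 256) := Finset.sum_le_sum h1
      _ ≤ ∑ v, ∏ k ∈ K, (if Lf a k v = 0 then (1:ℝ) else 1 / 256) := by
          apply Finset.sum_le_sum_of_subset_of_nonneg (Finset.subset_univ _)
          intro v _ _
          apply Finset.prod_nonneg
          intro i _
          split_ifs <;> norm_num
      _ ≤ _ := h
  have h3 : (((1:ℝ) + 1 / 256) / 2) ^ (16 * s) ≤ ((1 / 200) * (1 / 256)) ^ s := by
    rw [pow_mul]
    apply pow_le_pow_left₀ (by positivity)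
    norm_num
  rw [mul_pow] at h3
  have h4 : (0:ℝ) < (1 / 256) ^ s := by positivity
  have h5 : (S.card : ℝ) * (1 / 256) ^ s ≤ (4 ^ m * (1 / 200) ^ s) * (1 / 256) ^ s := by
    calc _ ≤ (4:ℝ) ^ m * ((1 + 1 / 256) / 2) ^ (16 * s) := h2
      _ ≤ 4 ^ m * ((1 / 200) ^ s * (1 / 256) ^ s) :=
          mul_le_mul_of_nonneg_left h3 (by positivity)
      _ = _ := by ring
  exact le_of_mul_le_mul_right h5 h4

end Pool.Agent.GaussJones
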