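import Pool.Agent.Helper96.GJ.Defs

/-! Small definitions used in the proofs (not in the final statement). -/

namespace Pool.Agent.GaussJones

open LaurentPolynomial Finset

variable {n : ℕ}

/-- sign of a Boolean -/
def sg (b : Bool) : ℤ := if b then 1 else -1

/-- the sum over ordered interlaced pairs of the products of the signs -/
noncomputable def Qf (g : Code n) (e : Fin n → Bool) : ℤ := by
  classical exact ∑ i, ∑ j, if Interlaced g i j then sg (e i) * sg (e j) else 0

/-- Three kinds of smoothings: oriented, not oriented, transparent (crossing ignored). -/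
inductive Sm | ori | dis | tra
deriving DecidableEq

/-- edges joined when crossing `i` is treated as `σ i` says -/
def Joined3 (g : Code n) (σ : Fin n → Sm) (p q : Fin (2 * n)) : Prop :=
  ∃ i : Fin n,
    (σ i = Sm.ori ∧ ((p = inEdge g (i, false) ∧ q = outEdge g (i, true)) ∨
      (p = inEdge g (i, true) ∧ q = outEdge g (i, false)))) ∨
    (σ i = Sm.dis ∧ ((p = inEdge g (i, false) ∧ q = inEdge g (i, true)) ∨
      (p = outEdge g (i, false) ∧ q = outEdge g (i, true)))) ∨
    (σ i = Sm.tra ∧ ((p = inEdge g (i, false) ∧ q = outEdge g (i, false)) ∨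
      (p = inEdge g (i, true) ∧ q = outEdge g (i, true))))

/-- number of closed curves -/
noncomputable def loops3 (g : Code n) (σ : Fin n → Sm) : ℕ := Nat.card (Quot (Joined3 g σ))

end Pool.Agent.GaussJones
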