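import Pool.Agent.Helper96.GJ.NPlanar

/-! Wirtinger colourings are constant for suitable over/under choices outside a set of pairwise
non-interlaced crossings. -/

set_option autoImplicit false

namespace Pool.Agent.GaussJones.Grp

variable {n : ℕ}

/-- Wirtinger colourings of the edges of the diagram whose crossings are the ones in `X` -/
structure IsCol {G : Type} [Group G] (g : Code n) (s o : Fin n → Bool) (X : Finset (Fin n))
    (col : Fin (2 * n) → G) : Prop where
  flat : ∀ r, cr g r ∉ X → col r = col (prv r)
  ovr : ∀ i ∈ X, col (g (i, o i)) = col (prv (g (i, o i)))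
  und : ∀ i ∈ X, col (g (i, !o i)) =
    col (g (i, o i)) ^ eps s o i * col (prv (g (i, !o i))) * col (g (i, o i)) ^ (-eps s o i)

/-- the first passage -/
def fst (g : Code n) (i : Fin n) : Bool := if g (i, false) < g (i, true) then false else true

theorem fst_spec (g : Code n) (i : Fin n) : g (i, fst g i) = lo g i ∧ g (i, !fst g i) = hi g i := by
  rw [fst]
  split_ifs with h
  · rw [lo, hi, min_eq_left h.le, max_eq_right h.le]
    exact ⟨rfl, rfl⟩
  · push Not at h
    rw [lo, hi, min_eq_right h, max_eq_left h]
    exact ⟨rfl, rfl⟩

theorem conj_self {G : Type} [Group G] (x : G) (e : ℤ) : x ^ e * x * x ^ (-e) = x := by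
  rw [zpow_neg, mul_inv_eq_iff_eq_mul]
  exact (Commute.refl x).zpow_left e |>.eq

theorem conj_self_iff {G : Type} [Group G] (x y : G) (e : ℤ) (h : x = x ^ e * y * x ^ (-e)) :
    y = x := by
  rw [zpow_neg, eq_mul_inv_iff_mul_eq] at h
  have h1 : x * x ^ e = x ^ e * x := (Commute.refl x).zpow_right e |>.eq
  rw [h1] at h
  exact (mul_left_cancel h).symm

theorem bool_not_of_ne {a b : Bool} (h : ¬ a = b) : a = !b := by
  cases a <;> cases b <;> simp_all

theorem bool_of_ne_not {a b : Bool} (h : ¬ a = !b) : a = b := by
  cases a <;> cases b <;> simp_all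

/-- descending diagrams have constant colourings -/
theorem descending {g : Code n} {s o : Fin n → Bool} {X : Finset (Fin n)} (hn : 0 < n)
    (ho : ∀ i ∈ X, o i = fst g i) {G : Type} [Group G] {col : Fin (2 * n) → G}
    (hcol : IsCol g s o X col) : ∀ p q, col p = col q := by
  have h2n : 0 < 2 * n := by omega
  set x := col (prv ⟨0, h2n⟩) with hx
  have key : ∀ (m : ℕ) (r : Fin (2 * n)), (r : ℕ) = m → col r = x ∧ col (prv r) = x := by
    intro m
    induction m using Nat.strong_induction_on with
    | _ m ih =>
      intro r hr
      have h1 : col (prv r) = x := by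
        by_cases h0 : (r : ℕ) = 0
        · have : r = ⟨0, h2n⟩ := Fin.ext h0
          rw [this]
        · have h2 := prv_val r
          rw [if_neg h0] at h2
          exact (ih (prv r : ℕ) (by omega) (prv r) rfl).1
      refine ⟨?_, h1⟩
      by_cases hX : cr g r ∈ X
      · obtain ⟨⟨i, κ⟩, rfl⟩ := g.surjective r
        rw [cr_apply] at hX
        by_cases hκ : κ = o i
        · subst hκ
          rw [hcol.ovr i hX, h1]
        · have hκ' : κ = !o i := bool_not_of_ne hκ
          subst hκ'
          have h3 : g (i, o i) = lo g i := by rw [ho i hX]; exact (fst_spec g i).1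
          have h4 : g (i, !o i) = hi g i := by rw [ho i hX]; exact (fst_spec g i).2
          have h5 : col (g (i, o i)) = x := by
            refine (ih (g (i, o i) : ℕ) ?_ (g (i, o i)) rfl).1
            rw [← hr, h3, h4]
            exact lo_lt_hi g i
          rw [hcol.und i hX, h5, h1]
          exact conj_self x _
      · rw [hcol.flat r hX, h1]
  intro p q
  rw [(key p p rfl).1, (key q q rfl).1]

/-- the signed crossings with the loop of `c₀` -/
def eta (g : Code n) (s : Fin n → Bool) (X : Finset (Fin n)) (c₀ : Fin n) (r : Fin (2 * n)) : ℤ :=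
  if r ∈ arc g c₀ false ∧ mate g r ∈ arc g c₀ true ∧ cr g r ∈ X then sg g s r else 0

/-- the index with respect to the loop of `c₀` -/
def wt (g : Code n) (s : Fin n → Bool) (X : Finset (Fin n)) (c₀ : Fin n) (p : Fin (2 * n)) : ℤ :=
  ∑ r with r ≤ p, eta g s X c₀ r

theorem not_mem_carc_iff {g : Code n} {c : Fin n} {r : Fin (2 * n)} :
    r ∉ carc g c true ↔ r ∈ arc g c false := by
  rw [mem_carc_true, mem_arc_false, not_and_or, not_le, not_le]

theorem not_mem_carc_false_iff {g : Code n} {c : Fin n} {r : Fin (2 * n)} :
    r ∉ carc g c false ↔ r ∈ arc g c true := by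
  rw [mem_carc_false, mem_arc_true, not_or, not_le, not_le]

theorem eta_sum {g : Code n} {s : Fin n → Bool} {X : Finset (Fin n)} (hX : NCond g s X)
    {c₀ : Fin n} (hc₀ : c₀ ∈ X) : ∑ r, eta g s X c₀ r = 0 := by
  have := hX c₀ hc₀ c₀ hc₀ false (by
    rw [Finset.disjoint_left]
    intro r hr hr'
    exact not_mem_carc_iff.2 hr hr') (by
    rw [Finset.disjoint_left]
    intro r hr hr'
    exact not_mem_carc_false_iff.2 hr' hr)
  exact this

theorem wt_step {g : Code n} {s : Fin n → Bool} {X : Finset (Fin n)} (hX : NCond g s X)
    {c₀ : Fin n} (hc₀ : c₀ ∈ X) (r : Fin (2 * n)) :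
    wt g s X c₀ r = wt g s X c₀ (prv r) + eta g s X c₀ r := by
  have h1 := prv_val r
  have h2 := r.2
  by_cases h0 : (r : ℕ) = 0
  · rw [if_pos h0] at h1
    have h3 : (Finset.univ.filter fun q : Fin (2 * n) => q ≤ prv r) = Finset.univ := by
      ext q
      have := q.2
      simp only [Finset.mem_filter, Finset.mem_univ, true_and, Fin.le_def, iff_true]
      omega
    have h4 : (Finset.univ.filter fun q : Fin (2 * n) => q ≤ r) = {r} := by
      ext q
      simp only [Finset.mem_filter, Finset.mem_univ, true_and, Fin.le_def, Finset.mem_singleton,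
        Fin.ext_iff]
      omega
    rw [wt, wt, h3, h4, eta_sum hX hc₀, Finset.sum_singleton, zero_add]
  · rw [if_neg h0] at h1
    have h3 : (Finset.univ.filter fun q : Fin (2 * n) => q ≤ r) =
        insert r (Finset.univ.filter fun q : Fin (2 * n) => q ≤ prv r) := by
      ext q
      simp only [Finset.mem_filter, Finset.mem_univ, true_and, Fin.le_def, Finset.mem_insert,
        Fin.ext_iff]
      omega
    have h4 : r ∉ (Finset.univ.filter fun q : Fin (2 * n) => q ≤ prv r) := by
      simp only [Finset.mem_filter, Finset.mem_univ, true_and, Fin.le_def]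
      omega
    rw [wt, wt, h3, Finset.sum_insert h4, add_comm]

theorem wt_arc {g : Code n} {s : Fin n → Bool} {X : Finset (Fin n)} {c₀ i : Fin n}
    (h : eta g s X c₀ (hi g i) = 0) :
    wt g s X c₀ (hi g i) - wt g s X c₀ (lo g i) = ∑ r ∈ arc g i true, eta g s X c₀ r := by
  have h1 : (Finset.univ.filter fun q : Fin (2 * n) => q ≤ hi g i) =
      insert (hi g i) ((Finset.univ.filter fun q : Fin (2 * n) => q ≤ lo g i) ∪
        arc g i true) := by
    ext q
    have := lo_lt_hi g i
    simp only [Finset.mem_filter, Finset.mem_univ, true_and, Fin.le_def, Finset.mem_insert,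
      Finset.mem_union, mem_arc_true, Fin.lt_def, Fin.ext_iff] at this ⊢
    omega
  have h2 : hi g i ∉ (Finset.univ.filter fun q : Fin (2 * n) => q ≤ lo g i) ∪ arc g i true := by
    have := lo_lt_hi g i
    simp only [Finset.mem_filter, Finset.mem_univ, true_and, Fin.le_def,
      Finset.mem_union, mem_arc_true, Fin.lt_def] at this ⊢
    omega
  have h3 : Disjoint (Finset.univ.filter fun q : Fin (2 * n) => q ≤ lo g i) (arc g i true) := by
    rw [Finset.disjoint_left]
    intro q hq hq'
    simp only [Finset.mem_filter, Finset.mem_univ, true_and, Fin.le_def,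
      mem_arc_true, Fin.lt_def] at hq hq'
    omega
  rw [wt, wt, h1, Finset.sum_insert h2, Finset.sum_union h3, h]
  ring

theorem wt_mate {g : Code n} {s : Fin n → Bool} {X : Finset (Fin n)} (hX : NCond g s X)
    {c₀ : Fin n} (hc₀ : c₀ ∈ X) {i : Fin n} (hi' : i ∈ rest g X c₀) :
    wt g s X c₀ (hi g i) = wt g s X c₀ (lo g i) := by
  obtain ⟨hiX, h1, h2⟩ := mem_rest.1 hi'
  have ehi : eta g s X c₀ (hi g i) = 0 := by
    rw [eta, if_neg]
    rintro ⟨-, h, -⟩
    rw [mate_hi] at h
    exact h1 (arc_subset_carc g c₀ true h)
  have elo : eta g s X c₀ (lo g i) = 0 := by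
    rw [eta, if_neg]
    rintro ⟨-, h, -⟩
    rw [mate_lo] at h
    exact h2 (arc_subset_carc g c₀ true h)
  rw [← sub_eq_zero, wt_arc ehi]
  have hlh := lo_lt_hi g i
  rcases loop_inside h1 h2 true with hA | hB
  · -- the loop is inside the arc
    have h3 : (Finset.univ : Finset (Fin (2 * n))) =
        insert (hi g i) (insert (lo g i) (arc g i true ∪ arc g i false)) := by
      ext q
      simp only [Finset.mem_univ, Finset.mem_insert, Finset.mem_union, mem_arc_true,
        mem_arc_false, Fin.lt_def, Fin.ext_iff, true_iff]
      omega
    have h4 : hi g i ∉ insert (lo g i) (arc g i true ∪ arc g i false) := by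
      simp only [Finset.mem_insert, Finset.mem_union, mem_arc_true,
        mem_arc_false, Fin.lt_def, Fin.ext_iff] at hlh ⊢
      omega
    have h5 : lo g i ∉ arc g i true ∪ arc g i false := by
      simp only [Finset.mem_union, mem_arc_true,
        mem_arc_false, Fin.lt_def] at hlh ⊢
      omega
    have h6 : Disjoint (arc g i true) (arc g i false) := by
      rw [Finset.disjoint_left]
      intro q hq hq'
      simp only [mem_arc_true, mem_arc_false, Fin.lt_def] at hq hq'
      omega
    have h7 := eta_sum hX hc₀
    rw [h3, Finset.sum_insert h4, Finset.sum_insert h5, Finset.sum_union h6, ehi, elo] at h7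
    have h8 := hX i hiX c₀ hc₀ false (by
      rw [Finset.disjoint_left]
      intro r hr hr'
      exact Finset.disjoint_left.1 h6 (hA hr') hr) (by
      rw [Finset.disjoint_left]
      intro r hr hr'
      exact not_mem_carc_false_iff.2 (hA (arc_subset_carc g c₀ true hr')) hr)
    have h9 : ∑ r ∈ arc g i false, eta g s X c₀ r = 0 := by
      rw [← h8, Nn, ← Finset.sum_subset (Finset.subset_univ (arc g i false))
        (fun r _ hr => if_neg fun h => hr h.1)]
      refine Finset.sum_congr rfl fun r hr => if_congr ?_ rfl rfl
      constructor
      · rintro ⟨-, h, h'⟩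
        exact ⟨hr, h, h'⟩
      · rintro ⟨-, h, h'⟩
        refine ⟨?_, h, h'⟩
        rw [← not_mem_carc_iff]
        exact fun h'' => Finset.disjoint_left.1 h6 (hA h'') hr
    rw [h9] at h7
    linarith
  · -- the loop is off the arc
    have h8 := hX i hiX c₀ hc₀ true (by
      rw [Finset.disjoint_left]
      intro r hr hr'
      exact hB r hr' hr) (by
      rw [Finset.disjoint_left]
      intro r hr hr'
      have h9 := arc_subset_carc g c₀ true hr'
      have h10 := hB r h9
      rw [mem_carc_true] at hr
      rw [mem_arc_true] at h10
      rcases eq_or_lt_of_le hr.1 with h | h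
      · exact h1 (h ▸ h9)
      · rcases eq_or_lt_of_le hr.2 with h' | h'
        · exact h2 (h' ▸ h9)
        · exact h10 ⟨h, h'⟩)
    rw [← h8, Nn, ← Finset.sum_subset (Finset.subset_univ (arc g i true))
        (fun r _ hr => if_neg fun h => hr h.1)]
    refine Finset.sum_congr rfl fun r hr => if_congr ?_ rfl rfl
    constructor
    · rintro ⟨-, h, h'⟩
      exact ⟨hr, h, h'⟩
    · rintro ⟨-, h, h'⟩
      refine ⟨?_, h, h'⟩
      rw [← not_mem_carc_iff]
      exact fun h'' => hB r h'' hr

/-- no crossing of `R` other than `c₀` meets the loop of an innermost crossing `c₀` -/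
theorem exists_innermost {g : Code n} {R X : Finset (Fin n)}
    (hR : ∀ i ∈ R, ∀ j ∈ R, ¬ Interlaced g i j) (h : (X ∩ R).Nonempty) :
    ∃ c₀ ∈ X, c₀ ∈ R ∧ ∀ r ∈ arc g c₀ true, cr g r ∈ X → cr g r ∉ R := by
  obtain ⟨c₀, hc₀, hmin⟩ := Finset.exists_min_image (X ∩ R)
    (fun c => (hi g c : ℕ) - (lo g c : ℕ)) h
  obtain ⟨hX, hRc⟩ := Finset.mem_inter.1 hc₀
  refine ⟨c₀, hX, hRc, fun r hr hrX hrR => ?_⟩
  set i := cr g r with hi_def
  have h1 := hR c₀ hRc i hrR
  have h2 := hmin i (Finset.mem_inter.2 ⟨hrX, hrR⟩)
  have h3 := lo_lt_hi g i
  have h4 := lo_lt_hi g c₀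
  rw [mem_arc_true] at hr
  rw [Interlaced] at h1
  have hne : ∀ a b : Fin (2 * n), cr g a = i → cr g b = c₀ → i ≠ c₀ → (a : ℕ) ≠ b := by
    intro a b ha hb hic hab
    apply hic
    rw [← ha, ← hb, Fin.ext hab]
  simp only [Fin.lt_def] at h1 h3 h4 hr
  by_cases hic : i = c₀
  · rcases eq_lo_or_hi g r with h' | h'
    · rw [← hi_def, hic] at h'
      rw [h'] at hr
      omega
    · rw [← hi_def, hic] at h'
      rw [h'] at hr
      omega
  · have n1 := hne (lo g i) (lo g c₀) (cr_lo g i) (cr_lo g c₀) hic
    have n2 := hne (lo g i) (hi g c₀) (cr_lo g i) (cr_hi g c₀) hic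
    have n3 := hne (hi g i) (lo g c₀) (cr_hi g i) (cr_lo g c₀) hic
    have n4 := hne (hi g i) (hi g c₀) (cr_hi g i) (cr_hi g c₀) hic
    rcases eq_lo_or_hi g r with h' | h'
    · rw [← hi_def] at h'
      rw [h'] at hr
      omega
    · rw [← hi_def] at h'
      rw [h'] at hr
      omega

theorem coloring_const {g : Code n} {s : Fin n → Bool} (hn : 0 < n) {R : Finset (Fin n)}
    (hR : ∀ i ∈ R, ∀ j ∈ R, ¬ Interlaced g i j) (N : ℕ) : ∀ X : Finset (Fin n), X.card = N →
      NCond g s X → ∃ o₀ : Fin n → Bool, ∀ o : Fin n → Bool,
        (∀ i ∈ X, i ∉ R → o i = o₀ i) → ∀ (G : Type) [Group G] (col : Fin (2 * n) → G),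
          IsCol g s o X col → ∀ p q, col p = col q := by
  classical
  induction N using Nat.strong_induction_on with
  | _ N ih =>
    intro X hXN hX
    by_cases hXR : (X ∩ R).Nonempty
    swap
    · refine ⟨fst g, fun o ho G _ col hcol => descending hn (fun i hi' => ho i hi' ?_) hcol⟩
      intro h
      exact hXR ⟨i, Finset.mem_inter.2 ⟨hi', h⟩⟩
    obtain ⟨c₀, hc₀, hc₀R, hinner⟩ := exists_innermost hR hXR
    have hc₀' : c₀ ∉ rest g X c₀ := by
      intro h
      apply (mem_rest.1 h).2.1
      rw [mem_carc_true]
      exact ⟨le_rfl, (lo_lt_hi g c₀).le⟩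
    have hcard : (rest g X c₀).card < N := by
      rw [← hXN]
      exact Finset.card_lt_card ⟨Finset.filter_subset _ _, fun h => hc₀' (h hc₀)⟩
    obtain ⟨o₁, ho₁⟩ := ih _ hcard (rest g X c₀) rfl (ncond_rest hX hc₀)
    refine ⟨fun i => if i ∈ rest g X c₀ then o₁ i else
      if g (i, false) ∈ arc g c₀ true then
        (if g (i, true) ∈ arc g c₀ true then fst g i else false) else true, ?_⟩
    intro o ho G _ col hcol
    set a := lo g c₀ with ha
    set b := hi g c₀ with hb
    have hab : (a : ℕ) < b := lo_lt_hi g c₀
    set x := col a with hx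
    -- places of the open loop
    have hcra : cr g a = c₀ := cr_lo g c₀
    have hcrb : cr g b = c₀ := cr_hi g c₀
    have hopen : ∀ r ∈ arc g c₀ true, (a : ℕ) < r ∧ (r : ℕ) < b := by
      intro r hr
      rw [mem_arc_true] at hr
      exact hr
    have hcrne : ∀ r ∈ arc g c₀ true, cr g r ≠ c₀ := by
      intro r hr h
      have h1 := hopen r hr
      rcases eq_lo_or_hi g r with h' | h'
      · rw [h, ← ha] at h'
        rw [h'] at h1
        omega
      · rw [h, ← hb] at h'
        rw [h'] at h1
        omega
    -- the choice at the crossings which meet the loop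
    have hchoice : ∀ r ∈ arc g c₀ true, cr g r ∈ X →
        g (cr g r, o (cr g r)) ∈ arc g c₀ true ∧
        (mate g r ∈ arc g c₀ true → o (cr g r) = fst g (cr g r)) := by
      intro r hr hrX
      have h1 : cr g r ∉ R := hinner r hr hrX
      have h2 : cr g r ∉ rest g X c₀ := fun h =>
        (rest_iff.1 h).2.1 (arc_subset_carc g c₀ true hr)
      have h3 := ho (cr g r) hrX h1
      simp only [if_neg h2] at h3
      obtain ⟨⟨i, κ⟩, rfl⟩ := g.surjective r
      rw [cr_apply] at h3 ⊢
      rw [mate_apply]
      by_cases hf : g (i, false) ∈ arc g c₀ true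
      · by_cases ht : g (i, true) ∈ arc g c₀ true
        · rw [if_pos hf, if_pos ht] at h3
          refine ⟨?_, fun _ => h3⟩
          cases h4 : o i
          · exact hf
          · exact ht
        · rw [if_pos hf, if_neg ht] at h3
          rw [h3]
          refine ⟨hf, ?_⟩
          cases κ
          · intro h; exact absurd h ht
          · exact absurd hr ht
      · rw [if_neg hf] at h3
        rw [h3]
        cases κ
        · exact absurd hr hf
        · refine ⟨hr, ?_⟩
          intro h
          exact absurd h hf
    -- step 1: one value on the loop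
    have step1 : ∀ (m : ℕ) (r : Fin (2 * n)), (r : ℕ) = m → (a : ℕ) ≤ r → (r : ℕ) < b →
        col r = x := by
      intro m
      induction m using Nat.strong_induction_on with
      | _ m ih2 =>
        intro r hrm har hrb
        rcases eq_or_lt_of_le har with h0 | h0
        · have : r = a := Fin.ext h0.symm
          rw [this]
        have hr : r ∈ arc g c₀ true := by
          rw [mem_arc_true]
          exact ⟨h0, hrb⟩
        have hp := prv_val r
        rw [if_neg (by omega)] at hp
        have h1 : col (prv r) = x := ih2 (prv r : ℕ) (by omega) (prv r) rfl (by omega) (by omega)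
        by_cases hrX : cr g r ∈ X
        · obtain ⟨hc1, hc2⟩ := hchoice r hr hrX
          obtain ⟨⟨i, κ⟩, rfl⟩ := g.surjective r
          rw [cr_apply] at hrX hc1 hc2
          rw [mate_apply] at hc2
          by_cases hκ : κ = o i
          · subst hκ
            rw [hcol.ovr i hrX, h1]
          · have hκ' : κ = !o i := bool_not_of_ne hκ
            subst hκ'
            rw [Bool.not_not] at hc2
            have h2 := hc2 hc1
            have h3 : g (i, o i) = lo g i := by rw [h2]; exact (fst_spec g i).1
            have h4 : g (i, !o i) = hi g i := by rw [h2]; exact (fst_spec g i).2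
            have h5 : (g (i, o i) : ℕ) < g (i, !o i) := by
              rw [h3, h4]
              exact lo_lt_hi g i
            have h6 : col (g (i, o i)) = x :=
              ih2 (g (i, o i) : ℕ) (by omega) _ rfl (hopen _ hc1).1.le (hopen _ hc1).2
            rw [hcol.und i hrX, h6, h1]
            exact conj_self x _
        · rw [hcol.flat r hrX, h1]
    -- step 2: the edges before and after the loop
    have hpb : col (prv b) = x := by
      have hp := prv_val b
      rw [if_neg (by omega)] at hp
      exact step1 _ (prv b) rfl (by omega) (by omega)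
    have step2 : col (prv a) = x ∧ col b = x := by
      rcases lo_or g c₀ (o c₀) with ⟨h1, h2⟩ | ⟨h1, h2⟩
      · rw [← ha] at h1
        rw [← hb] at h2
        have e1 := hcol.ovr c₀ hc₀
        have e2 := hcol.und c₀ hc₀
        rw [h1] at e1 e2
        rw [h2, hpb] at e2
        refine ⟨e1.symm, ?_⟩
        rw [e2]
        exact conj_self x _
      · rw [← hb] at h1
        rw [← ha] at h2
        have e1 := hcol.ovr c₀ hc₀
        have e2 := hcol.und c₀ hc₀
        rw [h1] at e1 e2
        rw [hpb] at e1
        rw [h2, e1] at e2
        exact ⟨conj_self_iff x _ _ e2, e1⟩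
    -- step 3: the conjugated colouring
    let w : Fin (2 * n) → ℤ := wt g s X c₀
    have hw : ∀ r, w r = w (prv r) + eta g s X c₀ r := wt_step hX hc₀
    let col' : Fin (2 * n) → G := fun r => x ^ (-w r) * col r * (x ^ (-w r))⁻¹
    have heta0 : ∀ r, (¬ (r ∈ arc g c₀ false ∧ mate g r ∈ arc g c₀ true ∧ cr g r ∈ X)) →
        w r = w (prv r) := by
      intro r hr
      rw [hw r, eta, if_neg hr, add_zero]
    have hcol' : IsCol g s o (rest g X c₀) col' := by
      refine ⟨fun r hr => ?_, fun i hi' => ?_, fun i hi' => ?_⟩
      · by_cases hrX : cr g r ∈ X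
        · by_cases hrc : cr g r = c₀
          · -- the crossing `c₀`
            have h1 : w r = w (prv r) := by
              apply heta0
              rintro ⟨-, h, -⟩
              exact hcrne _ h (by rw [cr_mate, hrc])
            have h2 : col r = x ∧ col (prv r) = x := by
              rcases eq_lo_or_hi g r with h' | h'
              · rw [hrc, ← ha] at h'
                rw [h']
                exact ⟨rfl, step2.1⟩
              · rw [hrc, ← hb] at h'
                rw [h']
                exact ⟨step2.2, hpb⟩
            simp only [col']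
            rw [h1, h2.1, h2.2]
          · by_cases hr1 : r ∈ arc g c₀ true
            · -- a place of the loop
              have h1 : w r = w (prv r) := by
                apply heta0
                rintro ⟨h, -, -⟩
                rw [← not_mem_carc_iff] at h
                exact h (arc_subset_carc g c₀ true hr1)
              have h3 := hopen r hr1
              have hp := prv_val r
              rw [if_neg (by omega)] at hp
              have h4 : col r = x := step1 _ r rfl h3.1.le h3.2
              have h5 : col (prv r) = x := step1 _ (prv r) rfl (by omega) (by omega)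
              simp only [col']
              rw [h1, h4, h5]
            · -- a place off the loop whose mate is on the loop
              have hm : mate g r ∈ arc g c₀ true := by
                by_contra hm
                apply hr
                have h1 : r ∉ carc g c₀ true := by
                  intro h
                  rw [mem_carc_true] at h
                  rw [mem_arc_true] at hr1
                  rcases eq_or_lt_of_le h.1 with h' | h'
                  · exact hrc (by rw [← h', cr_lo])
                  · rcases eq_or_lt_of_le h.2 with h'' | h''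
                    · exact hrc (by rw [h'', cr_hi])
                    · exact hr1 ⟨h', h''⟩
                exact rest_iff.2 ⟨hrX, h1,
                  not_mem_loop_of_open hm (by rwa [mate_mate])⟩
              have hr2 : r ∈ arc g c₀ false := by
                rw [← not_mem_carc_iff]
                intro h
                rw [mem_carc_true] at h
                rw [mem_arc_true] at hr1
                rcases eq_or_lt_of_le h.1 with h' | h'
                · exact hrc (by rw [← h', cr_lo])
                · rcases eq_or_lt_of_le h.2 with h'' | h''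
                  · exact hrc (by rw [h'', cr_hi])
                  · exact hr1 ⟨h', h''⟩
              have hwr := hw r
              rw [eta, if_pos ⟨hr2, hm, hrX⟩] at hwr
              have hch := (hchoice (mate g r) hm (by rwa [cr_mate])).1
              have h3 := hopen _ hm
              have h4 : col (mate g r) = x := step1 _ _ rfl h3.1.le h3.2
              obtain ⟨⟨i, κ⟩, rfl⟩ := g.surjective r
              rw [cr_mate, cr_apply] at hch
              rw [cr_apply] at hrX
              rw [mate_apply] at h4
              have hκ : κ = !o i := by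
                by_contra hne
                have : κ = o i := bool_of_ne_not hne
                rw [this] at hr1
                exact hr1 hch
              subst hκ
              rw [Bool.not_not] at h4
              have h5 := hcol.und i hrX
              rw [h4] at h5
              have h6 : sg g s (g (i, !o i)) = eps s o i := by
                rw [sg_apply, eps, signs]
                cases s i <;> cases o i <;> simp
              rw [h6] at hwr
              simp only [col']
              rw [h5, hwr]
              group
        · have h1 : w r = w (prv r) := heta0 r fun h => hrX h.2.2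
          simp only [col']
          rw [h1, hcol.flat r hrX]
      · obtain ⟨hiX, h1, h2⟩ := mem_rest.1 hi'
        have h3 : w (g (i, o i)) = w (prv (g (i, o i))) := by
          apply heta0
          rintro ⟨-, h, -⟩
          rw [mate_apply] at h
          have h4 := arc_subset_carc g c₀ true h
          rcases lo_or g i (!o i) with ⟨h5, -⟩ | ⟨h5, -⟩
          · rw [h5] at h4
            exact h1 h4
          · rw [h5] at h4
            exact h2 h4
        simp only [col']
        rw [h3, hcol.ovr i hiX]
      · obtain ⟨hiX, h1, h2⟩ := mem_rest.1 hi'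
        have h3 : w (g (i, !o i)) = w (prv (g (i, !o i))) := by
          apply heta0
          rintro ⟨-, h, -⟩
          rw [mate_apply, Bool.not_not] at h
          have h4 := arc_subset_carc g c₀ true h
          rcases lo_or g i (o i) with ⟨h5, -⟩ | ⟨h5, -⟩
          · rw [h5] at h4
            exact h1 h4
          · rw [h5] at h4
            exact h2 h4
        have h5 : w (g (i, !o i)) = w (g (i, o i)) := by
          have h6 := wt_mate hX hc₀ hi'
          rcases lo_or g i (o i) with ⟨h7, h8⟩ | ⟨h7, h8⟩
          · rw [h7, h8]
            exact h6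
          · rw [h7, h8]
            exact h6.symm
        simp only [col']
        rw [← h3, h5, hcol.und i hiX, conj_zpow, conj_zpow]
        group
    have hconst := ho₁ o (fun i hi' hiR => by
      have := ho i (mem_rest.1 hi').1 hiR
      simp only [if_pos hi'] at this
      exact this) G col' hcol'
    have hval : ∀ p, col' p = x := by
      intro p
      rw [hconst p (prv a)]
      simp only [col']
      rw [step2.1]
      group
    have hfin : ∀ p, col p = x := by
      intro p
      have h1 := hval p
      simp only [col'] at h1
      have h2 : col p = (x ^ (-w p))⁻¹ * (x ^ (-w p) * col p * (x ^ (-w p))⁻¹) *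
          x ^ (-w p) := by
        group
      rw [h1] at h2
      rw [h2]
      group
    intro p q
    rw [hfin p, hfin q]

end Pool.Agent.GaussJones.Grp
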