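import Pool.Agent.Helper96.GJ.Base

/-! Many disjoint independent sets in a digraph of small out-degree. -/

namespace Pool.Agent.GaussJones

open Finset

variable {m : ℕ}

/-- Independent set in a relation with out-degrees at most `H`. -/
theorem exists_indep (r : Fin m → Fin m → Prop) [DecidableRel r] (H : ℕ) (T : Finset (Fin m))
    (hT : ∀ k ∈ T, (univ.filter fun l => r k l).card ≤ H) :
    ∃ K ⊆ T, (∀ k ∈ K, ∀ l ∈ K, k ≠ l → ¬ r k l) ∧ T.card ≤ K.card * (2 * H + 1) := by
  classical
  induction T using Finset.strongInduction with
  | H T ih =>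
    by_cases hne : T.Nonempty
    swap
    · rw [Finset.not_nonempty_iff_eq_empty] at hne
      subst hne
      exact ⟨∅, Finset.Subset.refl _, by simp, by simp⟩
    -- find a vertex of total degree at most 2H
    obtain ⟨k, hkT, hk⟩ : ∃ k ∈ T, (T.filter fun l => r l k).card ≤ H := by
      by_contra hcon
      push Not at hcon
      have h1 : ∑ k ∈ T, (T.filter fun l => r l k).card = ∑ l ∈ T, (T.filter fun k => r l k).card := by
        simp only [Finset.card_filter]
        exact Finset.sum_comm
      have h2 : ∑ l ∈ T, (T.filter fun k => r l k).card ≤ T.card * H := by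
        rw [← smul_eq_mul]
        apply Finset.sum_le_card_nsmul
        intro l hl
        refine le_trans (Finset.card_le_card ?_) (hT l hl)
        intro x hx
        simp only [Finset.mem_filter, Finset.mem_univ, true_and] at hx ⊢
        exact hx.2
      have h3 : T.card * (H + 1) ≤ ∑ k ∈ T, (T.filter fun l => r l k).card := by
        rw [← smul_eq_mul]
        apply Finset.card_nsmul_le_sum
        intro k hk
        exact hcon k hk
      have h4 : 0 < T.card := Finset.card_pos.mpr hne
      have : T.card * (H + 1) ≤ T.card * H := by omega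
      nlinarith
    set B := (T.filter fun l => r l k) ∪ (T.filter fun l => r k l) ∪ {k} with hB
    have hBc : B.card ≤ 2 * H + 1 := by
      calc B.card ≤ ((T.filter fun l => r l k) ∪ (T.filter fun l => r k l)).card + ({k} : Finset (Fin m)).card :=
            Finset.card_union_le _ _
        _ ≤ ((T.filter fun l => r l k).card + (T.filter fun l => r k l).card) + 1 := by
            gcongr
            · exact Finset.card_union_le _ _
            · simp
        _ ≤ (H + H) + 1 := by
            gcongr
            refine le_trans (Finset.card_le_card ?_) (hT k hkT)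
            intro x hx
            simp only [Finset.mem_filter, Finset.mem_univ, true_and] at hx ⊢
            exact hx.2
        _ = 2 * H + 1 := by ring
    have hss : T \ B ⊂ T := by
      refine ⟨Finset.sdiff_subset, fun h => ?_⟩
      have := h hkT
      simp [hB] at this
    obtain ⟨K, hKT, hKi, hKc⟩ := ih (T \ B) hss (fun x hx => hT x (Finset.mem_sdiff.mp hx).1)
    have hkK : k ∉ K := by
      intro h
      have := (Finset.mem_sdiff.mp (hKT h)).2
      simp [hB] at this
    refine ⟨insert k K, ?_, ?_, ?_⟩
    · intro x hx
      rcases Finset.mem_insert.mp hx with h | h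
      · exact h ▸ hkT
      · exact (Finset.mem_sdiff.mp (hKT h)).1
    · intro a ha b hb hab
      rcases Finset.mem_insert.mp ha with ha' | ha' <;> rcases Finset.mem_insert.mp hb with hb' | hb'
      · exact absurd (ha'.trans hb'.symm) hab
      · subst ha'
        intro hr
        have h := Finset.mem_sdiff.mp (hKT hb')
        apply h.2
        simp only [hB, Finset.mem_union, Finset.mem_filter, Finset.mem_singleton]
        exact Or.inl (Or.inr ⟨h.1, hr⟩)
      · subst hb'
        intro hr
        have h := Finset.mem_sdiff.mp (hKT ha')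
        apply h.2
        simp only [hB, Finset.mem_union, Finset.mem_filter, Finset.mem_singleton]
        exact Or.inl (Or.inl ⟨h.1, hr⟩)
      · exact hKi a ha' b hb' hab
    · rw [Finset.card_insert_of_notMem hkK]
      have h1 : T.card ≤ (T \ B).card + B.card := by
        have := Finset.card_le_card_sdiff_add_card (s := T) (t := B)
        exact this
      nlinarith

/-- A family of disjoint independent sets with `s` elements each which covers half of `T`. -/
theorem exists_family (r : Fin m → Fin m → Prop) [DecidableRel r] (H s : ℕ) (hs : 0 < s)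
    (T : Finset (Fin m)) (hT : ∀ k ∈ T, (univ.filter fun l => r k l).card ≤ H)
    (hsT : 2 * (s * (2 * H + 1)) ≤ T.card) :
    ∃ F : Finset (Finset (Fin m)), (∀ K ∈ F, K ⊆ T) ∧ (∀ K ∈ F, K.card = s) ∧
      (∀ K ∈ F, ∀ k ∈ K, ∀ l ∈ K, k ≠ l → ¬ r k l) ∧
      ((F : Set (Finset (Fin m))).PairwiseDisjoint id) ∧ T.card ≤ 2 * (F.card * s) := by
  classical
  -- a maximal family
  set P : Finset (Finset (Fin m)) → Prop := fun F => (∀ K ∈ F, K ⊆ T) ∧ (∀ K ∈ F, K.card = s) ∧
      (∀ K ∈ F, ∀ k ∈ K, ∀ l ∈ K, k ≠ l → ¬ r k l) ∧
      ((F : Set (Finset (Fin m))).PairwiseDisjoint id) with hP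
  obtain ⟨F, hF, hmax⟩ := Finset.exists_max_image (univ.filter fun F => P F) Finset.card
    ⟨∅, by simp [hP]⟩
  have hF' : P F := (Finset.mem_filter.mp hF).2
  obtain ⟨h1, h2, h3, h4⟩ := hF'
  refine ⟨F, h1, h2, h3, h4, ?_⟩
  by_contra hcon
  push Not at hcon
  have hUc : (F.biUnion id).card = F.card * s := by
    rw [Finset.card_biUnion (fun x hx y hy hxy => h4 hx hy hxy)]
    simp only [id]
    rw [Finset.sum_congr rfl (fun x hx => h2 x hx)]
    simp
  have hrest : s * (2 * H + 1) ≤ (T \ F.biUnion id).card := by
    have h5 : T.card ≤ (T \ F.biUnion id).card + (F.biUnion id).card :=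
      Finset.card_le_card_sdiff_add_card
    omega
  obtain ⟨K, hKT, hKi, hKc⟩ := exists_indep r H (T \ F.biUnion id)
    (fun x hx => hT x (Finset.mem_sdiff.mp hx).1)
  have hKs : s ≤ K.card := by
    have : s * (2 * H + 1) ≤ K.card * (2 * H + 1) := le_trans hrest hKc
    exact Nat.le_of_mul_le_mul_right this (by omega)
  obtain ⟨K', hK'K, hK's⟩ := Finset.exists_subset_card_eq hKs
  have hK'F : K' ∉ F := by
    intro h
    have hne : K'.Nonempty := Finset.card_pos.mp (by omega)
    obtain ⟨x, hx⟩ := hne
    have := (Finset.mem_sdiff.mp (hKT (hK'K hx))).2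
    exact this (Finset.mem_biUnion.mpr ⟨K', h, hx⟩)
  have hPn : P (insert K' F) := by
    refine ⟨?_, ?_, ?_, ?_⟩
    · intro L hL
      rcases Finset.mem_insert.mp hL with h | h
      · subst h
        exact fun x hx => (Finset.mem_sdiff.mp (hKT (hK'K hx))).1
      · exact h1 L h
    · intro L hL
      rcases Finset.mem_insert.mp hL with h | h
      · subst h; exact hK's
      · exact h2 L h
    · intro L hL
      rcases Finset.mem_insert.mp hL with h | h
      · subst h
        intro a ha b hb hab
        exact hKi a (hK'K ha) b (hK'K hb) hab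
      · exact h3 L h
    · rw [Finset.coe_insert]
      apply Set.PairwiseDisjoint.insert h4
      intro L hL _
      simp only [id]
      rw [Finset.disjoint_left]
      intro x hx hxL
      have := (Finset.mem_sdiff.mp (hKT (hK'K hx))).2
      exact this (Finset.mem_biUnion.mpr ⟨L, hL, hxL⟩)
  have := hmax (insert K' F) (by simp [hPn])
  rw [Finset.card_insert_of_notMem hK'F] at this
  omega

end Pool.Agent.GaussJones
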