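import Pool.Agent.Helper96.GJ.Avg
import Pool.Agent.Helper96.GJ.Indep

/-! For a square integer matrix with nonzero diagonal, most of the random linear forms do not
vanish, with high probability. -/

namespace Pool.Agent.GaussJones

open Finset

variable {m : ℕ}

/-- The linear Littlewood-Offord inequality with the constant `C`. -/
def LinearLO (C : ℝ) : Prop := ∀ (ι : Type) [Fintype ι] [DecidableEq ι] (a : ι → ℤ)
    (c : ℤ) (N : ℕ), 0 < N → N ≤ (univ.filter fun i => a i ≠ 0).card →
    ((univ.filter fun x : ι → Bool => (∑ i, a i * sg (x i)) = c).card : ℝ) ≤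
      C / Real.sqrt N * 2 ^ Fintype.card ι

theorem pair_LO {C : ℝ} (hC : LinearLO C) (a : Fin m → ℤ) (N : ℕ) (hN : 0 < N)
    (hNa : N ≤ (univ.filter fun i => a i ≠ 0).card) :
    ((univ.filter fun v : Fin m → Bool × Bool => (∑ l, a l * df (v l)) = 0).card : ℝ) ≤
      C / Real.sqrt N * 4 ^ m := by
  classical
  have h := hC (Fin m ⊕ Fin m) (Sum.elim a (fun l => - a l)) 0 N hN (by
    refine le_trans hNa ?_
    refine Finset.card_le_card_of_injOn Sum.inl ?_ (fun x _ y _ h => Sum.inl_injective h)
    intro x hx
    simpa using hx)
  have hcard : Fintype.card (Fin m ⊕ Fin m) = 2 * m := by simp; ring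
  rw [hcard, pow_mul] at h
  norm_num at h
  refine le_trans ?_ h
  norm_cast
  refine Finset.card_le_card_of_injOn (fun v => Sum.elim (fun l => (v l).1) (fun l => (v l).2)) ?_ ?_
  · intro v hv
    simp only [Finset.coe_filter, Finset.mem_univ, true_and, Set.mem_ofPred_eq] at hv ⊢
    simp only [Sum.elim_inl, Sum.elim_inr]
    rw [← hv, ← Finset.sum_neg_distrib, ← Finset.sum_add_distrib]
    apply Finset.sum_congr rfl
    intro l _
    simp only [df]
    ring
  · intro v _ v' _ h
    funext l
    have h1 := congrFun h (Sum.inl l)
    have h2 := congrFun h (Sum.inr l)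
    simp only [Sum.elim_inl, Sum.elim_inr] at h1 h2
    exact Prod.ext h1 h2

/-- number of forms which do not vanish at `v` -/
def Nz (a : Fin m → Fin m → ℤ) (v : Fin m → Bool × Bool) : ℕ :=
  (univ.filter fun k => Lf a k v ≠ 0).card

theorem few_total {C : ℝ} (hC0 : 0 ≤ C) (hC : LinearLO C) (a : Fin m → Fin m → ℤ)
    (ha : ∀ k, a k k ≠ 0) (s H : ℕ) (hs : 0 < s) (hH : 0 < H)
    (hsm : 4 * (16 * s * (2 * H + 1)) ≤ m) :
    ((univ.filter fun v => 64 * Nz a v < m).card : ℝ) ≤
      4 ^ m * (2 * (C / Real.sqrt H) + m * (1 / 200) ^ s) := by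
  classical
  set T' := univ.filter fun k : Fin m => H ≤ (univ.filter fun l => a k l ≠ 0).card with hT'
  set T := univ.filter fun k : Fin m => ¬ H ≤ (univ.filter fun l => a k l ≠ 0).card with hT
  have hTT : T'.card + T.card = m := by
    have := Finset.card_filter_add_card_filter_not (s := (univ : Finset (Fin m)))
      (fun k : Fin m => H ≤ (univ.filter fun l => a k l ≠ 0).card)
    simpa [hT, hT'] using this
  have hm0 : 0 < m := by
    have : 0 < 4 * (16 * s * (2 * H + 1)) := by positivity
    omega
  have hA0 : 0 ≤ 2 * (C / Real.sqrt H) := by positivity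
  have hB0 : (0:ℝ) ≤ m * (1 / 200) ^ s := by positivity
  by_cases hcase : m ≤ 2 * T'.card
  · -- heavy case
    have hT'0 : 0 < T'.card := by omega
    set B := univ.filter fun v => 64 * Nz a v < m with hB
    have h1 : ∀ v ∈ B, (T'.card : ℝ) / 2 ≤ ((T'.filter fun k => Lf a k v = 0).card : ℝ) := by
      intro v hv
      have hv' : 64 * Nz a v < m := (Finset.mem_filter.mp hv).2
      have h2 : (T'.filter fun k => Lf a k v ≠ 0).card ≤ Nz a v := by
        apply Finset.card_le_card
        intro k hk
        simp only [Finset.mem_filter, Finset.mem_univ, true_and] at hk ⊢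
        exact hk.2
      have h3 := Finset.card_filter_add_card_filter_not (s := T') (fun k : Fin m => Lf a k v = 0)
      have h4 : T'.card ≤ 2 * (T'.filter fun k => Lf a k v = 0).card := by
        have h5 : (T'.filter fun k => ¬ Lf a k v = 0).card ≤ Nz a v := h2
        omega
      have h6 : (T'.card : ℝ) ≤ 2 * ((T'.filter fun k => Lf a k v = 0).card : ℝ) := by
        exact_mod_cast h4
      linarith
    have h2 : (B.card : ℝ) * ((T'.card : ℝ) / 2) ≤
        ∑ k ∈ T', ((univ.filter fun v : Fin m → Bool × Bool => Lf a k v = 0).card : ℝ) := by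
      calc (B.card : ℝ) * ((T'.card : ℝ) / 2) = ∑ _v ∈ B, (T'.card : ℝ) / 2 := by simp
        _ ≤ ∑ v ∈ B, ((T'.filter fun k => Lf a k v = 0).card : ℝ) := Finset.sum_le_sum h1
        _ ≤ ∑ v : Fin m → Bool × Bool, ((T'.filter fun k => Lf a k v = 0).card : ℝ) := by
            apply Finset.sum_le_sum_of_subset_of_nonneg (Finset.subset_univ _)
            intro v _ _
            positivity
        _ = ∑ k ∈ T', ((univ.filter fun v : Fin m → Bool × Bool => Lf a k v = 0).card : ℝ) := by
            simp only [Finset.card_filter]
            push_cast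
            exact Finset.sum_comm
    have h3 : ∑ k ∈ T', ((univ.filter fun v : Fin m → Bool × Bool => Lf a k v = 0).card : ℝ) ≤
        T'.card * (C / Real.sqrt H * 4 ^ m) := by
      rw [← nsmul_eq_mul]
      apply Finset.sum_le_card_nsmul
      intro k hk
      exact pair_LO hC (a k) H hH (Finset.mem_filter.mp hk).2
    have h4 : (0:ℝ) < T'.card := by exact_mod_cast hT'0
    have h5 : (B.card : ℝ) ≤ 2 * (C / Real.sqrt H * 4 ^ m) := by
      have h6 : (B.card : ℝ) * ((T'.card : ℝ) / 2) ≤ T'.card * (C / Real.sqrt H * 4 ^ m) :=
        h2.trans h3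
      have h7 : (T'.card : ℝ) * ((B.card : ℝ) / 2) ≤ T'.card * (C / Real.sqrt H * 4 ^ m) := by
        calc (T'.card : ℝ) * ((B.card : ℝ) / 2) = (B.card : ℝ) * ((T'.card : ℝ) / 2) := by ring
          _ ≤ _ := h6
      have := le_of_mul_le_mul_left h7 h4
      linarith
    calc (B.card : ℝ) ≤ 2 * (C / Real.sqrt H * 4 ^ m) := h5
      _ = 4 ^ m * (2 * (C / Real.sqrt H)) := by ring
      _ ≤ _ := by
          apply mul_le_mul_of_nonneg_left _ (by positivity)
          linarith
  · -- light case
    push Not at hcase
    have hTm : m ≤ 2 * T.card := by omega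
    obtain ⟨F, hF1, hF2, hF3, hF4, hF5⟩ := exists_family (fun k l => a k l ≠ 0) H (16 * s)
      (by omega) T (by
        intro k hk
        have := (Finset.mem_filter.mp hk).2
        omega) (by omega)
    have hcard_le : F.card ≤ m := by
      have hUc : (F.biUnion id).card = F.card * (16 * s) := by
        rw [Finset.card_biUnion (fun x hx y hy hxy => hF4 hx hy hxy)]
        simp only [id]
        rw [Finset.sum_congr rfl (fun x hx => hF2 x hx)]
        simp
      have h1 : (F.biUnion id).card ≤ m := by
        simpa using Finset.card_le_univ (F.biUnion id)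
      nlinarith
    have hsub : (univ.filter fun v => 64 * Nz a v < m) ⊆
        F.biUnion fun K => univ.filter fun v : Fin m → Bool × Bool =>
          (K.filter fun k => Lf a k v ≠ 0).card ≤ s := by
      intro v hv
      have hv' : 64 * Nz a v < m := (Finset.mem_filter.mp hv).2
      by_contra hcon
      simp only [Finset.mem_biUnion, Finset.mem_filter, Finset.mem_univ, true_and, not_exists,
        not_and, not_le] at hcon
      have h1 : F.card * s ≤ Nz a v := by
        have h2 : ∑ K ∈ F, (K.filter fun k => Lf a k v ≠ 0).card ≤ Nz a v := by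
          unfold Nz
          rw [← Finset.card_biUnion]
          · apply Finset.card_le_card
            intro k hk
            simp only [Finset.mem_biUnion, Finset.mem_filter, Finset.mem_univ, true_and] at hk ⊢
            obtain ⟨K, _, _, h⟩ := hk
            exact h
          · intro K hK K' hK' hne
            exact Finset.disjoint_filter_filter (hF4 hK hK' hne)
        refine le_trans ?_ h2
        rw [← smul_eq_mul]
        apply Finset.card_nsmul_le_sum
        intro K hK
        exact le_of_lt (hcon K hK)
      have h3 : F.card * (16 * s) = 16 * (F.card * s) := by ring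
      omega
    calc ((univ.filter fun v => 64 * Nz a v < m).card : ℝ)
        ≤ ((F.biUnion fun K => univ.filter fun v : Fin m → Bool × Bool =>
          (K.filter fun k => Lf a k v ≠ 0).card ≤ s).card : ℝ) := by
            exact_mod_cast Finset.card_le_card hsub
      _ ≤ ∑ K ∈ F, ((univ.filter fun v : Fin m → Bool × Bool =>
          (K.filter fun k => Lf a k v ≠ 0).card ≤ s).card : ℝ) := by
            exact_mod_cast Finset.card_biUnion_le
      _ ≤ F.card * (4 ^ m * (1 / 200) ^ s) := by
            rw [← nsmul_eq_mul]
            apply Finset.sum_le_card_nsmul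
            intro K hK
            apply few_bound a ha s K _ (hF2 K hK)
            intro k hk l hl hkl
            have := hF3 K hK k hk l hl hkl
            simpa using this
      _ ≤ m * (4 ^ m * (1 / 200) ^ s) := by
            apply mul_le_mul_of_nonneg_right _ (by positivity)
            exact_mod_cast hcard_le
      _ = 4 ^ m * (m * (1 / 200) ^ s) := by ring
      _ ≤ _ := by
          apply mul_le_mul_of_nonneg_left _ (by positivity)
          linarith

end Pool.Agent.GaussJones
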