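import Pool.Agent.Helper96.GJ.Color

/-! If all Wirtinger colourings are constant, the knot group is infinite cyclic; a lower bound
for the number of unknots among the diagrams with a given planar shadow. -/

set_option autoImplicit false

namespace Pool.Agent.GaussJones.Grp

variable {n : ℕ}

theorem unknotted_of_const {g : Code n} {s o : Fin n → Bool} (hn : 0 < n)
    (h : ∀ (G : Type) [Group G] (col : Fin (2 * n) → G), IsCol g s o Finset.univ col →
      ∀ p q, col p = col q) : Unknotted g s o := by
  have h2n : 0 < 2 * n := by omega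
  let x₀ : KnotGroup g s o := PresentedGroup.of ⟨0, h2n⟩
  have hcol : IsCol g s o Finset.univ (fun p => (PresentedGroup.of p : KnotGroup g s o)) := by
    refine ⟨fun r hr => absurd (Finset.mem_univ _) hr, fun i _ => ?_, fun i _ => ?_⟩
    · have h1 : PresentedGroup.mk (relators g s o) (FreeGroup.of (outEdge g (i, o i)) *
          (FreeGroup.of (inEdge g (i, o i)))⁻¹) = 1 :=
        PresentedGroup.one_of_mem ⟨i, Or.inl rfl⟩
      rw [map_mul, map_inv, mul_inv_eq_one] at h1
      exact h1
    · have h1 : PresentedGroup.mk (relators g s o) (FreeGroup.of (outEdge g (i, !o i)) *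
          (FreeGroup.of (outEdge g (i, o i)) ^ eps s o i * FreeGroup.of (inEdge g (i, !o i)) *
          FreeGroup.of (outEdge g (i, o i)) ^ (-eps s o i))⁻¹) = 1 :=
        PresentedGroup.one_of_mem ⟨i, Or.inr rfl⟩
      rw [map_mul, map_inv, mul_inv_eq_one, map_mul, map_mul, map_zpow, map_zpow] at h1
      exact h1
  have hx : ∀ p, (PresentedGroup.of p : KnotGroup g s o) = x₀ := fun p => h _ _ hcol p _
  let f : KnotGroup g s o →* Multiplicative ℤ :=
    PresentedGroup.toGroup (f := fun _ => Multiplicative.ofAdd (1 : ℤ)) (by
      rintro r ⟨i, rfl | rfl⟩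
      · simp
      · simp)
  let f' : Multiplicative ℤ →* KnotGroup g s o := zpowersHom _ x₀
  refine ⟨MonoidHom.toMulEquiv f f' ?_ ?_⟩
  · ext p
    simp only [f, f', MonoidHom.coe_comp, Function.comp_apply, PresentedGroup.toGroup.of,
      MonoidHom.id_apply]
    rw [hx p, zpowersHom_apply]
    simp
  · ext
    simp only [f, f', MonoidHom.coe_comp, Function.comp_apply, MonoidHom.id_apply, x₀]
    rw [zpowersHom_apply]
    simp

/-- If the crossings of `R` are pairwise not interlaced, at least `2 ^ R.card` of the diagrams
with a given planar shadow are unknots. -/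
theorem card_unknotted {g : Code n} {s : Fin n → Bool} (hn : 0 < n) (hP : Planar g s)
    {R : Finset (Fin n)} (hR : ∀ i ∈ R, ∀ j ∈ R, ¬ Interlaced g i j) :
    2 ^ R.card ≤ Nat.card {o : Fin n → Bool // Unknotted g s o} := by
  classical
  obtain ⟨o₀, ho₀⟩ := coloring_const hn hR _ Finset.univ rfl (ncond_univ hn hP)
  let F : (R → Bool) → {o : Fin n → Bool // Unknotted g s o} := fun t =>
    ⟨fun i => if h : i ∈ R then t ⟨i, h⟩ else o₀ i,
      unknotted_of_const hn (ho₀ _ fun i _ hi' => dif_neg hi')⟩
  have hF : Function.Injective F := by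
    intro t t' htt
    ext i
    have := congrFun (congrArg Subtype.val htt) i
    simpa [F] using this
  have h1 := Nat.card_le_card_of_injective F hF
  rwa [Nat.card_eq_fintype_card, Fintype.card_fun, Fintype.card_bool, Fintype.card_coe] at h1

end Pool.Agent.GaussJones.Grp
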