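import Pool.Agent.Helper96.GJ.Main
import Pool.Agent.Helper96.GJ.Unknot

/-! A set `S` of crossings of a knot shadow such that a random choice at `S` gives a prescribed
polynomial `f` with small probability, while a suitable choice at `S` gives the unknot. -/

set_option autoImplicit false

namespace Pool.Agent.GaussJones

open Finset LaurentPolynomial Grp

variable {n : ℕ}

theorem main2 : ∃ C : ℝ, 1 ≤ C ∧ ∀ (n : ℕ) (g : Code n), 0 < n → ∃ S : Finset (Fin n),
    (Reduced g → twistRegions g ≤ 5 * S.card) ∧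
    (∀ (S' : Finset (Fin n)) (e₀ : Fin n → Bool) (P : ℤ[T;T⁻¹]), S ⊆ S' →
      (Nat.card {e : Fin n → Bool // (∀ i ∉ S', e i = e₀ i) ∧ fPoly g e = P} : ℝ) ≤
        C * ((1 + Real.log (S.card + 1)) / (S.card + 1)) ^ (1 / 4 : ℝ) * 2 ^ S'.card) ∧
    (∀ s : Fin n → Bool, Planar g s →
      ∃ o₀ : Fin n → Bool, ∀ o : Fin n → Bool, (∀ i ∈ S, o i = o₀ i) → Unknotted g s o) := by
  classical
  obtain ⟨C, hC0, hC⟩ := main1
  refine ⟨2 * C + 1, by linarith, fun n g hn => ?_⟩
  obtain ⟨m, u, w, hM, -, hind⟩ := exists_maximal g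
  set S : Finset (Fin n) := univ.image (Sum.elim u w) with hS
  have hScard : S.card = 2 * m := by
    rw [hS, Finset.card_image_of_injective _ hM.1, Finset.card_univ, Fintype.card_sum,
      Fintype.card_fin]
    ring
  have hmem : ∀ i, i ∉ S ↔ (∀ k, u k ≠ i) ∧ (∀ k, w k ≠ i) := by
    intro i
    simp only [hS, Finset.mem_image, Finset.mem_univ, true_and, Sum.exists, Sum.elim_inl,
      Sum.elim_inr, not_or, not_exists, ne_eq]
  refine ⟨S, fun hred => ?_, ?_, ?_⟩
  · have := twistRegions_le g hred S hind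
    omega
  · intro S' e₀ P hSS'
    rcases Nat.eq_zero_or_pos m with hm | hm
    · have hS0 : S.card = 0 := by omega
      rw [hS0]
      have h1 : (Nat.card {e : Fin n → Bool // (∀ i ∉ S', e i = e₀ i) ∧ fPoly g e = P} : ℝ) ≤
          2 ^ S'.card := by
        rw [Nat.card_eq_fintype_card, Fintype.card_subtype]
        have h2 : (univ.filter fun e : Fin n → Bool =>
            (∀ i ∉ S', e i = e₀ i) ∧ fPoly g e = P).card ≤
            (univ.filter fun e₁ : Fin n → Bool => ∀ i ∉ S', e₁ i = e₀ i).card := by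
          apply Finset.card_le_card
          intro e he
          simp only [Finset.mem_filter, Finset.mem_univ, true_and] at he ⊢
          exact he.1
        rw [card_agree] at h2
        exact_mod_cast h2
      refine h1.trans ?_
      simp only [Nat.cast_zero, zero_add, Real.log_one, add_zero, div_one, Real.one_rpow, mul_one]
      have h3 : (0 : ℝ) < 2 ^ S'.card := by positivity
      nlinarith
    · have hm1 : (1 : ℝ) ≤ m := by exact_mod_cast hm
      have hlm : 0 ≤ Real.log m := Real.log_nonneg hm1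
      have hScast : (S.card : ℝ) = 2 * m := by
        rw [hScard]
        push_cast
        ring
      have hlS : Real.log m ≤ Real.log (S.card + 1) := by
        apply Real.log_le_log (by linarith)
        rw [hScast]
        linarith
      have h3 : (1 + Real.log m) / m ≤ 3 * ((1 + Real.log (S.card + 1)) / (S.card + 1)) := by
        rw [div_le_iff₀ (by linarith)]
        have h4 : 3 * ((1 + Real.log ((S.card : ℝ) + 1)) / ((S.card : ℝ) + 1)) * m =
            (1 + Real.log ((S.card : ℝ) + 1)) * (3 * m / ((S.card : ℝ) + 1)) := by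
          field_simp
        rw [h4]
        have h5 : (1 : ℝ) ≤ 3 * m / ((S.card : ℝ) + 1) := by
          rw [hScast, le_div_iff₀ (by linarith)]
          linarith
        have h6 : 0 ≤ Real.log ((S.card : ℝ) + 1) := hlm.trans hlS
        nlinarith
      have h16 : ((1 + Real.log m) / m) ^ (1 / 4 : ℝ) ≤
          2 * ((1 + Real.log (S.card + 1)) / (S.card + 1)) ^ (1 / 4 : ℝ) := by
        have h6 : 0 ≤ Real.log ((S.card : ℝ) + 1) := hlm.trans hlS
        calc ((1 + Real.log m) / m) ^ (1 / 4 : ℝ)
            ≤ (16 * ((1 + Real.log ((S.card : ℝ) + 1)) / (S.card + 1))) ^ (1 / 4 : ℝ) := by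
              apply Real.rpow_le_rpow (by positivity) _ (by norm_num)
              refine h3.trans ?_
              have : 0 ≤ (1 + Real.log ((S.card : ℝ) + 1)) / (S.card + 1) := by positivity
              linarith
          _ = 16 ^ (1 / 4 : ℝ) * ((1 + Real.log ((S.card : ℝ) + 1)) / (S.card + 1)) ^
                (1 / 4 : ℝ) :=
              Real.mul_rpow (by norm_num) (by positivity)
          _ = 2 * ((1 + Real.log ((S.card : ℝ) + 1)) / (S.card + 1)) ^ (1 / 4 : ℝ) := by
              congr 1
              rw [show (16:ℝ) = 2 ^ (4:ℝ) by norm_num, ← Real.rpow_mul (by norm_num)]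
              norm_num
      refine (average (fun e => fPoly g e = P) S S' hSS'
        (C * ((1 + Real.log m) / m) ^ (1 / 4 : ℝ)) (fun e₁ => ?_) e₀).trans ?_
      · have h := hC n g P m u w e₁ hm hM
        have h4 : (4:ℝ) ^ m = 2 ^ S.card := by
          rw [hScard, pow_mul]; norm_num
        have hcongr : Nat.card {e : Fin n → Bool // (∀ i ∉ S, e i = e₁ i) ∧ fPoly g e = P} =
            Nat.card {e : Fin n → Bool //
              (∀ i, (∀ k, u k ≠ i) → (∀ k, w k ≠ i) → e i = e₁ i) ∧ fPoly g e = P} := by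
          apply Nat.card_congr
          apply Equiv.subtypeEquivRight
          intro e
          constructor
          · rintro ⟨h1, h2⟩
            exact ⟨fun i h3 h4 => h1 i ((hmem i).mpr ⟨h3, h4⟩), h2⟩
          · rintro ⟨h1, h2⟩
            exact ⟨fun i hi => h1 i ((hmem i).mp hi).1 ((hmem i).mp hi).2, h2⟩
        rw [hcongr, ← h4]
        exact h
      · have h7 : 0 ≤ ((1 + Real.log ((S.card : ℝ) + 1)) / (S.card + 1)) ^ (1 / 4 : ℝ) := by
          have h6 : 0 ≤ Real.log ((S.card : ℝ) + 1) := hlm.trans hlS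
          positivity
        have h8 : C * ((1 + Real.log m) / m) ^ (1 / 4 : ℝ) ≤
            (2 * C + 1) * ((1 + Real.log (S.card + 1)) / (S.card + 1)) ^ (1 / 4 : ℝ) := by
          nlinarith [mul_le_mul_of_nonneg_left h16 hC0]
        exact mul_le_mul_of_nonneg_right h8 (by positivity)
  · intro s hP
    obtain ⟨o₀, ho₀⟩ := coloring_const hn (R := Sᶜ) (s := s)
      (fun i hi' j hj' => hind i (by simpa using hi') j (by simpa using hj'))
      _ Finset.univ rfl (ncond_univ hn hP)
    refine ⟨o₀, fun o ho => unknotted_of_const hn (ho₀ o fun i _ hi' => ho i (by simpa using hi'))⟩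

/-- the number of over/under choices with a prescribed value on `S` -/
theorem card_of_choice {g : Code n} {s : Fin n → Bool} (S : Finset (Fin n)) (o₀ : Fin n → Bool)
    (h : ∀ o : Fin n → Bool, (∀ i ∈ S, o i = o₀ i) → Unknotted g s o) :
    2 ^ (n - S.card) ≤ Nat.card {o : Fin n → Bool // Unknotted g s o} := by
  classical
  let F : ((Sᶜ : Finset (Fin n)) → Bool) → {o : Fin n → Bool // Unknotted g s o} := fun t =>
    ⟨fun i => if hi' : i ∈ Sᶜ then t ⟨i, hi'⟩ else o₀ i,
      h _ fun i hi' => dif_neg (by simpa using hi')⟩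
  have hF : Function.Injective F := by
    intro t t' htt
    ext i
    have := congrFun (congrArg Subtype.val htt) i
    simpa [F] using this
  have h1 := Nat.card_le_card_of_injective F hF
  rwa [Nat.card_eq_fintype_card, Fintype.card_fun, Fintype.card_bool, Fintype.card_coe,
    Finset.card_compl, Fintype.card_fin] at h1

theorem card_signs (g : Code n) (s : Fin n → Bool) (P : ℤ[T;T⁻¹]) :
    Nat.card {o : Fin n → Bool // fPoly g (signs s o) = P} =
      Nat.card {e : Fin n → Bool // fPoly g e = P} := by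
  apply Nat.card_congr
  refine ⟨fun o => ⟨signs s o.1, o.2⟩, fun e => ⟨signs s e.1, ?_⟩, fun o => ?_, fun e => ?_⟩
  · have : signs s (signs s e.1) = e.1 := by
      ext i
      simp only [signs]
      cases s i <;> cases e.1 i <;> rfl
    rw [this]
    exact e.2
  · apply Subtype.ext
    ext i
    simp only [signs]
    cases s i <;> cases o.1 i <;> rfl
  · apply Subtype.ext
    ext i
    simp only [signs]
    cases s i <;> cases e.1 i <;> rfl

theorem size_bound {M y : ℝ} (hM : 1 ≤ M) (hy : 0 < y) (h : y ≤ (1 + Real.log M) / M) :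
    M ≤ 2 * (1 + Real.log (1 / y)) / y := by
  have hM0 : 0 < M := by linarith
  rw [le_div_iff₀ hM0] at h
  have hu : 0 < y * M := by positivity
  have h1 : Real.log (y * M) ≤ y * M / 2 := by
    have h2 := Real.log_le_sub_one_of_pos (show 0 < y * M / 2 by positivity)
    rw [Real.log_div hu.ne' two_ne_zero] at h2
    have h3 := Real.log_two_lt_d9
    linarith
  rw [Real.log_mul hy.ne' hM0.ne'] at h1
  rw [le_div_iff₀ hy, one_div, Real.log_inv]
  linarith

theorem main3 : ∃ C : ℝ, ∀ (n : ℕ) (g : Code n) (s : Fin n → Bool), 0 < n → Planar g s →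
    ∀ (P : ℤ[T;T⁻¹]) (δ : ℝ), 0 < δ →
      δ * 2 ^ n ≤ (Nat.card {o : Fin n → Bool // fPoly g (signs s o) = P} : ℝ) →
        Real.exp (-(C * (1 + Real.log (1 / δ)) / δ ^ 4)) * 2 ^ n ≤
          (Nat.card {o : Fin n → Bool // Unknotted g s o} : ℝ) := by
  classical
  obtain ⟨C, hC1, hC⟩ := main2
  refine ⟨8 * C ^ 4 * (1 + Real.log C), fun n g s hn hP P δ hδ hle => ?_⟩
  obtain ⟨S, -, hS1, hS2⟩ := hC n g hn
  obtain ⟨o₀, ho₀⟩ := hS2 s hP
  have hC0 : 0 < C := by linarith
  have hlC : 0 ≤ Real.log C := Real.log_nonneg hC1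
  have hpow : (0 : ℝ) < 2 ^ n := by positivity
  -- the proportion is at most one
  have hδ1 : δ ≤ 1 := by
    have h1 : (Nat.card {o : Fin n → Bool // fPoly g (signs s o) = P} : ℝ) ≤ 2 ^ n := by
      have h2 : Nat.card {o : Fin n → Bool // fPoly g (signs s o) = P} ≤ 2 ^ n := by
        rw [Nat.card_eq_fintype_card]
        refine (Fintype.card_subtype_le _).trans ?_
        rw [Fintype.card_fun, Fintype.card_bool, Fintype.card_fin]
      exact_mod_cast h2
    have h3 : δ * 2 ^ n ≤ 1 * 2 ^ n := by linarith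
    exact le_of_mul_le_mul_right h3 hpow
  have hlδ : 0 ≤ Real.log (1 / δ) := Real.log_nonneg (by rw [le_div_iff₀ hδ]; linarith)
  -- the bound for the proportion
  have h1 := hS1 Finset.univ (fun _ => true) P (Finset.subset_univ _)
  have h2 : Nat.card {e : Fin n → Bool // (∀ i ∉ (Finset.univ : Finset (Fin n)),
      e i = (fun _ => true : Fin n → Bool) i) ∧ fPoly g e = P} =
      Nat.card {e : Fin n → Bool // fPoly g e = P} := by
    apply Nat.card_congr
    apply Equiv.subtypeEquivRight
    intro e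
    simp
  rw [h2, ← card_signs g s P, Finset.card_univ, Fintype.card_fin] at h1
  set M : ℝ := S.card + 1 with hM
  have hM1 : 1 ≤ M := by
    rw [hM]
    have : (0 : ℝ) ≤ S.card := Nat.cast_nonneg _
    linarith
  have hlM : 0 ≤ Real.log M := Real.log_nonneg hM1
  have h3 : δ ≤ C * ((1 + Real.log M) / M) ^ (1 / 4 : ℝ) :=
    le_of_mul_le_mul_right (hle.trans h1) hpow
  have hB : 0 ≤ (1 + Real.log M) / M := by positivity
  have h4 : (δ / C) ^ 4 ≤ (1 + Real.log M) / M := by
    have h5 : δ / C ≤ ((1 + Real.log M) / M) ^ (1 / 4 : ℝ) := by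
      rw [div_le_iff₀ hC0]
      linarith
    calc (δ / C) ^ 4 ≤ (((1 + Real.log M) / M) ^ (1 / 4 : ℝ)) ^ 4 :=
          pow_le_pow_left₀ (by positivity) h5 4
      _ = (1 + Real.log M) / M := by
          rw [← Real.rpow_natCast, ← Real.rpow_mul hB]
          norm_num
  have h6 := size_bound hM1 (by positivity) h4
  have h7 : Real.log (1 / (δ / C) ^ 4) = 4 * (Real.log (1 / δ) + Real.log C) := by
    have : (1 : ℝ) / (δ / C) ^ 4 = ((1 / δ) * C) ^ 4 := by
      field_simp
    rw [this, Real.log_pow, Real.log_mul (by positivity) hC0.ne']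
    push_cast
    ring
  have h8 : M ≤ 8 * C ^ 4 * (1 + Real.log C) * (1 + Real.log (1 / δ)) / δ ^ 4 := by
    refine h6.trans ?_
    rw [h7]
    have h9 : 2 * (1 + 4 * (Real.log (1 / δ) + Real.log C)) / (δ / C) ^ 4 =
        2 * C ^ 4 * (1 + 4 * (Real.log (1 / δ) + Real.log C)) / δ ^ 4 := by
      field_simp
    rw [h9]
    apply div_le_div_of_nonneg_right _ (by positivity)
    have h10 : 1 + 4 * (Real.log (1 / δ) + Real.log C) ≤
        4 * ((1 + Real.log C) * (1 + Real.log (1 / δ))) := by
      nlinarith [mul_nonneg hlC hlδ]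
    have h11 : (0 : ℝ) ≤ 2 * C ^ 4 := by positivity
    nlinarith [mul_le_mul_of_nonneg_left h10 h11]
  -- the unknots
  have h12 : ((2 : ℝ) ^ (n - S.card)) ≤ (Nat.card {o : Fin n → Bool // Unknotted g s o} : ℝ) := by
    exact_mod_cast card_of_choice S o₀ ho₀
  refine le_trans ?_ h12
  have hSn : S.card ≤ n := by
    have := Finset.card_le_univ S
    rwa [Fintype.card_fin] at this
  have h13 : (2 : ℝ) ^ (n - S.card) * 2 ^ S.card = 2 ^ n := by
    rw [← pow_add, Nat.sub_add_cancel hSn]
  have h14 : Real.exp (-(8 * C ^ 4 * (1 + Real.log C) * (1 + Real.log (1 / δ)) / δ ^ 4)) *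
      2 ^ S.card ≤ 1 := by
    have h15 : ((2 : ℝ) ^ S.card) ≤ Real.exp (S.card) := by
      have h16 : (2 : ℝ) ≤ Real.exp 1 := by
        have := Real.add_one_le_exp (1 : ℝ)
        linarith
      calc (2 : ℝ) ^ S.card ≤ (Real.exp 1) ^ S.card := pow_le_pow_left₀ (by norm_num) h16 _
        _ = Real.exp (S.card) := by
            rw [← Real.exp_nat_mul, mul_one]
    calc Real.exp (-(8 * C ^ 4 * (1 + Real.log C) * (1 + Real.log (1 / δ)) / δ ^ 4)) *
        2 ^ S.card ≤ Real.exp (-(8 * C ^ 4 * (1 + Real.log C) * (1 + Real.log (1 / δ)) / δ ^ 4)) *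
          Real.exp (S.card) := mul_le_mul_of_nonneg_left h15 (Real.exp_pos _).le
      _ = Real.exp (-(8 * C ^ 4 * (1 + Real.log C) * (1 + Real.log (1 / δ)) / δ ^ 4) +
            S.card) := (Real.exp_add _ _).symm
      _ ≤ 1 := by
          rw [Real.exp_le_one_iff]
          have : (S.card : ℝ) ≤ M := by
            rw [hM]
            linarith
          linarith
  rw [← h13]
  have h17 : (0 : ℝ) < 2 ^ (n - S.card) := by positivity
  nlinarith [mul_le_mul_of_nonneg_left h14 h17.le]

end Pool.Agent.GaussJones
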