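import Pool.Agent.Helper96.GJ.Defs

/-! Planar shadows, over/under choices, and the knot group. -/

set_option autoImplicit false

namespace Pool.Agent.GaussJones

variable {n : ℕ}

/-- Sides of edges: `(p, true)` is the left and `(p, false)` the right side of the edge `p`.
The orientation `s` of the crossings of a shadow says which way the two strands cross: at the
crossing `i` the strand `y = (i, s i)` crosses the strand `x = (i, !s i)` from its right to its
left side. `Corner g s a b`: the sides `a` and `b` are adjacent in one of the four corners at a
crossing, so that they belong to the same face. -/
def Corner (g : Code n) (s : Fin n → Bool) (a b : Fin (2 * n) × Bool) : Prop :=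
  ∃ i : Fin n,
    (a = (outEdge g (i, !s i), true) ∧ b = (outEdge g (i, s i), false)) ∨
    (a = (outEdge g (i, s i), true) ∧ b = (inEdge g (i, !s i), true)) ∨
    (a = (inEdge g (i, !s i), false) ∧ b = (inEdge g (i, s i), true)) ∨
    (a = (inEdge g (i, s i), false) ∧ b = (outEdge g (i, !s i), false))

/-- The shadow with Gauss code `g` and crossing orientations `s` is planar: the surface got by
gluing discs to its faces is a sphere, i.e. there are `n + 2` faces (Euler's formula; there are
`n` crossings and `2 * n` edges). -/
def Planar (g : Code n) (s : Fin n → Bool) : Prop := Nat.card (Quot (Corner g s)) = n + 2

/-- Signs of the crossings of the diagram in which the passage `(i, o i)` is the over-passage: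
positive (`true`) if the under-strand crosses the over-strand from its right to its left. -/
def signs (s o : Fin n → Bool) : Fin n → Bool := fun i => s i != o i

/-- The sign of the crossing `i` as an integer. -/
def eps (s o : Fin n → Bool) (i : Fin n) : ℤ := if signs s o i = true then 1 else -1

/-- The Wirtinger relations of the diagram with over-passages `(i, o i)`: one generator for every
edge; the generators of the two edges of the over-passage agree, and the generator of the edge
which leaves the under-passage is the conjugate of the arriving one by the over-generator or its
inverse, according to the sign. -/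
def relators (g : Code n) (s o : Fin n → Bool) : Set (FreeGroup (Fin (2 * n))) :=
  {r | ∃ i : Fin n,
    r = FreeGroup.of (outEdge g (i, o i)) * (FreeGroup.of (inEdge g (i, o i)))⁻¹ ∨
    r = FreeGroup.of (outEdge g (i, !o i)) *
      (FreeGroup.of (outEdge g (i, o i)) ^ eps s o i * FreeGroup.of (inEdge g (i, !o i)) *
        FreeGroup.of (outEdge g (i, o i)) ^ (-eps s o i))⁻¹}

/-- The knot group of the diagram. -/
abbrev KnotGroup (g : Code n) (s o : Fin n → Bool) : Type := PresentedGroup (relators g s o)

/-- The knot group is infinite cyclic. For planar shadows this holds if and only if the diagram
represents the unknot (Dehn's lemma, Papakyriakopoulos). -/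
def Unknotted (g : Code n) (s o : Fin n → Bool) : Prop :=
  Nonempty (KnotGroup g s o ≃* Multiplicative ℤ)

end Pool.Agent.GaussJones
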