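import Pool.Agent.Helper96.GJ.GroupDefs

/-! Index functions of cycles in a planar shadow. -/

set_option autoImplicit false

namespace Pool.Agent.GaussJones.Grp

open Matrix

variable {n : ℕ}

/-- the crossing at a place -/
def cr (g : Code n) (r : Fin (2 * n)) : Fin n := (g.symm r).1

theorem cr_apply (g : Code n) (i : Fin n) (k : Bool) : cr g (g (i, k)) = i := by
  simp [cr]

/-- a function on the places which does not change from a place to the next one is constant -/
theorem const_of_step {α : Type} (hn : 0 < n) (f : Fin (2 * n) → α)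
    (h : ∀ r, f r = f ((finRotate (2 * n)).symm r)) : ∀ p q, f p = f q := by
  have h2n : 0 < 2 * n := by omega
  have key : ∀ (k : ℕ) (hk : k < 2 * n), f ⟨k, hk⟩ = f ⟨0, h2n⟩ := by
    intro k
    induction k with
    | zero => intro _; rfl
    | succ k ih =>
      intro hk
      rw [← ih (by omega), h ⟨k + 1, hk⟩]
      congr 1
      rw [Equiv.symm_apply_eq]
      obtain ⟨m, hm⟩ : ∃ m, 2 * n = m + 1 := ⟨2 * n - 1, by omega⟩
      have : ∀ (N : ℕ) (hN : N = m + 1) (h1 : k + 1 < N) (h2 : k < N),
          (⟨k + 1, h1⟩ : Fin N) = finRotate N ⟨k, h2⟩ := by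
        intro N hN h1 h2
        subst hN
        rw [finRotate_of_lt (by omega)]
      exact this _ hm hk (by omega)
  intro p q
  rw [key p.1 p.2, key q.1 q.2]

/-- the differences of the values of a function on the faces on the two sides of the edges -/
noncomputable def dif (g : Code n) (s : Fin n → Bool) :
    (Quot (Corner g s) → ℚ) →ₗ[ℚ] (Fin (2 * n) → ℚ) where
  toFun W p := W (Quot.mk _ (p, true)) - W (Quot.mk _ (p, false))
  map_add' W W' := by
    ext p
    simp only [Pi.add_apply]
    ring
  map_smul' c W := by
    ext p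
    simp only [Pi.smul_apply, smul_eq_mul, RingHom.id_apply]
    ring

/-- the matrix of the conservation law at the crossings -/
noncomputable def cons (g : Code n) : Matrix (Fin n) (Fin (2 * n)) ℚ := fun i p =>
  (if p = inEdge g (i, false) then 1 else 0) + (if p = inEdge g (i, true) then 1 else 0) -
    (if p = outEdge g (i, false) then 1 else 0) - (if p = outEdge g (i, true) then 1 else 0)

theorem cons_mulVec (g : Code n) (z : Fin (2 * n) → ℚ) (i : Fin n) :
    (cons g *ᵥ z) i = z (inEdge g (i, false)) + z (inEdge g (i, true)) -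
      z (outEdge g (i, false)) - z (outEdge g (i, true)) := by
  simp [Matrix.mulVec, dotProduct, cons, add_mul, sub_mul, Finset.sum_add_distrib,
    Finset.sum_sub_distrib]

theorem cons_transpose_mulVec (g : Code n) (l : Fin n → ℚ) (p : Fin (2 * n)) :
    ((cons g)ᵀ *ᵥ l) p = l (cr g (finRotate (2 * n) p)) - l (cr g p) := by
  have h1 : ∀ (q : Fin (2 * n)), (∑ i, ((if q = g (i, false) then (1 : ℚ) else 0) +
      (if q = g (i, true) then 1 else 0)) * l i) = l (cr g q) := by
    intro q
    obtain ⟨⟨j, k⟩, rfl⟩ := g.surjective q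
    rw [cr_apply]
    have h2 : ∀ i, ((if g (j, k) = g (i, false) then (1 : ℚ) else 0) +
        (if g (j, k) = g (i, true) then 1 else 0)) * l i = if i = j then l j else 0 := by
      intro i
      simp only [EmbeddingLike.apply_eq_iff_eq, Prod.mk.injEq]
      by_cases hij : j = i
      · subst hij
        cases k <;> simp
      · have : ¬ i = j := fun h => hij h.symm
        simp [hij, this]
    rw [Finset.sum_congr rfl fun i _ => h2 i]
    simp
  have h3 := h1 (finRotate (2 * n) p)
  have h4 := h1 p
  rw [← h3, ← h4, ← Finset.sum_sub_distrib]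
  simp only [Matrix.mulVec, dotProduct, Matrix.transpose_apply, cons, inEdge, outEdge]
  refine Finset.sum_congr rfl fun i _ => ?_
  have e1 : ∀ q : Fin (2 * n), (p = (finRotate (2 * n)).symm q) ↔ (finRotate (2 * n) p = q) :=
    fun q => by rw [Equiv.eq_symm_apply]
  simp only [e1]
  by_cases hA : finRotate (2 * n) p = g (i, false) <;>
    by_cases hB : finRotate (2 * n) p = g (i, true) <;>
      by_cases hC : p = g (i, false) <;> by_cases hD : p = g (i, true) <;>
        simp only [hA, hB, hC, hD, if_true, if_false] <;> ring

theorem finrank_le_one {V : Type} [AddCommGroup V] [Module ℚ V] {ι : Type} [Fintype ι]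
    (K : Submodule ℚ (ι → ℚ)) (h : ∀ x ∈ K, ∀ i j, x i = x j) : Module.finrank ℚ K ≤ 1 := by
  by_cases hι : Nonempty ι
  · obtain ⟨i₀⟩ := hι
    let f : K →ₗ[ℚ] ℚ := (LinearMap.proj i₀).comp K.subtype
    have hf : Function.Injective f := by
      intro x y hxy
      ext i
      rw [h x x.2 i i₀, h y y.2 i i₀]
      exact hxy
    have := LinearMap.finrank_le_finrank_of_injective hf
    rwa [Module.finrank_self] at this
  · have : Subsingleton K := by
      constructor
      intro x y
      ext i
      exact absurd ⟨i⟩ hι
    rw [Module.finrank_zero_of_subsingleton]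
    omega

theorem corner_eq {α : Type} {g : Code n} {s : Fin n → Bool} (W : Quot (Corner g s) → α)
    {a b : Fin (2 * n) × Bool} (h : Corner g s a b) :
    W (Quot.mk _ a) = W (Quot.mk _ b) := congrArg W (Quot.sound h)

/-- the four relations at a crossing -/
theorem corner_rel (g : Code n) (s : Fin n → Bool) (i : Fin n) :
    Corner g s (outEdge g (i, !s i), true) (outEdge g (i, s i), false) ∧
    Corner g s (outEdge g (i, s i), true) (inEdge g (i, !s i), true) ∧
    Corner g s (inEdge g (i, !s i), false) (inEdge g (i, s i), true) ∧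
    Corner g s (inEdge g (i, s i), false) (outEdge g (i, !s i), false) :=
  ⟨⟨i, Or.inl ⟨rfl, rfl⟩⟩, ⟨i, Or.inr (Or.inl ⟨rfl, rfl⟩)⟩,
    ⟨i, Or.inr (Or.inr (Or.inl ⟨rfl, rfl⟩))⟩, ⟨i, Or.inr (Or.inr (Or.inr ⟨rfl, rfl⟩))⟩⟩

/-- In a planar shadow every cycle has an index function. -/
theorem exists_index {g : Code n} {s : Fin n → Bool} (hn : 0 < n) (hP : Planar g s)
    (z : Fin (2 * n) → ℤ)
    (hz : ∀ i, z (inEdge g (i, false)) + z (inEdge g (i, true)) =
      z (outEdge g (i, false)) + z (outEdge g (i, true))) :
    ∃ W : Fin (2 * n) × Bool → ℤ, (∀ a b, Corner g s a b → W a = W b) ∧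
      ∀ p, W (p, true) - W (p, false) = z p := by
  classical
  have : Finite (Quot (Corner g s)) := Quot.finite _
  let _ : Fintype (Quot (Corner g s)) := Fintype.ofFinite _
  have hcard : Fintype.card (Quot (Corner g s)) = n + 2 := by
    rw [← Nat.card_eq_fintype_card]
    exact hP
  -- the kernel of `dif`
  have hker : Module.finrank ℚ (LinearMap.ker (dif g s)) ≤ 1 := by
    apply finrank_le_one (V := ℚ)
    intro W hW
    have h0 : ∀ p, W (Quot.mk _ (p, true)) = W (Quot.mk _ (p, false)) := by
      intro p
      have := congrFun (LinearMap.mem_ker.1 hW) p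
      simp only [dif, LinearMap.coe_mk, AddHom.coe_mk, Pi.zero_apply] at this
      linarith
    have h1 : ∀ (i : Fin n) (k : Bool), W (Quot.mk _ (outEdge g (i, k), true)) =
        W (Quot.mk _ (inEdge g (i, k), true)) := by
      intro i k
      obtain ⟨c1, c2, c3, c4⟩ := corner_rel g s i
      have e1 := corner_eq W c1
      have e2 := corner_eq W c2
      have e3 := corner_eq W c3
      have e4 := corner_eq W c4
      have f1 := h0 (outEdge g (i, !s i))
      have f2 := h0 (outEdge g (i, s i))
      have f3 := h0 (inEdge g (i, !s i))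
      have f4 := h0 (inEdge g (i, s i))
      by_cases hk : k = s i
      · rw [hk]
        rw [e2, f3, e3]
      · have hk' : k = !s i := by
          cases k <;> cases h : s i <;> simp_all
        rw [hk']
        rw [e1, ← f2, e2]
    have h2 := const_of_step hn (fun p => W (Quot.mk _ (p, true))) (by
      intro r
      obtain ⟨⟨i, k⟩, rfl⟩ := g.surjective r
      exact h1 i k)
    have h3 : ∀ a : Fin (2 * n) × Bool, W (Quot.mk _ a) = W (Quot.mk _ (a.1, true)) := by
      rintro ⟨p, k⟩
      cases k
      · exact (h0 p).symm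
      · rfl
    intro x y
    induction x using Quot.ind with | mk a => ?_
    induction y using Quot.ind with | mk b => ?_
    rw [h3 a, h3 b]
    exact h2 _ _
  have hrange : n + 1 ≤ Module.finrank ℚ (LinearMap.range (dif g s)) := by
    have h1 := LinearMap.finrank_range_add_finrank_ker (dif g s)
    rw [Module.finrank_fintype_fun_eq_card, hcard] at h1
    omega
  -- the cycles
  have hcycle : Module.finrank ℚ (LinearMap.ker (cons g).mulVecLin) ≤ n + 1 := by
    have h1 := LinearMap.finrank_range_add_finrank_ker (cons g).mulVecLin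
    have h2 := LinearMap.finrank_range_add_finrank_ker (cons g)ᵀ.mulVecLin
    have h3 : Module.finrank ℚ (LinearMap.ker (cons g)ᵀ.mulVecLin) ≤ 1 := by
      apply finrank_le_one (V := ℚ)
      intro l hl
      have h4 : ∀ p, l (cr g (finRotate (2 * n) p)) = l (cr g p) := by
        intro p
        have := congrFun (LinearMap.mem_ker.1 hl) p
        rw [Matrix.mulVecLin_apply, cons_transpose_mulVec, Pi.zero_apply] at this
        linarith
      have h5 := const_of_step hn (fun p => l (cr g p)) (by
        intro r
        have := h4 ((finRotate (2 * n)).symm r)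
        rw [Equiv.apply_symm_apply] at this
        exact this)
      intro i j
      have := h5 (g (i, true)) (g (j, true))
      simpa [cr_apply] using this
    have h6 : Module.finrank ℚ (LinearMap.range (cons g).mulVecLin) =
        Module.finrank ℚ (LinearMap.range (cons g)ᵀ.mulVecLin) := by
      have := Matrix.rank_transpose (cons g)
      exact this.symm
    rw [Module.finrank_fintype_fun_eq_card, Fintype.card_fin] at h1 h2
    omega
  have hle : LinearMap.range (dif g s) ≤ LinearMap.ker (cons g).mulVecLin := by
    rintro _ ⟨W, rfl⟩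
    rw [LinearMap.mem_ker]
    ext i
    rw [Matrix.mulVecLin_apply, cons_mulVec, Pi.zero_apply]
    obtain ⟨c1, c2, c3, c4⟩ := corner_rel g s i
    have e1 := corner_eq W c1
    have e2 := corner_eq W c2
    have e3 := corner_eq W c3
    have e4 := corner_eq W c4
    simp only [dif, LinearMap.coe_mk, AddHom.coe_mk]
    cases hs : s i
    · rw [hs] at e1 e2 e3 e4
      simp only [Bool.not_false] at e1 e2 e3 e4
      rw [e1, e2, e3, e4]
      ring
    · rw [hs] at e1 e2 e3 e4
      simp only [Bool.not_true] at e1 e2 e3 e4
      rw [e1, e2, e3, e4]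
      ring
  have heq : LinearMap.range (dif g s) = LinearMap.ker (cons g).mulVecLin :=
    Submodule.eq_of_le_of_finrank_le hle (by omega)
  -- the rational index function
  have hzmem : (fun p => (z p : ℚ)) ∈ LinearMap.range (dif g s) := by
    rw [heq, LinearMap.mem_ker]
    ext i
    rw [Matrix.mulVecLin_apply, cons_mulVec, Pi.zero_apply]
    have := hz i
    have h1 : ((z (inEdge g (i, false)) + z (inEdge g (i, true)) : ℤ) : ℚ) =
      ((z (outEdge g (i, false)) + z (outEdge g (i, true)) : ℤ) : ℚ) := by rw [this]
    push_cast at h1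
    linarith
  obtain ⟨W, hW⟩ := hzmem
  refine ⟨fun a => ⌊W (Quot.mk _ a)⌋, fun a b hab => ?_, fun p => ?_⟩
  · simp only
    rw [corner_eq W hab]
  · have h1 := congrFun hW p
    simp only [dif, LinearMap.coe_mk, AddHom.coe_mk] at h1
    have h2 : W (Quot.mk _ (p, true)) = W (Quot.mk _ (p, false)) + (z p : ℚ) := by linarith
    simp only
    rw [h2, Int.floor_add_intCast]
    ring

end Pool.Agent.GaussJones.Grp
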