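import Pool.Agent.Helper96.GJ.Arcs

/-! Planar shadows satisfy `NCond`, and `NCond` is inherited when a loop is removed. -/

set_option autoImplicit false

namespace Pool.Agent.GaussJones.Grp

variable {n : ℕ}

theorem sum_telescope (f : Fin (2 * n) → ℤ) (a : Fin (2 * n)) (m : ℕ) :
    ∀ b : Fin (2 * n), (b : ℕ) = a + 1 + m →
      ∑ r with a < r ∧ r < b, (f r - f (prv r)) = f (prv b) - f a := by
  induction m with
  | zero =>
    intro b hb
    have h1 : (Finset.univ.filter fun r : Fin (2 * n) => a < r ∧ r < b) = ∅ := by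
      rw [Finset.eq_empty_iff_forall_notMem]
      intro r hr
      simp only [Finset.mem_filter, Finset.mem_univ, true_and, Fin.lt_def] at hr
      omega
    have h2 : prv b = a := by
      apply Fin.ext
      rw [prv_val]
      split_ifs with h <;> omega
    rw [h1, h2]
    simp
  | succ m ih =>
    intro b hb
    have h2 : (prv b : ℕ) = a + 1 + m := by
      rw [prv_val]
      split_ifs with h <;> omega
    have h3 := ih (prv b) h2
    have h4 : (Finset.univ.filter fun r : Fin (2 * n) => a < r ∧ r < b) =
        insert (prv b) (Finset.univ.filter fun r : Fin (2 * n) => a < r ∧ r < prv b) := by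
      ext r
      simp only [Finset.mem_filter, Finset.mem_univ, true_and, Fin.lt_def, Finset.mem_insert,
        Fin.ext_iff, h2, hb]
      omega
    have h5 : prv b ∉ (Finset.univ.filter fun r : Fin (2 * n) => a < r ∧ r < prv b) := by
      simp
    rw [h4, Finset.sum_insert h5, h3]
    ring

theorem ncond_univ {g : Code n} {s : Fin n → Bool} (hn : 0 < n) (hP : Planar g s) :
    NCond g s Finset.univ := by
  intro c _ c' _ k hD1 hD2
  rw [Nn_swap, neg_eq_zero]
  obtain ⟨W, hW, hWz⟩ := exists_index hn hP (cyc g c k) (cyc_sum g c k)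
  have hlo : lo g c ∈ carc g c k := by
    cases k
    · rw [mem_carc_false]
      exact Or.inl le_rfl
    · rw [mem_carc_true]
      exact ⟨le_rfl, (lo_lt_hi g c).le⟩
  have hhi : hi g c ∈ carc g c k := by
    cases k
    · rw [mem_carc_false]
      exact Or.inr le_rfl
    · rw [mem_carc_true]
      exact ⟨(lo_lt_hi g c).le, le_rfl⟩
  have harc : arc g c k ⊆ carc g c k := by
    intro r hr
    cases k
    · rw [mem_arc_false] at hr
      rw [mem_carc_false]
      exact hr.imp le_of_lt le_of_lt
    · rw [mem_arc_true] at hr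
      rw [mem_carc_true]
      exact ⟨hr.1.le, hr.2.le⟩
  -- the places of the arc of `c'`
  have hV1 : ∀ r ∈ arc g c' true, r ∉ carc g c k := fun r hr h =>
    Finset.disjoint_left.1 hD2 h hr
  have hV2 : ∀ r ∈ arc g c' true, cr g r ≠ c := by
    intro r hr h
    apply hV1 r hr
    rcases eq_lo_or_hi g r with h' | h'
    · rw [h', h]
      exact hlo
    · rw [h', h]
      exact hhi
  have hz : ∀ r ∈ arc g c' true, cyc g c k r = 0 ∧ cyc g c k (prv r) = 0 := by
    intro r hr
    have h1 : cyc g c k r = 0 := by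
      rw [cyc_out (hV2 r hr), if_neg fun h => hV1 r hr (harc h)]
    exact ⟨h1, by rw [cyc_in (hV2 r hr), h1]⟩
  have hmate : ∀ r ∈ arc g c' true, cyc g c k (mate g r) =
      (if mate g r ∈ arc g c k then 1 else 0) ∧
      cyc g c k (prv (mate g r)) = cyc g c k (mate g r) := by
    intro r hr
    have h1 : cr g (mate g r) ≠ c := by rw [cr_mate]; exact hV2 r hr
    exact ⟨cyc_out h1, cyc_in h1⟩
  -- the step of the index
  have hstep : ∀ r ∈ arc g c' true, W (r, true) - W (prv r, true) =
      if mate g r ∈ arc g c k then sg g s r else 0 := by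
    intro r hr
    obtain ⟨m1, m2⟩ := hmate r hr
    obtain ⟨⟨i, κ⟩, rfl⟩ := g.surjective r
    obtain ⟨c1, c2, c3, c4⟩ := corner_rel g s i
    have e1 := hW _ _ c1
    have e2 := hW _ _ c2
    have e3 := hW _ _ c3
    simp only [inEdge, outEdge] at e1 e2 e3
    rw [mate_apply] at m1 m2 ⊢
    rw [sg_apply]
    have z1 := hWz (g (i, !κ))
    have z2 := hWz (prv (g (i, !κ)))
    rw [m2] at z2
    rw [m1] at z1 z2
    by_cases hκ : s i = κ
    · subst hκ
      rw [if_pos rfl]
      simp only [prv] at z2 ⊢
      rw [e2, ← e3, z2]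
    · have hκ' : κ = !s i := by
        cases κ <;> cases h : s i <;> simp_all
      subst hκ'
      rw [if_neg hκ]
      rw [Bool.not_not] at z1 ⊢
      simp only [prv]
      rw [e1, ← e2]
      split_ifs at z1 ⊢ <;> linarith
  have hsum : Nn g s Finset.univ (arc g c' true) (arc g c k) =
      ∑ r with lo g c' < r ∧ r < hi g c', (W (r, true) - W (prv r, true)) := by
    have h1 : (Finset.univ.filter fun r => lo g c' < r ∧ r < hi g c') = arc g c' true := by
      ext r
      rw [mem_arc_true]
      simp
    rw [h1, Nn, Finset.sum_congr rfl hstep]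
    symm
    calc ∑ r ∈ arc g c' true, (if mate g r ∈ arc g c k then sg g s r else 0)
        = ∑ r ∈ arc g c' true, (if r ∈ arc g c' true ∧ mate g r ∈ arc g c k ∧
            cr g r ∈ Finset.univ then sg g s r else 0) := by
          refine Finset.sum_congr rfl fun r hr => if_congr ?_ rfl rfl
          exact ⟨fun h => ⟨hr, h, Finset.mem_univ _⟩, fun h => h.2.1⟩
      _ = _ := Finset.sum_subset (Finset.subset_univ _) fun r _ hr => if_neg fun h => hr h.1
  rw [hsum]
  obtain ⟨m, hm⟩ : ∃ m, (hi g c' : ℕ) = lo g c' + 1 + m :=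
    ⟨(hi g c' : ℕ) - (lo g c' + 1), by
      have := lo_lt_hi g c'
      rw [Fin.lt_def] at this
      omega⟩
  rw [sum_telescope (fun r => W (r, true)) (lo g c') m (hi g c') hm]
  cases m with
  | zero =>
    have h2 : prv (hi g c') = lo g c' := by
      apply Fin.ext
      rw [prv_val]
      split_ifs with h <;> omega
    rw [h2, sub_self]
  | succ m =>
    have hlt := (hi g c').2
    have hr1 : (⟨lo g c' + 1, by omega⟩ : Fin (2 * n)) ∈ arc g c' true := by
      rw [mem_arc_true]
      simp only [Fin.lt_def]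
      omega
    have hp1 : prv (⟨lo g c' + 1, by omega⟩ : Fin (2 * n)) = lo g c' := by
      apply Fin.ext
      rw [prv_val]
      simp
    have hp2 : prv (hi g c') ∈ arc g c' true := by
      rw [mem_arc_true]
      simp only [Fin.lt_def]
      rw [prv_val]
      split_ifs with h <;> omega
    have z1 : cyc g c k (lo g c') = 0 := by
      rw [← hp1]
      exact (hz _ hr1).2
    have z2 : cyc g c k (prv (hi g c')) = 0 := (hz _ hp2).1
    obtain ⟨c1, c2, c3, c4⟩ := corner_rel g s c'
    have e2 := hW _ _ c2
    have e4 := hW _ _ c4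
    simp only [inEdge, outEdge] at e2 e4
    have y1 := hWz (lo g c')
    have y2 := hWz (prv (hi g c'))
    rw [z1] at y1
    rw [z2] at y2
    rcases lo_or g c' (s c') with h | h
    · rw [h.1, h.2] at e2
      simp only [prv]
      rw [e2, sub_self]
    · rw [h.1, h.2] at e4
      simp only [prv] at y2 ⊢
      linarith

/-- the crossings of `X` whose places are off the closed loop of `c₀` -/
def rest (g : Code n) (X : Finset (Fin n)) (c₀ : Fin n) : Finset (Fin n) :=
  X.filter fun i => lo g i ∉ carc g c₀ true ∧ hi g i ∉ carc g c₀ true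

theorem mem_rest {g : Code n} {X : Finset (Fin n)} {c₀ i : Fin n} :
    i ∈ rest g X c₀ ↔ i ∈ X ∧ lo g i ∉ carc g c₀ true ∧ hi g i ∉ carc g c₀ true := by
  simp [rest]

theorem rest_iff {g : Code n} {X : Finset (Fin n)} {c₀ : Fin n} {r : Fin (2 * n)} :
    cr g r ∈ rest g X c₀ ↔ cr g r ∈ X ∧ r ∉ carc g c₀ true ∧ mate g r ∉ carc g c₀ true := by
  rw [mem_rest]
  refine and_congr_right fun _ => ?_
  have h1 : mate g r = lo g (cr g r) ∧ r = hi g (cr g r) ∨
      mate g r = hi g (cr g r) ∧ r = lo g (cr g r) := by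
    rcases eq_lo_or_hi g r with h | h
    · right
      refine ⟨?_, h⟩
      rw [← mate_lo, ← h]
    · left
      refine ⟨?_, h⟩
      rw [← mate_hi, ← h]
  rcases h1 with ⟨h1, h2⟩ | ⟨h1, h2⟩
  · rw [← h1, ← h2]
    exact and_comm
  · rw [← h1, ← h2]

theorem arc_subset_carc (g : Code n) (c : Fin n) (k : Bool) : arc g c k ⊆ carc g c k := by
  intro r hr
  cases k
  · rw [mem_arc_false] at hr
    rw [mem_carc_false]
    exact hr.imp le_of_lt le_of_lt
  · rw [mem_arc_true] at hr
    rw [mem_carc_true]
    exact ⟨hr.1.le, hr.2.le⟩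

theorem loop_inside {g : Code n} {c₀ c : Fin n} (h1 : lo g c ∉ carc g c₀ true)
    (h2 : hi g c ∉ carc g c₀ true) (k : Bool) :
    carc g c₀ true ⊆ arc g c k ∨ ∀ r ∈ carc g c₀ true, r ∉ arc g c k := by
  have h3 := lo_lt_hi g c
  have h4 := lo_lt_hi g c₀
  rw [mem_carc_true] at h1 h2
  simp only [Fin.le_def, Fin.lt_def] at h1 h2 h3 h4
  by_cases ha : (lo g c : ℕ) < lo g c₀ ∧ (lo g c₀ : ℕ) < hi g c
  · cases k
    · right
      intro r hr hr2
      rw [mem_carc_true] at hr
      rw [mem_arc_false] at hr2
      simp only [Fin.le_def, Fin.lt_def] at hr hr2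
      omega
    · left
      intro r hr
      rw [mem_carc_true] at hr
      rw [mem_arc_true]
      simp only [Fin.le_def, Fin.lt_def] at hr ⊢
      omega
  · cases k
    · left
      intro r hr
      rw [mem_carc_true] at hr
      rw [mem_arc_false]
      simp only [Fin.le_def, Fin.lt_def] at hr ⊢
      omega
    · right
      intro r hr hr2
      rw [mem_carc_true] at hr
      rw [mem_arc_true] at hr2
      simp only [Fin.le_def, Fin.lt_def] at hr hr2
      omega

theorem not_mem_loop_of_open {g : Code n} {c₀ : Fin n} {r : Fin (2 * n)}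
    (h1 : r ∉ arc g c₀ true) (h2 : mate g r ∉ carc g c₀ true) : r ∉ carc g c₀ true := by
  intro h
  rw [mem_carc_true] at h
  rw [mem_arc_true] at h1
  apply h2
  rcases eq_or_lt_of_le h.1 with h3 | h3
  · rw [← h3, mate_lo, mem_carc_true]
    exact ⟨(lo_lt_hi g c₀).le, le_rfl⟩
  · rcases eq_or_lt_of_le h.2 with h4 | h4
    · rw [h4, mate_hi, mem_carc_true]
      exact ⟨le_rfl, (lo_lt_hi g c₀).le⟩
    · exact absurd ⟨h3, h4⟩ h1

theorem ncond_rest {g : Code n} {s : Fin n → Bool} {X : Finset (Fin n)} (hX : NCond g s X)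
    {c₀ : Fin n} (hc₀ : c₀ ∈ X) : NCond g s (rest g X c₀) := by
  intro c hc c' hc' k D1 D2
  obtain ⟨hcX, hc1, hc2⟩ := mem_rest.1 hc
  obtain ⟨hcX', hc1', hc2'⟩ := mem_rest.1 hc'
  have hN := hX c hcX c' hcX' k D1 D2
  have hUV : ∀ r, r ∈ arc g c k → r ∉ arc g c' true := fun r hr hr' =>
    Finset.disjoint_left.1 D1 hr (arc_subset_carc g c' true hr')
  rcases loop_inside hc1 hc2 k with hA | hA
  · -- the loop is in the first arc
    have h1 : Disjoint (arc g c₀ true) (carc g c' true) := by
      rw [Finset.disjoint_left]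
      intro r hr hr'
      exact Finset.disjoint_left.1 D1 (hA (arc_subset_carc g c₀ true hr)) hr'
    have h2 : Disjoint (carc g c₀ true) (arc g c' true) := by
      rw [Finset.disjoint_left]
      intro r hr hr'
      exact hUV r (hA hr) hr'
    have hN' := hX c₀ hc₀ c' hcX' true h1 h2
    have h3 : Nn g s X (arc g c k) (arc g c' true) =
        Nn g s (rest g X c₀) (arc g c k) (arc g c' true) +
          Nn g s X (arc g c₀ true) (arc g c' true) := by
      rw [Nn, Nn, Nn, ← Finset.sum_add_distrib]
      refine Finset.sum_congr rfl fun r _ => ?_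
      by_cases hV : mate g r ∈ arc g c' true
      · by_cases hXr : cr g r ∈ X
        · have h4 : mate g r ∉ carc g c₀ true := fun h => Finset.disjoint_left.1 h2 h hV
          by_cases hZ : r ∈ arc g c₀ true
          · have h5 : r ∈ arc g c k := hA (arc_subset_carc g c₀ true hZ)
            have h6 : ¬ (r ∈ arc g c k ∧ mate g r ∈ arc g c' true ∧ cr g r ∈ rest g X c₀) := by
              rintro ⟨-, -, h⟩
              exact (rest_iff.1 h).2.1 (arc_subset_carc g c₀ true hZ)
            rw [if_pos ⟨h5, hV, hXr⟩, if_neg h6, if_pos ⟨hZ, hV, hXr⟩, zero_add]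
          · have h5 : cr g r ∈ rest g X c₀ := rest_iff.2 ⟨hXr, not_mem_loop_of_open hZ h4, h4⟩
            have h6 : ¬ (r ∈ arc g c₀ true ∧ mate g r ∈ arc g c' true ∧ cr g r ∈ X) :=
              fun h => hZ h.1
            rw [if_neg h6, add_zero]
            exact if_congr ⟨fun h => ⟨h.1, h.2.1, h5⟩, fun h => ⟨h.1, h.2.1, hXr⟩⟩ rfl rfl
        · rw [if_neg fun h => hXr h.2.2, if_neg fun h => hXr (rest_iff.1 h.2.2).1,
            if_neg fun h => hXr h.2.2, zero_add]
      · rw [if_neg fun h => hV h.2.1, if_neg fun h => hV h.2.1, if_neg fun h => hV h.2.1,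
          zero_add]
    rw [hN, hN', add_zero] at h3
    exact h3.symm
  · rcases loop_inside hc1' hc2' true with hB | hB
    · -- the loop is in the second arc
      have h1 : Disjoint (arc g c k) (carc g c₀ true) := by
        rw [Finset.disjoint_left]
        intro r hr hr'
        exact hA r hr' hr
      have h2 : Disjoint (carc g c k) (arc g c₀ true) := by
        rw [Finset.disjoint_left]
        intro r hr hr'
        exact Finset.disjoint_left.1 D2 hr (hB (arc_subset_carc g c₀ true hr'))
      have hN' := hX c hcX c₀ hc₀ k h1 h2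
      have h3 : Nn g s X (arc g c k) (arc g c' true) =
          Nn g s (rest g X c₀) (arc g c k) (arc g c' true) +
            Nn g s X (arc g c k) (arc g c₀ true) := by
        rw [Nn, Nn, Nn, ← Finset.sum_add_distrib]
        refine Finset.sum_congr rfl fun r _ => ?_
        by_cases hU : r ∈ arc g c k
        · by_cases hXr : cr g r ∈ X
          · have h4 : r ∉ carc g c₀ true := fun h => hA r h hU
            by_cases hZ : mate g r ∈ arc g c₀ true
            · have h5 : mate g r ∈ arc g c' true := hB (arc_subset_carc g c₀ true hZ)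
              have h6 : ¬ (r ∈ arc g c k ∧ mate g r ∈ arc g c' true ∧
                  cr g r ∈ rest g X c₀) := by
                rintro ⟨-, -, h⟩
                exact (rest_iff.1 h).2.2 (arc_subset_carc g c₀ true hZ)
              rw [if_pos ⟨hU, h5, hXr⟩, if_neg h6, if_pos ⟨hU, hZ, hXr⟩, zero_add]
            · have h4' : mate g (mate g r) ∉ carc g c₀ true := by rwa [mate_mate]
              have h5 : cr g r ∈ rest g X c₀ :=
                rest_iff.2 ⟨hXr, h4, not_mem_loop_of_open hZ h4'⟩
              have h6 : ¬ (r ∈ arc g c k ∧ mate g r ∈ arc g c₀ true ∧ cr g r ∈ X) :=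
                fun h => hZ h.2.1
              rw [if_neg h6, add_zero]
              exact if_congr ⟨fun h => ⟨h.1, h.2.1, h5⟩, fun h => ⟨h.1, h.2.1, hXr⟩⟩ rfl rfl
          · rw [if_neg fun h => hXr h.2.2, if_neg fun h => hXr (rest_iff.1 h.2.2).1,
              if_neg fun h => hXr h.2.2, zero_add]
        · rw [if_neg fun h => hU h.1, if_neg fun h => hU h.1, if_neg fun h => hU h.1, zero_add]
      rw [hN, hN', add_zero] at h3
      exact h3.symm
    · -- the loop is off both arcs
      rw [← hN, Nn, Nn]
      refine Finset.sum_congr rfl fun r _ => if_congr ?_ rfl rfl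
      constructor
      · rintro ⟨h1, h2, h3⟩
        exact ⟨h1, h2, (rest_iff.1 h3).1⟩
      · rintro ⟨h1, h2, h3⟩
        exact ⟨h1, h2, rest_iff.2 ⟨h3, fun h => hA r h h1, fun h => hB _ h h2⟩⟩

end Pool.Agent.GaussJones.Grp
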