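import Pool.Agent.Helper96.GJ.SumMin

/-! Decoupling: from the linear to the quadratic Littlewood-Offord inequality. -/

namespace Pool.Agent.GaussJones

open Finset

variable {m : ℕ}

theorem sq_card_le {P Y : Type*} [Fintype P] [Fintype Y] (F : P → Y → Prop)
    [∀ p, DecidablePred (F p)] :
    ((∑ p, (univ.filter fun y => F p y).card : ℕ) : ℝ) ^ 2 ≤
      Fintype.card P * ∑ yy : Y × Y, ((univ.filter fun p => F p yy.1 ∧ F p yy.2).card : ℝ) := by
  have h1 : ((∑ p, (univ.filter fun y => F p y).card : ℕ) : ℝ) ^ 2 ≤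
      Fintype.card P * ∑ p, ((univ.filter fun y => F p y).card : ℝ) ^ 2 := by
    push_cast
    have := sq_sum_le_card_mul_sum_sq (s := (univ : Finset P))
      (f := fun p => ((univ.filter fun y => F p y).card : ℝ))
    simpa using this
  refine h1.trans (le_of_eq ?_)
  congr 1
  have h2 : ∀ p, ((univ.filter fun y => F p y).card : ℝ) ^ 2 =
      ∑ yy : Y × Y, (if F p yy.1 ∧ F p yy.2 then (1:ℝ) else 0) := by
    intro p
    rw [Fintype.sum_prod_type, sq, Finset.card_filter]
    push_cast
    rw [Finset.sum_mul_sum]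
    apply Finset.sum_congr rfl
    intro y _
    apply Finset.sum_congr rfl
    intro y' _
    by_cases h : F p y <;> by_cases h' : F p y' <;> simp [h, h']
  simp_rw [h2]
  rw [Finset.sum_comm]
  apply Finset.sum_congr rfl
  intro yy _
  rw [Finset.card_filter]
  push_cast
  rfl

theorem quad_core {ρ : Type} [Fintype ρ] [DecidableEq ρ] {C : ℝ}
    (hC : LinearLO C) (B : (ρ ⊕ Fin m) ⊕ Fin m → (ρ ⊕ Fin m) ⊕ Fin m → ℤ)
    (hsymm : ∀ i j, B i j = B j i) (z : ρ → Bool) (c : ℤ) :
    ((univ.filter fun xy : (Fin m → Bool) × (Fin m → Bool) =>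
      (∑ i, ∑ j, B i j * (sg (Sum.elim (Sum.elim z xy.1) xy.2 i) *
        sg (Sum.elim (Sum.elim z xy.1) xy.2 j))) = c).card : ℝ) ^ 2 ≤
      (2 ^ m) ^ 2 *
        ∑ v, phi C (Nz (fun k l => B (Sum.inl (Sum.inr k)) (Sum.inr l)) v) := by
  classical
  set a : Fin m → Fin m → ℤ := fun k l => B (Sum.inl (Sum.inr k)) (Sum.inr l) with ha
  set q : ((ρ ⊕ Fin m) ⊕ Fin m → Bool) → ℤ := fun f => ∑ i, ∑ j, B i j * (sg (f i) * sg (f j))
    with hq
  -- split the variables
  set F : (Fin m → Bool) → (Fin m → Bool) → Prop := fun x y =>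
    q (Sum.elim (Sum.elim z x) y) = c with hF
  have hS : (univ.filter fun xy : (Fin m → Bool) × (Fin m → Bool) =>
      (∑ i, ∑ j, B i j * (sg (Sum.elim (Sum.elim z xy.1) xy.2 i) *
        sg (Sum.elim (Sum.elim z xy.1) xy.2 j))) = c).card =
      ∑ x, (univ.filter fun y => F x y).card := by
    rw [Finset.card_filter, Fintype.sum_prod_type]
    apply Finset.sum_congr rfl
    intro x _
    rw [Finset.card_filter]
  rw [hS]
  refine (sq_card_le F).trans ?_
  have hP : (Fintype.card (Fin m → Bool) : ℝ) = 2 ^ m := by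
    simp
  rw [hP, sq, mul_assoc]
  apply mul_le_mul_of_nonneg_left _ (by positivity)
  -- the sum over pairs (y, y') as a sum over v
  have hv : ∑ v, phi C (Nz a v) =
      ∑ yy : (Fin m → Bool) × (Fin m → Bool), phi C (Nz a (fun l => (yy.1 l, yy.2 l))) := by
    exact Fintype.sum_equiv (Equiv.arrowProdEquivProdArrow (Fin m) (fun _ => Bool) (fun _ => Bool))
      _ _ (fun v => rfl)
  rw [hv, Finset.mul_sum]
  apply Finset.sum_le_sum
  rintro ⟨y, y'⟩ _
  simp only
  set v : Fin m → Bool × Bool := fun l => (y l, y' l) with hvdef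
  have htriv : ((univ.filter fun x : Fin m → Bool => F x y ∧ F x y').card : ℝ) ≤ 2 ^ m := by
    have := Finset.card_le_univ (univ.filter fun x : Fin m → Bool => F x y ∧ F x y')
    simp only [Fintype.card_pi, Fintype.card_bool, Finset.prod_const, Finset.card_univ,
      Fintype.card_fin] at this
    exact_mod_cast this
  unfold phi
  split_ifs with h0
  · simpa using htriv
  · have hpos : 0 < Nz a v := Nat.pos_of_ne_zero h0
    rw [mul_min_of_nonneg _ _ (by positivity), mul_one]
    refine le_min htriv ?_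
    -- linear inequality
    -- G is the part of q which involves y but not x
    set G : (Fin m → Bool) → ℤ := fun y =>
      (∑ l, ∑ l', B (Sum.inr l) (Sum.inr l') * (sg (y l) * sg (y l'))) +
      2 * (∑ r, ∑ l, B (Sum.inl (Sum.inl r)) (Sum.inr l) * (sg (z r) * sg (y l))) with hG
    have hqd : ∀ (x : Fin m → Bool) (y : Fin m → Bool), q (Sum.elim (Sum.elim z x) y) =
        (∑ i, ∑ j, B (Sum.inl i) (Sum.inl j) * (sg (Sum.elim z x i) * sg (Sum.elim z x j))) +
        G y + ∑ k, (2 * ∑ l, a k l * sg (y l)) * sg (x k) := by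
      intro x y
      simp only [hq, hG, ha]
      rw [Fintype.sum_sum_type]
      simp only [Fintype.sum_sum_type, Sum.elim_inl, Sum.elim_inr, Finset.sum_add_distrib]
      have e1 : ∑ i, ∑ j, B (Sum.inr i) (Sum.inl (Sum.inl j)) * (sg (y i) * sg (z j)) =
          ∑ r, ∑ l, B (Sum.inl (Sum.inl r)) (Sum.inr l) * (sg (z r) * sg (y l)) := by
        rw [Finset.sum_comm]
        apply Finset.sum_congr rfl
        intro r _
        apply Finset.sum_congr rfl
        intro l _
        rw [hsymm]; ring
      have e2 : ∑ i, ∑ j, B (Sum.inr i) (Sum.inl (Sum.inr j)) * (sg (y i) * sg (x j)) =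
          ∑ k, (∑ l, B (Sum.inl (Sum.inr k)) (Sum.inr l) * sg (y l)) * sg (x k) := by
        rw [Finset.sum_comm]
        apply Finset.sum_congr rfl
        intro r _
        rw [Finset.sum_mul]
        apply Finset.sum_congr rfl
        intro l _
        rw [hsymm]; ring
      have e3 : ∑ i, ∑ j, B (Sum.inl (Sum.inr i)) (Sum.inr j) * (sg (x i) * sg (y j)) =
          ∑ k, (∑ l, B (Sum.inl (Sum.inr k)) (Sum.inr l) * sg (y l)) * sg (x k) := by
        apply Finset.sum_congr rfl
        intro r _
        rw [Finset.sum_mul]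
        apply Finset.sum_congr rfl
        intro l _
        ring
      have e4 : ∑ k, (2 * ∑ l, B (Sum.inl (Sum.inr k)) (Sum.inr l) * sg (y l)) * sg (x k) =
          2 * ∑ k, (∑ l, B (Sum.inl (Sum.inr k)) (Sum.inr l) * sg (y l)) * sg (x k) := by
        rw [Finset.mul_sum]
        apply Finset.sum_congr rfl
        intro r _
        ring
      rw [e1, e2, e3, e4]
      ring
    have hsub : (univ.filter fun x : Fin m → Bool => F x y ∧ F x y') ⊆
        univ.filter fun x : Fin m → Bool =>
          (∑ k, (2 * Lf a k v) * sg (x k)) = G y' - G y := by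
      intro x hx
      simp only [Finset.mem_filter, Finset.mem_univ, true_and, hF] at hx ⊢
      obtain ⟨h1, h2⟩ := hx
      rw [hqd] at h1 h2
      have h3 : ∑ k, (2 * Lf a k v) * sg (x k) =
          ∑ k, (2 * ∑ l, a k l * sg (y l)) * sg (x k) -
          ∑ k, (2 * ∑ l, a k l * sg (y' l)) * sg (x k) := by
        rw [← Finset.sum_sub_distrib]
        apply Finset.sum_congr rfl
        intro k _
        simp only [Lf, df, hvdef, mul_sub, Finset.sum_sub_distrib]
        ring
      rw [h3]
      linarith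
    have hLO := hC (Fin m) (fun k => 2 * Lf a k v) (G y' - G y) (Nz a v) hpos (by
      unfold Nz
      apply Finset.card_le_card
      intro k hk
      simp only [Finset.mem_filter, Finset.mem_univ, true_and] at hk ⊢
      simpa using hk)
    calc _ ≤ ((univ.filter fun x : Fin m → Bool =>
          (∑ k, (2 * Lf a k v) * sg (x k)) = G y' - G y).card : ℝ) := by
            exact_mod_cast Finset.card_le_card hsub
      _ ≤ _ := hLO
      _ = _ := by simp; ring

end Pool.Agent.GaussJones
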