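import Pool.Agent.Helper96.GJ.SumStates

/-! The second derivative of `f` at `A = 1`. -/

namespace Pool.Agent.GaussJones

open Finset LaurentPolynomial

variable {n : ℕ}

/-- sum of coefficient times exponent squared -/
noncomputable def M2 : ℤ[T;T⁻¹] →+ ℤ where
  toFun p := p.coeff.sum fun k c => c * k ^ 2
  map_zero' := by simp
  map_add' p q := by
    rw [AddMonoidAlgebra.coeff_add]
    exact Finsupp.sum_add_index' (by intro k; simp) (by intro k a b; ring)

theorem M2_T (k : ℤ) : M2 (T k) = k ^ 2 := by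
  change (T k : ℤ[T;T⁻¹]).coeff.sum (fun k c => c * k ^ 2) = k ^ 2
  have : (T k : ℤ[T;T⁻¹]).coeff = Finsupp.single k 1 := rfl
  rw [this, Finsupp.sum_single_index] <;> simp

theorem M2_pow (k : ℕ) (E : ℤ) : M2 (T E * (T 2 + T (-2)) ^ k) = 2 ^ k * (E ^ 2 + 4 * k) := by
  induction k generalizing E with
  | zero => simp [M2_T]
  | succ k ih =>
    have : (T E * (T 2 + T (-2)) ^ (k + 1) : ℤ[T;T⁻¹]) =
        T (E + 2) * (T 2 + T (-2)) ^ k + T (E + (-2)) * (T 2 + T (-2)) ^ k := by
      rw [T_add, T_add]; ring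
    rw [this, map_add, ih, ih]
    push_cast
    ring

theorem M2_neg_one_pow (k : ℕ) (p : ℤ[T;T⁻¹]) : M2 ((-1) ^ k * p) = (-1) ^ k * M2 p := by
  rcases neg_one_pow_eq_or (ℤ[T;T⁻¹]) k with h | h
  · rw [h]
    rcases neg_one_pow_eq_or ℤ k with h' | h'
    · rw [h']; simp
    · exfalso
      rcases Nat.even_or_odd k with hk | hk
      · rw [hk.neg_one_pow] at h'; norm_num at h'
      · rw [hk.neg_one_pow] at h
        have h2 : (-1 : ℤ[T;T⁻¹]).coeff 0 = (1 : ℤ[T;T⁻¹]).coeff 0 := by rw [h]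
        rw [AddMonoidAlgebra.coeff_neg] at h2
        simp at h2
  · rw [h]
    rcases neg_one_pow_eq_or ℤ k with h' | h'
    · exfalso
      rcases Nat.even_or_odd k with hk | hk
      · rw [hk.neg_one_pow] at h
        have h2 : (1 : ℤ[T;T⁻¹]).coeff 0 = (-1 : ℤ[T;T⁻¹]).coeff 0 := by rw [← h]
        rw [AddMonoidAlgebra.coeff_neg] at h2
        simp at h2
      · rw [hk.neg_one_pow] at h'; norm_num at h'
    · rw [h']; simp

/-- exponent of `A` at a crossing, writhe correction included -/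
def ex (s e : Bool) : ℤ := -2 * (cc s * sg e)

theorem prod_T (S : Finset (Fin n)) (x : Fin n → ℤ) :
    ∏ i ∈ S, (-T (x i) : ℤ[T;T⁻¹]) = (-1) ^ S.card * T (∑ i ∈ S, x i) := by
  classical
  induction S using Finset.induction_on with
  | empty => simp
  | insert k S hk ih =>
    rw [Finset.prod_insert hk, Finset.sum_insert hk, Finset.card_insert_of_notMem hk, ih, T_add]
    ring

theorem factors (s e : Fin n → Bool) :
    ((∏ i, if e i = true then -T (-3) else -T 3) * ∏ i, (if s i = e i then T 1 else T (-1)) :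
      ℤ[T;T⁻¹]) = (-1) ^ n * T (∑ i, ex (s i) (e i)) := by
  rw [← Finset.prod_mul_distrib]
  have : ∀ i, ((if e i = true then -T (-3) else -T 3) * (if s i = e i then T 1 else T (-1)) :
      ℤ[T;T⁻¹]) = -T (ex (s i) (e i)) := by
    intro i
    have e1 : ∀ a b : ℤ, (-T a * T b : ℤ[T;T⁻¹]) = -T (a + b) := by
      intro a b; rw [T_add]; ring
    rcases hs : s i with _ | _ <;> rcases he : e i with _ | _
    · rw [if_neg (by simp), if_pos rfl, e1]; rfl
    · rw [if_pos rfl, if_neg (by simp), e1]; rfl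
    · rw [if_neg (by simp), if_neg (by simp), e1]; rfl
    · rw [if_pos rfl, if_pos rfl, e1]; rfl
  rw [Finset.prod_congr rfl (fun i _ => this i), prod_T]
  simp

theorem loops_pos (g : Code n) (hn : 0 < n) (s : Fin n → Bool) : 1 ≤ loops g s := by
  unfold loops
  have : Nonempty (Quot (Joined g s)) := ⟨Quot.mk _ ⟨0, by omega⟩⟩
  exact Nat.card_pos

theorem M2_fPoly (g : Code n) (hn : 0 < n) (e : Fin n → Bool) :
    (-2) * M2 (fPoly g e) = (-1) ^ n * ∑ s : Fin n → Bool, (-2) ^ loops g s *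
      ((∑ i, ex (s i) (e i)) ^ 2 + 4 * (loops g s - 1)) := by
  unfold fPoly bracket
  rw [Finset.mul_sum, map_sum, Finset.mul_sum, Finset.mul_sum]
  apply Finset.sum_congr rfl
  intro s _
  have h1 : ((∏ i, if e i = true then -T (-3) else -T 3) * ((∏ i, if s i = e i then T 1 else T (-1)) *
      (-(T 2 + T (-2))) ^ (loops g s - 1)) : ℤ[T;T⁻¹]) =
      (-1) ^ (n + (loops g s - 1)) * (T (∑ i, ex (s i) (e i)) * (T 2 + T (-2)) ^ (loops g s - 1)) := by
    rw [← mul_assoc, factors, pow_add, neg_pow (T 2 + T (-2) : ℤ[T;T⁻¹])]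
    ring
  rw [h1, M2_neg_one_pow, M2_pow]
  obtain ⟨k, hk⟩ : ∃ k, loops g s = k + 1 := ⟨loops g s - 1, by have := loops_pos g hn s; omega⟩
  rw [hk, Nat.add_sub_cancel]
  have h2 : (-2:ℤ) ^ (k + 1) = (-1) ^ k * 2 ^ k * (-2) := by rw [pow_succ, neg_pow]
  rw [h2, pow_add]
  push_cast
  ring

theorem sum_ex_sq (s e : Fin n → Bool) : (∑ i, ex (s i) (e i)) ^ 2 =
    4 * ∑ i, ∑ j, cc (s i) * cc (s j) * (sg (e i) * sg (e j)) := by
  rw [sq, Finset.sum_mul_sum, Finset.mul_sum]
  apply Finset.sum_congr rfl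
  intro i _
  rw [Finset.mul_sum]
  apply Finset.sum_congr rfl
  intro j _
  simp only [ex]
  ring

/-- `M2 (f) = const - 12 * (sum over ordered interlaced pairs of the products of signs)`, given
the values of `V`. -/
theorem M2_eq (g : Code n) (hn : 0 < n)
    (hV : ∀ i j, i ≠ j → (Interlaced g i j → V g i j = 6) ∧ (¬ Interlaced g i j → V g i j = 0)) :
    ∃ K : ℤ, ∀ e : Fin n → Bool, 2 * M2 (fPoly g e) = K - 24 * Qf g e := by
  classical
  refine ⟨- (-1) ^ n * (∑ s : Fin n → Bool, (-2 : ℤ) ^ loops g s * (4 * ((loops g s : ℤ) - 1))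
    + 4 * ∑ i, ∑ s : Fin n → Bool, cc (s i) * cc (s i) * (-2) ^ loops3 g (trans ∅ s)), ?_⟩
  intro e
  have h := M2_fPoly g hn e
  have h1 : ∑ s : Fin n → Bool, (-2 : ℤ) ^ loops g s *
      ((∑ i, ex (s i) (e i)) ^ 2 + 4 * ((loops g s : ℤ) - 1)) =
      4 * ∑ i, ∑ j, (sg (e i) * sg (e j)) *
        ∑ s : Fin n → Bool, cc (s i) * cc (s j) * (-2) ^ loops3 g (trans ∅ s) +
      ∑ s : Fin n → Bool, (-2 : ℤ) ^ loops g s * (4 * ((loops g s : ℤ) - 1)) := by
    have : ∀ s : Fin n → Bool, (-2 : ℤ) ^ loops g s *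
        ((∑ i, ex (s i) (e i)) ^ 2 + 4 * (loops g s - 1)) =
        4 * (∑ i, ∑ j, (sg (e i) * sg (e j)) * (cc (s i) * cc (s j) * (-2) ^ loops3 g (trans ∅ s)))
        + (-2 : ℤ) ^ loops g s * (4 * ((loops g s : ℤ) - 1)) := by
      intro s
      rw [mul_add, sum_ex_sq]
      congr 1
      rw [Finset.mul_sum, Finset.mul_sum, Finset.mul_sum]
      apply Finset.sum_congr rfl
      intro i _
      rw [Finset.mul_sum, Finset.mul_sum, Finset.mul_sum]
      apply Finset.sum_congr rfl
      intro j _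
      rw [loops_eq]
      ring
    rw [Finset.sum_congr rfl (fun s _ => this s), Finset.sum_add_distrib, ← Finset.mul_sum]
    congr 2
    rw [Finset.sum_comm]
    apply Finset.sum_congr rfl
    intro i _
    rw [Finset.sum_comm]
    apply Finset.sum_congr rfl
    intro j _
    rw [Finset.mul_sum]
  rw [h1] at h
  have h2 : ∀ i, ∑ j, (sg (e i) * sg (e j)) *
        ∑ s : Fin n → Bool, cc (s i) * cc (s j) * (-2) ^ loops3 g (trans ∅ s) =
      ∑ s : Fin n → Bool, cc (s i) * cc (s i) * (-2) ^ loops3 g (trans ∅ s) +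
      6 * (-1) ^ n * ∑ j, (if Interlaced g i j then sg (e i) * sg (e j) else 0) := by
    intro i
    rw [← Finset.add_sum_erase univ _ (Finset.mem_univ i)]
    congr 1
    · have : sg (e i) * sg (e i) = 1 := by rcases e i with _ | _ <;> simp [sg]
      rw [this, one_mul]
    · rw [← Finset.add_sum_erase univ (fun j => if Interlaced g i j then sg (e i) * sg (e j) else 0)
        (Finset.mem_univ i)]
      have hirr : ¬ Interlaced g i i := by unfold Interlaced; simp
      rw [if_neg hirr, zero_add, Finset.mul_sum]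
      apply Finset.sum_congr rfl
      intro j hj
      have hne : i ≠ j := (Finset.ne_of_mem_erase hj).symm
      rw [W_eq g i j hne]
      by_cases hI : Interlaced g i j
      · rw [(hV i j hne).1 hI, if_pos hI]; ring
      · rw [(hV i j hne).2 hI, if_neg hI]; ring
  rw [Finset.sum_congr rfl (fun i _ => h2 i), Finset.sum_add_distrib, ← Finset.mul_sum] at h
  have h3 : Qf g e = ∑ i, ∑ j, (if Interlaced g i j then sg (e i) * sg (e j) else 0) := by
    unfold Qf
    refine Finset.sum_congr rfl (fun i _ => Finset.sum_congr rfl (fun j _ => ?_))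
    by_cases hI : Interlaced g i j
    · simp only [if_pos hI]
    · simp only [if_neg hI]
  rw [h3]
  have h4 : ((-1 : ℤ)) ^ n * (-1) ^ n = 1 := by
    rw [← mul_pow]; norm_num
  linear_combination (-1) * h - 24 * h4 *
    (∑ i, ∑ j, (if Interlaced g i j then sg (e i) * sg (e j) else 0))

end Pool.Agent.GaussJones
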