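import Pool.Agent.Helper96.GJ.Few

/-! Choice of the parameters. -/

namespace Pool.Agent.GaussJones

open Finset

variable {m : ℕ}

/-- the bound `min 1 (C / sqrt N)` of the linear inequality -/
noncomputable def phi (C : ℝ) (N : ℕ) : ℝ := if N = 0 then 1 else min 1 (C / Real.sqrt N)

theorem phi_nonneg {C : ℝ} (hC : 0 ≤ C) (N : ℕ) : 0 ≤ phi C N := by
  unfold phi; split_ifs
  · norm_num
  · exact le_min (by norm_num) (by positivity)

theorem phi_le_one (C : ℝ) (N : ℕ) : phi C N ≤ 1 := by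
  unfold phi; split_ifs
  · exact le_rfl
  · exact min_le_left _ _

theorem phi_le {C : ℝ} (hC : 0 ≤ C) {N m : ℕ} (hm : 0 < m) (h : m ≤ 64 * N) :
    phi C N ≤ 8 * C / Real.sqrt m := by
  have hN : N ≠ 0 := by omega
  unfold phi
  rw [if_neg hN]
  refine le_trans (min_le_right _ _) ?_
  have hm' : (0:ℝ) < m := by exact_mod_cast hm
  have hN' : (0:ℝ) < N := by exact_mod_cast Nat.pos_of_ne_zero hN
  have h1 : Real.sqrt m ≤ 8 * Real.sqrt N := by
    have : (8:ℝ) * Real.sqrt N = Real.sqrt (64 * N) := by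
      rw [Real.sqrt_mul (by norm_num)]
      congr 1
      rw [show (64:ℝ) = 8 ^ 2 by norm_num, Real.sqrt_sq (by norm_num)]
    rw [this]
    apply Real.sqrt_le_sqrt
    exact_mod_cast h
  have h2 : 0 < Real.sqrt m := Real.sqrt_pos.mpr hm'
  have h3 : 0 < Real.sqrt N := Real.sqrt_pos.mpr hN'
  rw [div_le_div_iff₀ h3 h2]
  nlinarith

theorem sum_phi_core {C : ℝ} (hC0 : 0 ≤ C) (hC : LinearLO C) (a : Fin m → Fin m → ℤ)
    (ha : ∀ k, a k k ≠ 0) (s H : ℕ) (hs : 0 < s) (hH : 0 < H)
    (hsm : 4 * (16 * s * (2 * H + 1)) ≤ m) :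
    ∑ v, phi C (Nz a v) ≤
      4 ^ m * (2 * (C / Real.sqrt H) + m * (1 / 200) ^ s + 8 * C / Real.sqrt m) := by
  classical
  have hm0 : 0 < m := by
    have : 0 < 4 * (16 * s * (2 * H + 1)) := by positivity
    omega
  have h1 := few_total hC0 hC a ha s H hs hH hsm
  have h2 : ∑ v, phi C (Nz a v) =
      ∑ v ∈ univ.filter (fun v => 64 * Nz a v < m), phi C (Nz a v) +
      ∑ v ∈ univ.filter (fun v => ¬ 64 * Nz a v < m), phi C (Nz a v) :=
    (Finset.sum_filter_add_sum_filter_not _ _ _).symm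
  have h3 : ∑ v ∈ univ.filter (fun v => 64 * Nz a v < m), phi C (Nz a v) ≤
      ((univ.filter fun v => 64 * Nz a v < m).card : ℝ) := by
    calc _ ≤ ∑ _v ∈ univ.filter (fun v => 64 * Nz a v < m), (1:ℝ) :=
          Finset.sum_le_sum (fun v _ => phi_le_one _ _)
      _ = _ := by simp
  have h4 : ∑ v ∈ univ.filter (fun v => ¬ 64 * Nz a v < m), phi C (Nz a v) ≤
      4 ^ m * (8 * C / Real.sqrt m) := by
    calc _ ≤ ∑ _v ∈ univ.filter (fun v => ¬ 64 * Nz a v < m), (8 * C / Real.sqrt m) := by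
          apply Finset.sum_le_sum
          intro v hv
          exact phi_le hC0 hm0 (by have := (Finset.mem_filter.mp hv).2; omega)
      _ ≤ ∑ _v : Fin m → Bool × Bool, (8 * C / Real.sqrt m) := by
          apply Finset.sum_le_sum_of_subset_of_nonneg (Finset.subset_univ _)
          intro v _ _
          positivity
      _ = _ := by simp [Fintype.card_prod]
  rw [h2]
  calc _ ≤ 4 ^ m * (2 * (C / Real.sqrt H) + m * (1 / 200) ^ s) + 4 ^ m * (8 * C / Real.sqrt m) :=
        add_le_add (h3.trans h1) h4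
    _ = _ := by ring

theorem sum_phi {C : ℝ} (hC0 : 0 ≤ C) (hC : LinearLO C) : ∃ D : ℝ, 0 ≤ D ∧
    ∀ (m : ℕ) (a : Fin m → Fin m → ℤ), 0 < m → (∀ k, a k k ≠ 0) →
    ∑ v, phi C (Nz a v) ≤ 4 ^ m * (D * Real.sqrt ((1 + Real.log m) / m)) := by
  refine ⟨100 + 100 * C, by positivity, ?_⟩
  intro m a hm ha
  have hm1 : (1:ℝ) ≤ m := by exact_mod_cast hm
  have hm' : (0:ℝ) < m := by linarith
  set L : ℝ := 1 + Real.log m with hL
  have hL1 : 1 ≤ L := by have := Real.log_nonneg hm1; linarith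
  have hL0 : 0 < L := by linarith
  by_cases hbig : (m:ℝ) < 2000 * L
  · -- trivial bound
    have h1 : ∑ v, phi C (Nz a v) ≤ (4:ℝ) ^ m := by
      calc ∑ v, phi C (Nz a v) ≤ ∑ _v : Fin m → Bool × Bool, (1:ℝ) :=
            Finset.sum_le_sum (fun v _ => phi_le_one _ _)
        _ = 4 ^ m := by simp [Fintype.card_prod]
    refine h1.trans ?_
    have h2 : (1:ℝ) ≤ (100 + 100 * C) * Real.sqrt (L / m) := by
      have h3 : (1:ℝ) / 100 ≤ Real.sqrt (L / m) := by
        apply Real.le_sqrt_of_sq_le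
        rw [le_div_iff₀ hm']
        nlinarith
      nlinarith [mul_nonneg hC0 (Real.sqrt_nonneg (L / m))]
    calc (4:ℝ) ^ m = 4 ^ m * 1 := by ring
      _ ≤ _ := mul_le_mul_of_nonneg_left h2 (by positivity)
  · push Not at hbig
    set s : ℕ := ⌈L⌉₊ with hs
    have hs1 : (s:ℝ) < L + 1 := Nat.ceil_lt_add_one hL0.le
    have hs2 : L ≤ s := Nat.le_ceil L
    have hs0 : 0 < s := Nat.ceil_pos.mpr hL0
    set H : ℕ := ⌊(m:ℝ) / (500 * L)⌋₊ with hH
    have hx : (4:ℝ) ≤ (m:ℝ) / (500 * L) := by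
      rw [le_div_iff₀ (by positivity)]; nlinarith
    have hH1 : (H:ℝ) ≤ (m:ℝ) / (500 * L) := Nat.floor_le (by positivity)
    have hH2 : (m:ℝ) / (500 * L) < H + 1 := Nat.lt_floor_add_one _
    have hH0 : 0 < H := by
      have : (0:ℝ) < H := by linarith
      exact_mod_cast this
    have hH1' : (H:ℝ) * (500 * L) ≤ m := by
      rw [← le_div_iff₀ (by positivity)]; exact hH1
    have hsm : 4 * (16 * s * (2 * H + 1)) ≤ m := by
      have h1 : (4:ℝ) * (16 * s * (2 * H + 1)) ≤ m := by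
        have h2 : (s:ℝ) ≤ 2 * L := by linarith
        have hH0' : (1:ℝ) ≤ H := by exact_mod_cast hH0
        have h3 : (2 * (H:ℝ) + 1) ≤ 3 * H := by linarith
        calc (4:ℝ) * (16 * s * (2 * H + 1)) ≤ 4 * (16 * (2 * L) * (3 * H)) := by gcongr
          _ = 384 * (H * L) := by ring
          _ ≤ 500 * (H * L) := by nlinarith [mul_pos (lt_of_lt_of_le one_pos hH0') hL0]
          _ = H * (500 * L) := by ring
          _ ≤ m := hH1'
      exact_mod_cast h1
    refine (sum_phi_core hC0 hC a ha s H hs0 hH0 hsm).trans ?_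
    apply mul_le_mul_of_nonneg_left _ (by positivity)
    -- bound the three terms
    have hr0 : 0 ≤ Real.sqrt (L / m) := Real.sqrt_nonneg _
    have t1 : 1 / Real.sqrt H ≤ 32 * Real.sqrt (L / m) := by
      have h1 : (m:ℝ) / L ≤ 1000 * H := by
        have hH0' : (1:ℝ) ≤ H := by exact_mod_cast hH0
        have h2 : (m:ℝ) / (500 * L) < 2 * H := by linarith
        rw [div_lt_iff₀ (by positivity)] at h2
        rw [div_le_iff₀ hL0]
        nlinarith
      have h2 : (0:ℝ) < H := by exact_mod_cast hH0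
      have h3 : (1:ℝ) / H ≤ 1000 * (L / m) := by
        rw [div_le_iff₀ h2]
        rw [div_le_iff₀ hL0] at h1
        have : 1000 * (L / m) * H = (1000 * H * L) / m := by ring
        rw [this, le_div_iff₀ hm']
        linarith
      have h4 : 1 / Real.sqrt H = Real.sqrt (1 / H) := by
        rw [Real.sqrt_div (by norm_num), Real.sqrt_one]
      rw [h4]
      have h5 : (32:ℝ) * Real.sqrt (L / m) = Real.sqrt (1024 * (L / m)) := by
        rw [Real.sqrt_mul (by norm_num)]
        congr 1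
        rw [show (1024:ℝ) = 32 ^ 2 by norm_num, Real.sqrt_sq (by norm_num)]
      rw [h5]
      apply Real.sqrt_le_sqrt
      have : 0 ≤ L / m := by positivity
      linarith
    have t3 : 1 / Real.sqrt m ≤ Real.sqrt (L / m) := by
      have h4 : 1 / Real.sqrt m = Real.sqrt (1 / m) := by
        rw [Real.sqrt_div (by norm_num), Real.sqrt_one]
      rw [h4]
      apply Real.sqrt_le_sqrt
      gcongr
    have t2 : (m:ℝ) * (1 / 200) ^ s ≤ 1 / Real.sqrt m := by
      -- 200^s ≥ exp(2 L) ≥ m^2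
      have h1 : (m:ℝ) ^ 2 ≤ 200 ^ s := by
        have h2 : (m:ℝ) = Real.exp (Real.log m) := (Real.exp_log hm').symm
        have h3 : Real.exp (Real.log m) ≤ Real.exp s := by
          apply Real.exp_le_exp.mpr; linarith
        have h4 : Real.exp (s:ℝ) = Real.exp 1 ^ s := by
          rw [← Real.exp_nat_mul]; ring_nf
        have h5 : Real.exp 1 < 2.7182818286 := Real.exp_one_lt_d9
        calc (m:ℝ) ^ 2 ≤ (Real.exp 1 ^ s) ^ 2 := by
              apply pow_le_pow_left₀ hm'.le
              rw [← h4]; rw [h2]; exact h3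
          _ = (Real.exp 1 ^ 2) ^ s := by rw [← pow_mul, ← pow_mul, mul_comm]
          _ ≤ 200 ^ s := by
              apply pow_le_pow_left₀ (by positivity)
              nlinarith [Real.exp_pos 1]
      have h6 : Real.sqrt m ≤ m := by
        rw [Real.sqrt_le_left hm'.le]; nlinarith
      have h7 : 0 < Real.sqrt m := Real.sqrt_pos.mpr hm'
      rw [le_div_iff₀ h7, one_div, inv_pow]
      rw [mul_assoc, inv_mul_eq_div, mul_div_assoc', div_le_one (by positivity)]
      nlinarith
    have hCr : 0 ≤ C * Real.sqrt (L / m) := by positivity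
    calc 2 * (C / Real.sqrt H) + m * (1 / 200) ^ s + 8 * C / Real.sqrt m
        = 2 * C * (1 / Real.sqrt H) + m * (1 / 200) ^ s + 8 * C * (1 / Real.sqrt m) := by ring
      _ ≤ 2 * C * (32 * Real.sqrt (L / m)) + Real.sqrt (L / m) + 8 * C * Real.sqrt (L / m) := by
          gcongr
          exact t2.trans t3
      _ ≤ (100 + 100 * C) * Real.sqrt (L / m) := by nlinarith

end Pool.Agent.GaussJones
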