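import Pool.Agent.Helper96.GJ.Three

/-! Summation over all states with the three-term relation. -/

namespace Pool.Agent.GaussJones

open Finset

variable {n : ℕ}

/-- coefficient of a smoothing: 1 oriented, 2 not oriented -/
def cc (b : Bool) : ℤ := if b then 1 else 2

/-- smoothing as one of three kinds -/
def toSm (b : Bool) : Sm := if b then Sm.ori else Sm.dis

/-- the state `s` with the crossings in `S` made transparent -/
def trans (S : Finset (Fin n)) (s : Fin n → Bool) : Fin n → Sm := fun k =>
  if k ∈ S then Sm.tra else toSm (s k)

theorem loops_eq (g : Code n) (s : Fin n → Bool) : loops g s = loops3 g (trans ∅ s) := by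
  unfold loops loops3
  congr 2
  funext p q
  simp only [Joined, Joined3, trans, Finset.notMem_empty, if_false, toSm]
  apply propext
  constructor
  · rintro ⟨i, h⟩
    refine ⟨i, ?_⟩
    rcases h with ⟨h1, h2⟩ | ⟨h1, h2⟩
    · left; exact ⟨by simp [h1], h2⟩
    · right; left; exact ⟨by simp [h1], h2⟩
  · rintro ⟨i, h⟩
    refine ⟨i, ?_⟩
    rcases h with ⟨h1, h2⟩ | ⟨h1, h2⟩ | ⟨h1, h2⟩
    · left
      refine ⟨?_, h2⟩
      by_contra hc
      simp [hc] at h1
    · right
      refine ⟨?_, h2⟩
      by_contra hc
      simp only [Bool.not_eq_false] at hc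
      simp [hc] at h1
    · exfalso
      split_ifs at h1

theorem sum_update_bool (f : (Fin n → Bool) → ℤ) (k : Fin n) :
    ∑ s, (f (Function.update s k true) + f (Function.update s k false)) = 2 * ∑ s, f s := by
  classical
  set T : (Fin n → Bool) → (Fin n → Bool) := fun s => Function.update s k (!(s k)) with hT
  have hinv : ∀ s, T (T s) = s := by
    intro s
    funext i
    by_cases hi : i = k
    · subst hi; simp [hT]
    · simp [hT, Function.update_of_ne hi]
  have h1 : ∑ s, f (T s) = ∑ s, f s := Fintype.sum_equiv ⟨T, T, hinv, hinv⟩ _ _ (fun s => rfl)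
  have h2 : ∀ s, f (Function.update s k true) + f (Function.update s k false) = f s + f (T s) := by
    intro s
    rcases hb : s k with _ | _
    · have e1 : Function.update s k false = s := by rw [← hb]; exact Function.update_eq_self k s
      have e2 : T s = Function.update s k true := by simp [hT, hb]
      rw [e1, e2]; ring
    · have e1 : Function.update s k true = s := by rw [← hb]; exact Function.update_eq_self k s
      have e2 : T s = Function.update s k false := by simp [hT, hb]
      rw [e1, e2]
  rw [Finset.sum_congr rfl (fun s _ => h2 s), Finset.sum_add_distrib, h1]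
  ring

theorem trans_update {S : Finset (Fin n)} {k : Fin n} (hk : k ∉ S) (s : Fin n → Bool) (b : Bool) :
    trans S (Function.update s k b) = Function.update (trans (insert k S) s) k (toSm b) := by
  funext i
  by_cases hi : i = k
  · subst hi; simp [trans, hk]
  · simp [trans, hi]

theorem trans_insert {S : Finset (Fin n)} {k : Fin n} (s : Fin n → Bool) :
    trans (insert k S) s = Function.update (trans (insert k S) s) k Sm.tra := by
  funext i
  by_cases hi : i = k
  · subst hi; simp [trans]
  · simp [Function.update_of_ne hi]

theorem sum_step (g : Code n) (c : (Fin n → Bool) → ℤ) (S : Finset (Fin n)) (k : Fin n)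
    (hk : k ∉ S) (hc : ∀ s b, c (Function.update s k b) = c s) :
    2 * ∑ s, c s * (-2) ^ loops3 g (trans S s) =
      - ∑ s, c s * (-2) ^ loops3 g (trans (insert k S) s) := by
  rw [← sum_update_bool _ k, ← Finset.sum_neg_distrib]
  apply Finset.sum_congr rfl
  intro s _
  rw [hc, hc, trans_update hk, trans_update hk]
  have h := three_term g (trans (insert k S) s) k
  rw [← trans_insert] at h
  simp only [toSm, if_true, Bool.false_eq_true, if_false]
  linear_combination c s * h

theorem sum_all (g : Code n) (c : (Fin n → Bool) → ℤ) (S : Finset (Fin n))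
    (hc : ∀ k ∈ S, ∀ s b, c (Function.update s k b) = c s) :
    2 ^ S.card * ∑ s, c s * (-2) ^ loops3 g (trans ∅ s) =
      (-1) ^ S.card * ∑ s, c s * (-2) ^ loops3 g (trans S s) := by
  classical
  induction S using Finset.induction_on with
  | empty => simp
  | insert k S hk ih =>
    have ih' := ih (fun i hi => hc i (Finset.mem_insert_of_mem hi))
    have hs := sum_step g c S k hk (hc k (Finset.mem_insert_self _ _))
    rw [Finset.card_insert_of_notMem hk, pow_succ, pow_succ]
    linear_combination 2 * ih' + (-1) ^ S.card * hs

/-- the value for two crossings -/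
noncomputable def V (g : Code n) (i j : Fin n) : ℤ :=
  ∑ b : Bool, ∑ b' : Bool, cc b * cc b' *
    (-2) ^ loops3 g (Function.update (Function.update (fun _ => Sm.tra) i (toSm b)) j (toSm b'))

theorem W_eq (g : Code n) (i j : Fin n) (hij : i ≠ j) :
    ∑ s : Fin n → Bool, cc (s i) * cc (s j) * (-2) ^ loops3 g (trans ∅ s) = (-1) ^ n * V g i j := by
  classical
  set S : Finset (Fin n) := (univ.erase i).erase j with hS
  have hiS : i ∉ S := by simp [hS]
  have hjS : j ∉ S := by simp [hS]
  have hScard : S.card + 2 = n := by
    have h1 : (univ.erase i : Finset (Fin n)).card = n - 1 := by simp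
    have h2 : S.card = n - 1 - 1 := by
      rw [hS, Finset.card_erase_of_mem (by simp [hij.symm]), h1]
    have h3 : 2 ≤ n := by
      have hi := i.2
      have hj := j.2
      have : (i : ℕ) ≠ j := fun h => hij (Fin.ext h)
      omega
    omega
  have h1 := sum_all g (fun s => cc (s i) * cc (s j)) S (by
    intro k hk s b
    have hki : i ≠ k := fun h => hiS (h ▸ hk)
    have hkj : j ≠ k := fun h => hjS (h ▸ hk)
    simp only [Function.update_of_ne hki, Function.update_of_ne hkj])
  have h2 : 4 * ∑ s : Fin n → Bool, cc (s i) * cc (s j) * (-2) ^ loops3 g (trans S s) =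
      2 ^ n * V g i j := by
    have e1 := sum_update_bool (fun s : Fin n → Bool =>
      cc (s i) * cc (s j) * (-2) ^ loops3 g (trans S s)) j
    have e2 := sum_update_bool (fun s : Fin n → Bool =>
      (cc ((Function.update s j true) i) * cc ((Function.update s j true) j) *
        (-2) ^ loops3 g (trans S (Function.update s j true))) +
      (cc ((Function.update s j false) i) * cc ((Function.update s j false) j) *
        (-2) ^ loops3 g (trans S (Function.update s j false)))) i
    have e3 : ∀ (s : Fin n → Bool) (b b' : Bool),
        trans S (Function.update (Function.update s i b) j b') =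
        Function.update (Function.update (fun _ => Sm.tra) i (toSm b)) j (toSm b') := by
      intro s b b'
      funext k
      by_cases hkj : k = j
      · subst hkj; simp [trans, hjS]
      · by_cases hki : k = i
        · subst hki; simp [trans, hiS, Function.update_of_ne hkj]
        · have : k ∈ S := by simp [hS, hki, hkj]
          simp [trans, this, Function.update_of_ne hkj, Function.update_of_ne hki]
    simp only [e3, Function.update_self, Function.update_of_ne hij] at e2
    simp only [] at e1
    have e4 : 4 * ∑ s : Fin n → Bool, cc (s i) * cc (s j) * (-2) ^ loops3 g (trans S s) =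
        2 * ∑ s : Fin n → Bool, (cc ((Function.update s j true) i) *
          cc ((Function.update s j true) j) *
          (-2) ^ loops3 g (trans S (Function.update s j true)) +
          cc ((Function.update s j false) i) * cc ((Function.update s j false) j) *
          (-2) ^ loops3 g (trans S (Function.update s j false))) := by
      linear_combination (-2) * e1
    rw [e4]
    simp only [Function.update_self, Function.update_of_ne hij]
    rw [← e2]
    simp only [Finset.sum_const, Finset.card_univ, Fintype.card_pi, Fintype.card_bool,
      Finset.prod_const, Fintype.card_fin, V, Fintype.sum_bool, nsmul_eq_mul]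
    push_cast
    ring
  have h3 : (2:ℤ) ^ n = 2 ^ S.card * 4 := by
    calc (2:ℤ) ^ n = 2 ^ (S.card + 2) := by rw [hScard]
      _ = _ := by rw [pow_add]; norm_num
  have h4 : ((-1:ℤ)) ^ n = (-1) ^ S.card := by
    calc (-1:ℤ) ^ n = (-1) ^ (S.card + 2) := by rw [hScard]
      _ = _ := by rw [pow_add]; norm_num
  have h5 : (2:ℤ) ^ S.card * 4 ≠ 0 := by positivity
  apply mul_left_cancel₀ h5
  rw [h4]
  rw [h3] at h2
  calc 2 ^ S.card * 4 * ∑ s : Fin n → Bool, cc (s i) * cc (s j) * (-2) ^ loops3 g (trans ∅ s)
      = 4 * (2 ^ S.card *
          ∑ s : Fin n → Bool, cc (s i) * cc (s j) * (-2) ^ loops3 g (trans ∅ s)) := by ring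
    _ = 4 * ((-1) ^ S.card *
          ∑ s : Fin n → Bool, cc (s i) * cc (s j) * (-2) ^ loops3 g (trans S s)) := by rw [h1]
    _ = (-1) ^ S.card *
          (4 * ∑ s : Fin n → Bool, cc (s i) * cc (s j) * (-2) ^ loops3 g (trans S s)) := by ring
    _ = _ := by rw [h2]; ring

end Pool.Agent.GaussJones
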