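import Pool.Agent.Helper96.GJ.Base

/-! The three-term relation at `d = -2`: the three smoothings of one crossing. -/

namespace Pool.Agent.GaussJones

open Relation

namespace A1

variable {E H : Type*}

/-- `r` with one more pair. -/
def Add (r : E → E → Prop) (u v : E) (x y : E) : Prop := r x y ∨ (x = u ∧ y = v)

theorem eqv_mono {r : E → E → Prop} {u v x y : E} (h : EqvGen r x y) :
    EqvGen (Add r u v) x y := by
  induction h with
  | rel x y h => exact EqvGen.rel _ _ (Or.inl h)
  | refl x => exact EqvGen.refl x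
  | symm x y _ ih => exact EqvGen.symm _ _ ih
  | trans x y z _ _ ih1 ih2 => exact EqvGen.trans _ _ _ ih1 ih2

theorem eqv_add (r : E → E → Prop) (u v x y : E) :
    EqvGen (Add r u v) x y ↔ EqvGen r x y ∨ (EqvGen r x u ∧ EqvGen r v y) ∨
      (EqvGen r x v ∧ EqvGen r u y) := by
  have hs : ∀ {a b : E}, EqvGen r a b → EqvGen r b a := fun h => EqvGen.symm _ _ h
  have ht : ∀ {a b c : E}, EqvGen r a b → EqvGen r b c → EqvGen r a c :=
    fun h1 h2 => EqvGen.trans _ _ _ h1 h2
  have hr : ∀ a : E, EqvGen r a a := fun a => EqvGen.refl a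
  constructor
  · intro h
    induction h with
    | rel x y h =>
      rcases h with h | ⟨rfl, rfl⟩
      · exact Or.inl (EqvGen.rel _ _ h)
      · exact Or.inr (Or.inl ⟨hr _, hr _⟩)
    | refl x => exact Or.inl (hr x)
    | symm x y _ ih =>
      rcases ih with h | ⟨h1, h2⟩ | ⟨h1, h2⟩
      · exact Or.inl (hs h)
      · exact Or.inr (Or.inr ⟨hs h2, hs h1⟩)
      · exact Or.inr (Or.inl ⟨hs h2, hs h1⟩)
    | trans x y z _ _ ih1 ih2 =>
      rcases ih1 with h | ⟨h1, h2⟩ | ⟨h1, h2⟩
      · rcases ih2 with h' | ⟨h3, h4⟩ | ⟨h3, h4⟩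
        · exact Or.inl (ht h h')
        · exact Or.inr (Or.inl ⟨ht h h3, h4⟩)
        · exact Or.inr (Or.inr ⟨ht h h3, h4⟩)
      · rcases ih2 with h' | ⟨h3, h4⟩ | ⟨h3, h4⟩
        · exact Or.inr (Or.inl ⟨h1, ht h2 h'⟩)
        · exact Or.inr (Or.inl ⟨h1, h4⟩)
        · exact Or.inl (ht h1 h4)
      · rcases ih2 with h' | ⟨h3, h4⟩ | ⟨h3, h4⟩
        · exact Or.inr (Or.inr ⟨h1, ht h2 h'⟩)
        · exact Or.inl (ht h1 h4)
        · exact Or.inr (Or.inr ⟨h1, h4⟩)
  · have huv : EqvGen (Add r u v) u v := EqvGen.rel _ _ (Or.inr ⟨rfl, rfl⟩)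
    rintro (h | ⟨h1, h2⟩ | ⟨h1, h2⟩)
    · exact eqv_mono h
    · exact EqvGen.trans _ _ _ (eqv_mono h1) (EqvGen.trans _ _ _ huv (eqv_mono h2))
    · exact EqvGen.trans _ _ _ (eqv_mono h1)
        (EqvGen.trans _ _ _ (EqvGen.symm _ _ huv) (eqv_mono h2))

/-- the map of the classes -/
def up (r : E → E → Prop) (u v : E) : Quot r → Quot (Add r u v) :=
  Quot.map id fun _ _ h => Or.inl h

theorem up_surjective (r : E → E → Prop) (u v : E) : Function.Surjective (up r u v) := by
  intro z
  induction z using Quot.ind with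
  | mk x => exact ⟨Quot.mk _ x, rfl⟩

theorem up_eq (r : E → E → Prop) (u v x y : E) :
    up r u v (Quot.mk _ x) = up r u v (Quot.mk _ y) ↔ EqvGen r x y ∨
      (EqvGen r x u ∧ EqvGen r v y) ∨ (EqvGen r x v ∧ EqvGen r u y) := by
  rw [← eqv_add, ← Quot.eq]
  rfl

theorem card_of_eqv (r : E → E → Prop) {u v : E} (h : EqvGen r u v) :
    Nat.card (Quot (Add r u v)) = Nat.card (Quot r) := by
  symm
  refine Nat.card_congr (Equiv.ofBijective (up r u v) ⟨?_, up_surjective r u v⟩)
  intro a b hab
  induction a using Quot.ind with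
  | mk x =>
    induction b using Quot.ind with
    | mk y =>
      rw [up_eq] at hab
      rw [Quot.eq]
      rcases hab with h' | ⟨h1, h2⟩ | ⟨h1, h2⟩
      · exact h'
      · exact EqvGen.trans _ _ _ h1 (EqvGen.trans _ _ _ h h2)
      · exact EqvGen.trans _ _ _ h1 (EqvGen.trans _ _ _ (EqvGen.symm _ _ h) h2)

theorem card_of_not_eqv [Finite E] (r : E → E → Prop) {u v : E} (h : ¬ EqvGen r u v) :
    Nat.card (Quot (Add r u v)) + 1 = Nat.card (Quot r) := by
  classical
  have hfin : Finite (Quot r) := Finite.of_surjective (Quot.mk r) Quot.mk_surjective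
  have e1 : Nat.card {z : Quot r // z ≠ Quot.mk r v} = Nat.card (Quot (Add r u v)) := by
    refine Nat.card_congr (Equiv.ofBijective (fun z => up r u v z.1) ⟨?_, ?_⟩)
    · rintro ⟨a, ha⟩ ⟨b, hb⟩ hab
      induction a using Quot.ind with
      | mk x =>
        induction b using Quot.ind with
        | mk y =>
          simp only at hab
          rw [up_eq] at hab
          apply Subtype.ext
          simp only
          rcases hab with h' | ⟨h1, h2⟩ | ⟨h1, h2⟩
          · exact Quot.eq.2 h'
          · exact absurd (Quot.eq.2 (EqvGen.symm _ _ h2)) hb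
          · exact absurd (Quot.eq.2 h1) ha
    · intro z
      obtain ⟨a, rfl⟩ := up_surjective r u v z
      by_cases ha : a = Quot.mk r v
      · subst ha
        refine ⟨⟨Quot.mk r u, fun h' => h (Quot.eq.1 h')⟩, ?_⟩
        simp only
        rw [up_eq]
        exact Or.inr (Or.inl ⟨EqvGen.refl _, EqvGen.refl _⟩)
      · exact ⟨⟨a, ha⟩, rfl⟩
  rw [← e1]
  have := Fintype.ofFinite (Quot r)
  rw [Nat.card_eq_fintype_card, Nat.card_eq_fintype_card]
  have h2 := Fintype.card_subtype_compl (fun z : Quot r => z = Quot.mk r v)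
  have h3 : Fintype.card {z : Quot r // z = Quot.mk r v} = 1 := Fintype.card_subtype_eq _
  have h4 : 0 < Fintype.card (Quot r) := Fintype.card_pos_iff.2 ⟨Quot.mk r v⟩
  have h5 : Fintype.card {z : Quot r // z ≠ Quot.mk r v} = Fintype.card (Quot r) - 1 := by
    rw [← h3, ← h2]
  omega

/-- every free end has exactly one partner among the free ends -/
def Inv (f : H → E) (F : H → Prop) (r : E → E → Prop) : Prop :=
  ∀ h, F h → ∃ h', F h' ∧ h' ≠ h ∧ EqvGen r (f h) (f h') ∧
    ∀ h'', F h'' → h'' ≠ h → EqvGen r (f h) (f h'') → h'' = h'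

theorem Inv.step {f : H → E} {F : H → Prop} {r : E → E → Prop} (hI : Inv f F r) {h1 h2 : H}
    (hF1 : F h1) (hF2 : F h2) (hne : h1 ≠ h2) :
    Inv f (fun h => F h ∧ h ≠ h1 ∧ h ≠ h2) (Add r (f h1) (f h2)) := by
  have hs : ∀ {a b : E}, EqvGen r a b → EqvGen r b a := fun h => EqvGen.symm _ _ h
  rintro h ⟨hF, hn1, hn2⟩
  obtain ⟨t, hFt, htn, hrt, hu⟩ := hI h hF
  obtain ⟨t1, hFt1, ht1n, hrt1, hu1⟩ := hI h1 hF1
  obtain ⟨t2, hFt2, ht2n, hrt2, hu2⟩ := hI h2 hF2
  by_cases ha : t = h1
  · -- the partner of `h` is `h1`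
    subst ha
    have e1 : t1 = h := (hu1 h hF hn1 (hs hrt)).symm
    have n2 : t2 ≠ t := by
      rintro rfl
      have := hu1 h2 hF2 hne.symm (hs hrt2)
      exact hn2 (e1.symm.trans this.symm)
    have n3 : t2 ≠ h := by
      rintro rfl
      exact hne (hu h2 hF2 (Ne.symm hn2) (hs hrt2)).symm
    refine ⟨t2, ⟨hFt2, n2, ht2n⟩, n3, ?_, ?_⟩
    · rw [eqv_add]
      exact Or.inr (Or.inl ⟨hrt, hrt2⟩)
    · rintro h'' ⟨hF'', hn1'', hn2''⟩ hn'' hr''
      rw [eqv_add] at hr''
      rcases hr'' with h' | ⟨h3, h4⟩ | ⟨h3, h4⟩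
      · exact absurd (hu h'' hF'' hn'' h') hn1''
      · exact hu2 h'' hF'' hn2'' h4
      · exact absurd (hu h2 hF2 (Ne.symm hn2) h3).symm hne
  · by_cases hb : t = h2
    · subst hb
      have e1 : t2 = h := (hu2 h hF hn2 (hs hrt)).symm
      have n2 : t1 ≠ t := by
        rintro rfl
        have := hu2 h1 hF1 hne (hs hrt1)
        exact hn1 (e1.symm.trans this.symm)
      have n3 : t1 ≠ h := by
        rintro rfl
        exact hne (hu h1 hF1 (Ne.symm hn1) (hs hrt1))
      refine ⟨t1, ⟨hFt1, ht1n, n2⟩, n3, ?_, ?_⟩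
      · rw [eqv_add]
        exact Or.inr (Or.inr ⟨hrt, hrt1⟩)
      · rintro h'' ⟨hF'', hn1'', hn2''⟩ hn'' hr''
        rw [eqv_add] at hr''
        rcases hr'' with h' | ⟨h3, h4⟩ | ⟨h3, h4⟩
        · exact absurd (hu h'' hF'' hn'' h') hn2''
        · exact absurd (hu h1 hF1 (Ne.symm hn1) h3) hne
        · exact hu1 h'' hF'' hn1'' h4
    · refine ⟨t, ⟨hFt, ha, hb⟩, htn, eqv_mono hrt, ?_⟩
      rintro h'' ⟨hF'', hn1'', hn2''⟩ hn'' hr''
      rw [eqv_add] at hr''
      rcases hr'' with h' | ⟨h3, h4⟩ | ⟨h3, h4⟩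
      · exact hu h'' hF'' hn'' h'
      · exact absurd (hu h1 hF1 (Ne.symm hn1) h3).symm ha
      · exact absurd (hu h2 hF2 (Ne.symm hn2) h3).symm hb

variable {n : ℕ}

/-- half-edges: `((i, k), false)` is the arriving one, `((i, k), true)` the leaving one. -/
abbrev Half (n : ℕ) := (Fin n × Bool) × Bool

/-- the edge of a half-edge -/
def ed (g : Code n) (h : Half n) : Fin (2 * n) := if h.2 then outEdge g h.1 else inEdge g h.1

/-- first pair -/
def P1 (s : Sm) (i : Fin n) : Half n × Half n :=
  match s with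
  | Sm.ori => (((i, false), false), ((i, true), true))
  | Sm.dis => (((i, false), false), ((i, true), false))
  | Sm.tra => (((i, false), false), ((i, false), true))

/-- second pair -/
def P2 (s : Sm) (i : Fin n) : Half n × Half n :=
  match s with
  | Sm.ori => (((i, true), false), ((i, false), true))
  | Sm.dis => (((i, false), true), ((i, true), true))
  | Sm.tra => (((i, true), false), ((i, true), true))

/-- joined at the crossings of the list `l` -/
def RL (g : Code n) (σ : Fin n → Sm) (l : List (Fin n)) (p q : Fin (2 * n)) : Prop :=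
  ∃ i ∈ l, (p = ed g (P1 (σ i) i).1 ∧ q = ed g (P1 (σ i) i).2) ∨
    (p = ed g (P2 (σ i) i).1 ∧ q = ed g (P2 (σ i) i).2)

theorem RL_cons (g : Code n) (σ : Fin n → Sm) (i : Fin n) (l : List (Fin n)) :
    RL g σ (i :: l) = Add (Add (RL g σ l) (ed g (P1 (σ i) i).1) (ed g (P1 (σ i) i).2))
      (ed g (P2 (σ i) i).1) (ed g (P2 (σ i) i).2) := by
  funext p q
  apply propext
  unfold RL Add
  simp only [List.mem_cons, exists_eq_or_imp]
  constructor
  · rintro ((h | h) | h)
    · exact Or.inl (Or.inr h)
    · exact Or.inr h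
    · exact Or.inl (Or.inl h)
  · rintro ((h | h) | h)
    · exact Or.inr h
    · exact Or.inl (Or.inl h)
    · exact Or.inl (Or.inr h)

theorem joined3_iff (g : Code n) (σ : Fin n → Sm) (p q : Fin (2 * n)) :
    Joined3 g σ p q ↔ ∃ i, (p = ed g (P1 (σ i) i).1 ∧ q = ed g (P1 (σ i) i).2) ∨
      (p = ed g (P2 (σ i) i).1 ∧ q = ed g (P2 (σ i) i).2) := by
  unfold Joined3
  refine exists_congr fun i => ?_
  cases hσ : σ i <;> simp [P1, P2, ed]

theorem joined3_update (g : Code n) (σ : Fin n → Sm) (k : Fin n) (s : Sm) :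
    Joined3 g (Function.update σ k s) =
      Add (Add (RL g σ (Finset.univ.erase k).toList) (ed g (P1 s k).1) (ed g (P1 s k).2))
        (ed g (P2 s k).1) (ed g (P2 s k).2) := by
  funext p q
  apply propext
  rw [joined3_iff]
  unfold Add RL
  constructor
  · rintro ⟨i, hi⟩
    by_cases hik : i = k
    · subst hik
      simp only [Function.update_self] at hi
      tauto
    · simp only [Function.update_of_ne hik] at hi
      exact Or.inl (Or.inl ⟨i, by simpa using hik, hi⟩)
  · rintro ((⟨i, hi, h⟩ | h) | h)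
    · have hik : i ≠ k := by simpa using hi
      refine ⟨i, ?_⟩
      simpa only [Function.update_of_ne hik] using h
    · refine ⟨k, ?_⟩
      simp only [Function.update_self]
      exact Or.inl h
    · refine ⟨k, ?_⟩
      simp only [Function.update_self]
      exact Or.inr h

/-- an edge has exactly two half-edges -/
theorem inv_nil (g : Code n) (σ : Fin n → Sm) :
    Inv (ed g) (fun h => h.1.1 ∉ ([] : List (Fin n))) (RL g σ []) := by
  have key : ∀ p q, EqvGen (RL g σ []) p q ↔ p = q := by
    intro p q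
    constructor
    · intro h
      induction h with
      | rel x y h => obtain ⟨i, hi, _⟩ := h; simp at hi
      | refl x => rfl
      | symm x y _ ih => exact ih.symm
      | trans x y z _ _ ih1 ih2 => exact ih1.trans ih2
    · rintro rfl
      exact EqvGen.refl _
  rintro ⟨x, b⟩ -
  cases b with
  | false =>
    refine ⟨(g.symm (inEdge g x), true), by simp, by simp, ?_, ?_⟩
    · rw [key]; simp [ed, outEdge]
    · rintro ⟨y, c⟩ - hne hr
      rw [key] at hr
      cases c with
      | false =>
        exfalso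
        simp only [ed, Bool.false_eq_true, if_false, inEdge, EmbeddingLike.apply_eq_iff_eq] at hr
        exact hne (by rw [hr])
      | true =>
        simp only [ed, Bool.false_eq_true, if_false, if_true, outEdge] at hr
        rw [hr]; simp
  | true =>
    refine ⟨(g.symm (finRotate (2 * n) (outEdge g x)), false), by simp, by simp, ?_, ?_⟩
    · rw [key]
      simp only [ed, Bool.false_eq_true, if_false, if_true, inEdge, Equiv.apply_symm_apply,
        Equiv.symm_apply_apply]
    · rintro ⟨y, c⟩ - hne hr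
      rw [key] at hr
      cases c with
      | true =>
        exfalso
        simp only [ed, if_true, outEdge, EmbeddingLike.apply_eq_iff_eq] at hr
        exact hne (by rw [hr])
      | false =>
        simp only [ed, Bool.false_eq_true, if_false, if_true, inEdge] at hr
        rw [hr, Equiv.apply_symm_apply, Equiv.symm_apply_apply]

theorem inv_list (g : Code n) (σ : Fin n → Sm) (l : List (Fin n)) (hl : l.Nodup) :
    Inv (ed g) (fun h => h.1.1 ∉ l) (RL g σ l) := by
  induction l with
  | nil => exact inv_nil g σ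
  | cons i l ih =>
    have hi : i ∉ l := (List.nodup_cons.1 hl).1
    have ih := ih (List.nodup_cons.1 hl).2
    rw [RL_cons]
    have s1 := ih.step (h1 := (P1 (σ i) i).1) (h2 := (P1 (σ i) i).2)
      (by cases σ i <;> simpa [P1] using hi) (by cases σ i <;> simpa [P1] using hi)
      (by cases σ i <;> simp [P1])
    have s2 := s1.step (h1 := (P2 (σ i) i).1) (h2 := (P2 (σ i) i).2)
      (by cases σ i <;> simpa [P1, P2] using hi) (by cases σ i <;> simpa [P1, P2] using hi)
      (by cases σ i <;> simp [P2])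
    have hF : (fun h : Half n => h.1.1 ∉ i :: l) = fun h : Half n =>
        ((h.1.1 ∉ l ∧ h ≠ (P1 (σ i) i).1 ∧ h ≠ (P1 (σ i) i).2) ∧ h ≠ (P2 (σ i) i).1 ∧
          h ≠ (P2 (σ i) i).2) := by
      funext h
      apply propext
      obtain ⟨⟨j, a⟩, b⟩ := h
      by_cases hj : j = i
      · subst hj
        cases σ j <;> cases a <;> cases b <;> simp [P1, P2]
      · cases σ i <;> simp [P1, P2, hj]
    rw [hF]
    exact s2

theorem two_pairs_eq (r : E → E → Prop) {u v w z : E} (h1 : EqvGen r u v) (h2 : EqvGen r w z) :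
    Nat.card (Quot (Add (Add r u v) w z)) = Nat.card (Quot r) := by
  rw [card_of_eqv _ (eqv_mono h2), card_of_eqv _ h1]

theorem two_pairs_ne [Finite E] (r : E → E → Prop) {u v w z : E} (h1 : ¬ EqvGen r u v)
    (h2 : (EqvGen r w u ∧ EqvGen r v z) ∨ (EqvGen r w v ∧ EqvGen r u z)) :
    Nat.card (Quot (Add (Add r u v) w z)) + 1 = Nat.card (Quot r) := by
  rw [card_of_eqv (Add r u v) ((eqv_add _ _ _ _ _).2 (Or.inr h2)), card_of_not_eqv _ h1]

theorem arith {a b c N : ℕ} (ha : a = N) (hb : b + 1 = N) (hc : c + 1 = N) :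
    (-2 : ℤ) ^ a + (-2 : ℤ) ^ b + (-2 : ℤ) ^ c = 0 := by
  subst ha
  obtain rfl : b = c := by omega
  rw [← hb, pow_succ]
  ring

end A1

open A1 in
/-- MODULE A1 (three-term relation at d = -2) -/
theorem three_term {n : ℕ} (g : Code n) (σ : Fin n → Sm) (k : Fin n) :
    (-2 : ℤ) ^ loops3 g (Function.update σ k Sm.ori) +
      (-2 : ℤ) ^ loops3 g (Function.update σ k Sm.dis) +
      (-2 : ℤ) ^ loops3 g (Function.update σ k Sm.tra) = 0 := by
  classical
  unfold loops3
  rw [joined3_update, joined3_update, joined3_update]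
  have hI := inv_list g σ (Finset.univ.erase k).toList (Finset.nodup_toList _)
  set r := RL g σ (Finset.univ.erase k).toList with hr
  have hs : ∀ {a b}, EqvGen r a b → EqvGen r b a := fun h => EqvGen.symm _ _ h
  have ht : ∀ {a b c}, EqvGen r a b → EqvGen r b c → EqvGen r a c :=
    fun h1 h2 => EqvGen.trans _ _ _ h1 h2
  have hF : ∀ h : Half n, h.1.1 ∉ (Finset.univ.erase k).toList ↔ h.1.1 = k := by
    intro h; simp
  have hI' : ∀ a b : Bool, ∃ c d : Bool, (c, d) ≠ (a, b) ∧
      EqvGen r (ed g ((k, a), b)) (ed g ((k, c), d)) ∧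
      ∀ c' d' : Bool, (c', d') ≠ (a, b) → EqvGen r (ed g ((k, a), b)) (ed g ((k, c'), d')) →
        (c', d') = (c, d) := by
    intro a b
    obtain ⟨⟨⟨j, c⟩, d⟩, hFj, hn, he, hu⟩ := hI ((k, a), b) (by simp)
    obtain rfl : j = k := (hF _).1 hFj
    refine ⟨c, d, ?_, he, ?_⟩
    · intro h
      apply hn
      rw [Prod.mk.injEq] at h
      rw [h.1, h.2]
    · intro c' d' h' he'
      have := hu ((j, c'), d') (by simp) (by
        intro h''
        apply h'
        rw [Prod.mk.injEq, Prod.mk.injEq] at h''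
        rw [h''.1.2, h''.2]) he'
      rw [Prod.mk.injEq, Prod.mk.injEq] at this
      rw [this.1.2, this.2]
  set A := ed g ((k, false), false) with hA
  set B := ed g ((k, true), false) with hB
  set C := ed g ((k, false), true) with hC
  set D := ed g ((k, true), true) with hD
  have main : (EqvGen r A B ∧ EqvGen r C D ∧ ¬ EqvGen r A C) ∨
      (EqvGen r A C ∧ EqvGen r B D ∧ ¬ EqvGen r A B) ∨
      (EqvGen r A D ∧ EqvGen r B C ∧ ¬ EqvGen r A B) := by
    obtain ⟨c, d, hn, he, hu⟩ := hI' false false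
    have uB : EqvGen r A B → (true, false) = (c, d) := hu true false (by simp)
    have uC : EqvGen r A C → (false, true) = (c, d) := hu false true (by simp)
    have uD : EqvGen r A D → (true, true) = (c, d) := hu true true (by simp)
    rcases Bool.eq_false_or_eq_true c with hc | hc <;>
      rcases Bool.eq_false_or_eq_true d with hd | hd <;> subst hc <;> subst hd
    · -- partner of A is D
      right; right
      have nB : ¬ EqvGen r A B := fun h => by simpa using uB h
      have nC : ¬ EqvGen r A C := fun h => by simpa using uC h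
      refine ⟨he, ?_, nB⟩
      obtain ⟨c', d', hn', he', -⟩ := hI' true false
      rcases Bool.eq_false_or_eq_true c' with hc | hc <;>
        rcases Bool.eq_false_or_eq_true d' with hd | hd <;> subst hc <;> subst hd
      · exact absurd (ht he (hs he')) nB
      · exact absurd rfl hn'
      · exact he'
      · exact absurd (hs he') nB
    · left
      have nC : ¬ EqvGen r A C := fun h => by simpa using uC h
      refine ⟨he, ?_, nC⟩
      obtain ⟨c', d', hn', he', -⟩ := hI' false true
      rcases Bool.eq_false_or_eq_true c' with hc | hc <;>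
        rcases Bool.eq_false_or_eq_true d' with hd | hd <;> subst hc <;> subst hd
      · exact he'
      · exact absurd (ht he (hs he')) nC
      · exact absurd rfl hn'
      · exact absurd (hs he') nC
    · right; left
      have nB : ¬ EqvGen r A B := fun h => by simpa using uB h
      refine ⟨he, ?_, nB⟩
      obtain ⟨c', d', hn', he', -⟩ := hI' true false
      rcases Bool.eq_false_or_eq_true c' with hc | hc <;>
        rcases Bool.eq_false_or_eq_true d' with hd | hd <;> subst hc <;> subst hd
      · exact he'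
      · exact absurd rfl hn'
      · exact absurd (ht he (hs he')) nB
      · exact absurd (hs he') nB
    · exact absurd rfl hn
  have eo1 : (P1 Sm.ori k : Half n × Half n) = (((k, false), false), ((k, true), true)) := rfl
  have eo2 : (P2 Sm.ori k : Half n × Half n) = (((k, true), false), ((k, false), true)) := rfl
  have ed1 : (P1 Sm.dis k : Half n × Half n) = (((k, false), false), ((k, true), false)) := rfl
  have ed2 : (P2 Sm.dis k : Half n × Half n) = (((k, false), true), ((k, true), true)) := rfl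
  have et1 : (P1 Sm.tra k : Half n × Half n) = (((k, false), false), ((k, false), true)) := rfl
  have et2 : (P2 Sm.tra k : Half n × Half n) = (((k, true), false), ((k, true), true)) := rfl
  rw [eo1, eo2, ed1, ed2, et1, et2]
  simp only [← hA, ← hB, ← hC, ← hD]
  rcases main with ⟨h1, h2, h3⟩ | ⟨h1, h2, h3⟩ | ⟨h1, h2, h3⟩
  · -- A-B, C-D
    have x1 := two_pairs_ne r (u := A) (v := D) (w := B) (z := C)
      (fun h => h3 (ht h (hs h2))) (Or.inl ⟨hs h1, hs h2⟩)
    have x2 := two_pairs_eq r h1 h2
    have x3 := two_pairs_ne r (u := A) (v := C) (w := B) (z := D) h3 (Or.inl ⟨hs h1, h2⟩)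
    have := arith x2 x1 x3
    linarith
  · have x1 := two_pairs_ne r (u := A) (v := D) (w := B) (z := C)
      (fun h => h3 (ht h (hs h2))) (Or.inr ⟨h2, h1⟩)
    have x2 := two_pairs_ne r (u := A) (v := B) (w := C) (z := D) h3 (Or.inl ⟨hs h1, h2⟩)
    have x3 := two_pairs_eq r h1 h2
    have := arith x3 x1 x2
    linarith
  · have x1 := two_pairs_eq r h1 h2
    have x2 := two_pairs_ne r (u := A) (v := B) (w := C) (z := D) h3 (Or.inr ⟨hs h2, h1⟩)
    have x3 := two_pairs_ne r (u := A) (v := C) (w := B) (z := D)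
      (fun h => h3 (ht h (hs h2))) (Or.inr ⟨h2, h1⟩)
    have := arith x1 x2 x3
    linarith

end Pool.Agent.GaussJones
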